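import Mathlib
import Pool.Agent.H532.UN.Pos

/-!
Patterns in intervals, sieved by small primes with arbitrary classes.
-/

namespace Pool.Agent.H532.UT

open Finset Pool.Agent.H532.RM Pool.Agent.H532.UN

/-- the number of classes modulo `q` which `H` occupies -/
def nu (H : Finset ℕ) (q : ℕ) : ℕ := (H.image (· % q)).card

lemma nu_le (H : Finset ℕ) (q : ℕ) : nu H q ≤ H.card := card_image_le

lemma nu_le_self (H : Finset ℕ) {q : ℕ} (hq : 0 < q) : nu H q ≤ q := by
  have h : H.image (· % q) ⊆ range q := by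
    intro r hr
    obtain ⟨i, _, rfl⟩ := mem_image.1 hr
    exact mem_range.2 (Nat.mod_lt _ hq)
  have := card_le_card h
  rwa [card_range] at this

/-- the residues `r` with `r + i = a q` modulo `q` for an `i` in `H` -/
def NgH (H : Finset ℕ) (a : ℕ → ℕ) (q : ℕ) : Finset ℕ := Ng (H.image (· % q)) a q

lemma mem_NgH (H : Finset ℕ) (a : ℕ → ℕ) {q : ℕ} (hq : 0 < q) (x : ℕ) :
    x % q ∈ NgH H a q ↔ ∃ i ∈ H, (x + i) % q = a q % q := by
  unfold NgH
  rw [mem_Ng (fun i hi => by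
    obtain ⟨u, _, rfl⟩ := mem_image.1 hi
    exact Nat.mod_lt _ hq)]
  simp only [mem_image, exists_exists_and_eq_and, Nat.add_mod_mod]

lemma card_NgH (H : Finset ℕ) (a : ℕ → ℕ) {q : ℕ} (hq : 0 < q) : (NgH H a q).card = nu H q := by
  unfold NgH nu Ng
  refine card_image_of_injOn ?_
  intro i hi i' hi' h
  have hlt : ∀ i ∈ H.image (· % q), i < q := by
    intro i hi
    obtain ⟨u, _, rfl⟩ := mem_image.1 hi
    exact Nat.mod_lt _ hq
  have h0 := hlt i (mem_coe.1 hi)
  have h0' := hlt i' (mem_coe.1 hi')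
  have h1 : a q + (q - i) ≡ a q + (q - i') [MOD q] := h
  have h2 := Nat.ModEq.add_left_cancel' _ h1
  have h3 := h2.add_right (i + i')
  have e1 : q - i + (i + i') = i' + q := by omega
  have e2 : q - i' + (i + i') = i + q := by omega
  rw [e1, e2] at h3
  have h4 : i' ≡ i [MOD q] := Nat.ModEq.add_right_cancel' q h3
  exact (Nat.ModEq.eq_of_lt_of_lt h4 h0' h0).symm

lemma NgH_subset (H : Finset ℕ) (a : ℕ → ℕ) {q : ℕ} (hq : 0 < q) : NgH H a q ⊆ range q :=
  Ng_subset hq

/-- the product of the local densities -/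
noncomputable def pr (H Q : Finset ℕ) : ℝ := ∏ q ∈ Q, (1 - (nu H q : ℝ) / q)

lemma pr_union {H Q Q' : Finset ℕ} (h : Disjoint Q Q') : pr H (Q ∪ Q') = pr H Q * pr H Q' :=
  prod_union h

lemma pr_mem (H Q : Finset ℕ) (hQ : ∀ q ∈ Q, 0 < q) : 0 ≤ pr H Q ∧ pr H Q ≤ 1 := by
  have h : ∀ q ∈ Q, 0 ≤ 1 - (nu H q : ℝ) / q ∧ 1 - (nu H q : ℝ) / q ≤ 1 := by
    intro q hq
    have h0 : (0 : ℝ) < q := by exact_mod_cast hQ q hq
    have h1 : (nu H q : ℝ) ≤ q := by exact_mod_cast nu_le_self H (hQ q hq)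
    constructor
    · rw [sub_nonneg, div_le_one h0]; exact h1
    · have : 0 ≤ (nu H q : ℝ) / q := by positivity
      linarith
  exact ⟨prod_nonneg fun q hq => (h q hq).1, prod_le_one (fun q hq => (h q hq).1)
    fun q hq => (h q hq).2⟩

lemma rho_le_pr {h : ℕ} {H Q : Finset ℕ} (hH : H.card ≤ h) (hQ : ∀ q ∈ Q, 0 < q ∧ h ≤ q) :
    rho h Q ≤ pr H Q := by
  unfold rho pr
  refine prod_le_prod (fun q hq => ?_) fun q hq => ?_
  · have h0 : (0 : ℝ) < q := by exact_mod_cast (hQ q hq).1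
    rw [sub_nonneg, div_le_one h0]
    exact_mod_cast (hQ q hq).2
  · have h0 : (0 : ℝ) < q := by exact_mod_cast (hQ q hq).1
    have h1 : (nu H q : ℝ) ≤ h := by exact_mod_cast (nu_le H q).trans hH
    gcongr

/-- exact counts in a full period -/
lemma avs_period (Q : Finset ℕ) : ∀ (Om : ℕ → Finset ℕ), (∀ q ∈ Q, q.Prime) →
    (∀ q ∈ Q, Om q ⊆ range q) →
    ((avs Q Om (∏ q ∈ Q, q)).card : ℝ) = ((∏ q ∈ Q, q : ℕ) : ℝ) * PP Q Om := by
  classical
  induction Q using Finset.induction_on with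
  | empty => intro Om _ _; simp [avs, PP]
  | insert q Q hq ih =>
    intro Om hQ hOm
    have hQ' : ∀ p ∈ Q, p.Prime := fun p hp => hQ p (mem_insert_of_mem hp)
    have hOm' : ∀ p ∈ Q, Om p ⊆ range p := fun p hp => hOm p (mem_insert_of_mem hp)
    have hqp := hQ q (mem_insert_self _ _)
    set M := ∏ p ∈ Q, p with hM
    rw [prod_insert hq, ← hM]
    have h1 : avs (insert q Q) Om (q * M) = (range q \ Om q).biUnion
        (fun c => (avs Q Om (q * M)).filter (fun s => s % q = c)) := by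
      ext s
      simp only [avs, mem_filter, mem_range, mem_insert, forall_eq_or_imp, mem_biUnion, mem_sdiff]
      constructor
      · rintro ⟨h1, h2, h3⟩
        exact ⟨s % q, ⟨Nat.mod_lt _ hqp.pos, h2⟩, ⟨h1, h3⟩, rfl⟩
      · rintro ⟨c, ⟨h1, h2⟩, ⟨h3, h4⟩, rfl⟩
        exact ⟨h3, h2, h4⟩
    have h2 : (avs (insert q Q) Om (q * M)).card = ∑ c ∈ range q \ Om q,
        ((avs Q Om (q * M)).filter (fun s => s % q = c)).card := by
      rw [h1, card_biUnion]
      intro c _ c' _ hne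
      rw [Function.onFun, Finset.disjoint_left]
      intro s hs hs'
      exact hne ((mem_filter.1 hs).2.symm.trans (mem_filter.1 hs').2)
    have h3 : ∀ c ∈ range q \ Om q, (((avs Q Om (q * M)).filter (fun s => s % q = c)).card : ℝ) =
        M * PP Q Om := by
      intro c hc
      have hcq := mem_range.1 (mem_sdiff.1 hc).1
      rw [avs_class Q Om (q * M) c q hcq fun p hp => (hQ' p hp).pos]
      have h4 : nt (q * M) c q = M := by
        refine le_antisymm ?_ ?_
        · by_contra hcon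
          push Not at hcon
          have h5 := (nt_iff hcq).1 hcon
          omega
        · by_contra hcon
          push Not at hcon
          have h5 : ¬ (nt (q * M) c q < nt (q * M) c q) := lt_irrefl _
          rw [nt_iff hcq] at h5
          have h6 : q * (nt (q * M) c q + 1) ≤ q * M := Nat.mul_le_mul_left q hcon
          rw [mul_add, mul_one] at h6
          omega
      rw [h4, ih (tw Om c q) hQ' fun p _ => tw_subset _ _ _ _]
      congr 1
      refine prod_congr rfl fun p hp => ?_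
      rw [card_tw Om c q p (hQ' p hp).pos ((Nat.coprime_primes hqp (hQ' p hp)).2
        fun h' => hq (h' ▸ hp)) (hOm' p hp)]
    have h5 : ((range q \ Om q).card : ℝ) = q - (Om q).card := by
      rw [card_sdiff_of_subset (hOm q (mem_insert_self _ _)), card_range, Nat.cast_sub]
      have := card_le_card (hOm q (mem_insert_self _ _))
      rwa [card_range] at this
    rw [h2]
    push_cast
    rw [sum_congr rfl h3, sum_const, nsmul_eq_mul, h5]
    unfold PP
    rw [prod_insert hq]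
    have hq0 : (q : ℝ) ≠ 0 := by exact_mod_cast hqp.ne_zero
    push_cast
    field_simp

/-- two ranges of primes: exact for the small ones, combinatorial sieve for the other ones -/
theorem two_ranges (Q1 Q2 : Finset ℕ) (h1 : ∀ q ∈ Q1, q.Prime) (h2 : ∀ q ∈ Q2, q.Prime)
    (hd : Disjoint Q1 Q2) (Om : ℕ → Finset ℕ) (hOm : ∀ q ∈ Q1 ∪ Q2, Om q ⊆ range q) (r S : ℕ) :
    |((avs (Q1 ∪ Q2) Om S).card : ℝ) - S * (PP Q1 Om * PP Q2 Om)| ≤
      PP Q1 Om * (((∏ q ∈ Q1, q : ℕ) : ℝ) + (S + ((∏ q ∈ Q1, q : ℕ) : ℝ)) *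
        (GG Q2 Om ^ r / r.factorial) + ((∏ q ∈ Q1, q : ℕ) : ℝ) *
        ((1 + 3 * (HH Q2 Om : ℝ)) ^ r - 1)) := by
  classical
  set M := ∏ q ∈ Q1, q with hM
  have hM0 : 0 < M := prod_pos fun q hq => (h1 q hq).pos
  have hM0' : (0 : ℝ) < M := by exact_mod_cast hM0
  have hOm1 : ∀ q ∈ Q1, Om q ⊆ range q := fun q hq => hOm q (mem_union_left _ hq)
  have hOm2 : ∀ q ∈ Q2, Om q ⊆ range q := fun q hq => hOm q (mem_union_right _ hq)
  have hdvd : ∀ q ∈ Q1, q ∣ M := fun q hq => dvd_prod_of_mem _ hq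
  have e1 : avs (Q1 ∪ Q2) Om S = (avs Q1 Om M).biUnion
      (fun c => (avs Q2 Om S).filter (fun s => s % M = c)) := by
    ext s
    simp only [avs, mem_filter, mem_range, mem_union, mem_biUnion]
    constructor
    · rintro ⟨h3, h4⟩
      refine ⟨s % M, ⟨Nat.mod_lt _ hM0, fun q hq => ?_⟩, ⟨h3, fun q hq => h4 q (Or.inr hq)⟩, rfl⟩
      rw [Nat.mod_mod_of_dvd _ (hdvd q hq)]
      exact h4 q (Or.inl hq)
    · rintro ⟨c, ⟨_, h4⟩, ⟨h5, h6⟩, rfl⟩
      refine ⟨h5, fun q hq => ?_⟩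
      rcases hq with hq | hq
      · have := h4 q hq
        rwa [Nat.mod_mod_of_dvd _ (hdvd q hq)] at this
      · exact h6 q hq
  have e2 : (avs (Q1 ∪ Q2) Om S).card = ∑ c ∈ avs Q1 Om M,
      ((avs Q2 Om S).filter (fun s => s % M = c)).card := by
    rw [e1, card_biUnion]
    intro c _ c' _ hne
    rw [Function.onFun, Finset.disjoint_left]
    intro s hs hs'
    exact hne ((mem_filter.1 hs).2.symm.trans (mem_filter.1 hs').2)
  have hPP2 := PP_mem Q2 Om h2 hOm2
  set E : ℝ := GG Q2 Om ^ r / r.factorial with hE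
  set R : ℝ := (1 + 3 * (HH Q2 Om : ℝ)) ^ r - 1 with hR
  have hE0 : 0 ≤ E := by
    have : 0 ≤ GG Q2 Om := sum_nonneg fun q _ => by positivity
    rw [hE]; positivity
  have hcop : ∀ p ∈ Q2, Nat.Coprime M p := by
    intro p hp
    refine Nat.Coprime.prod_left fun q hq => ?_
    refine (Nat.coprime_primes (h1 q hq) (h2 p hp)).2 fun h' => ?_
    rw [h'] at hq
    exact Finset.disjoint_left.1 hd hq hp
  have h3 : ∀ c ∈ avs Q1 Om M, |(((avs Q2 Om S).filter (fun s => s % M = c)).card : ℝ) -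
      S / M * PP Q2 Om| ≤ 1 + (S / M + 1) * E + R := by
    intro c hc
    have hcM : c < M := mem_range.1 (mem_filter.1 hc).1
    rw [avs_class Q2 Om S c M hcM fun p hp => (h2 p hp).pos]
    have hcard : ∀ p ∈ Q2, (tw Om c M p).card = (Om p).card := fun p hp =>
      card_tw Om c M p (h2 p hp).pos (hcop p hp) (hOm2 p hp)
    have h4 := bonf Q2 h2 r (nt S c M) (tw Om c M) fun p _ => tw_subset _ _ _ _
    have a1 : PP Q2 (tw Om c M) = PP Q2 Om := prod_congr rfl fun p hp => by rw [hcard p hp]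
    have a2 : GG Q2 (tw Om c M) = GG Q2 Om := sum_congr rfl fun p hp => by rw [hcard p hp]
    have a3 : HH Q2 (tw Om c M) = HH Q2 Om := sum_congr rfl fun p hp => by rw [hcard p hp]
    rw [a1, a2, a3, ← hE, ← hR] at h4
    have h5 := nt_le S c M hcM
    have h6 := le_nt S c M hcM
    have h7 : |(nt S c M : ℝ) * PP Q2 Om - S / M * PP Q2 Om| ≤ 1 := by
      rw [← sub_mul, abs_mul, abs_of_nonneg hPP2.1]
      have h8 : |(nt S c M : ℝ) - S / M| ≤ 1 := by rw [abs_le]; constructor <;> linarith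
      calc |(nt S c M : ℝ) - S / M| * PP Q2 Om ≤ 1 * 1 := by
            gcongr
            · exact hPP2.1
            · exact hPP2.2
        _ = 1 := one_mul 1
    calc |((avs Q2 (tw Om c M) (nt S c M)).card : ℝ) - S / M * PP Q2 Om| ≤
        |((avs Q2 (tw Om c M) (nt S c M)).card : ℝ) - nt S c M * PP Q2 Om| +
          |(nt S c M : ℝ) * PP Q2 Om - S / M * PP Q2 Om| := abs_sub_le _ _ _
      _ ≤ (nt S c M * E + R) + 1 := add_le_add h4 h7
      _ ≤ ((S / M + 1) * E + R) + 1 := by gcongr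
      _ = _ := by ring
  have hcardM : ((avs Q1 Om M).card : ℝ) = M * PP Q1 Om := avs_period Q1 Om h1 hOm1
  have hPP1 := PP_mem Q1 Om h1 hOm1
  have e3 : ((avs (Q1 ∪ Q2) Om S).card : ℝ) - S * (PP Q1 Om * PP Q2 Om) =
      ∑ c ∈ avs Q1 Om M, ((((avs Q2 Om S).filter (fun s => s % M = c)).card : ℝ) -
        S / M * PP Q2 Om) := by
    rw [sum_sub_distrib, sum_const, nsmul_eq_mul, hcardM, e2]
    push_cast
    field_simp
  rw [e3]
  calc |∑ c ∈ avs Q1 Om M, ((((avs Q2 Om S).filter (fun s => s % M = c)).card : ℝ) -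
        S / M * PP Q2 Om)| ≤ ∑ c ∈ avs Q1 Om M, (1 + (S / M + 1) * E + R) :=
        (abs_sum_le_sum_abs _ _).trans (sum_le_sum h3)
    _ = PP Q1 Om * (M + (S + M) * E + M * R) := by
        rw [sum_const, nsmul_eq_mul, hcardM]
        field_simp
    _ = _ := by rw [hE, hR]

end Pool.Agent.H532.UT
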