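import Mathlib
import Pool.Agent.H532.UT.Det
import Pool.Agent.H532.RM.Star

/-!
Patterns in intervals, sieved by the primes up to `W`.
-/

namespace Pool.Agent.H532.UT

open Finset Pool.Agent.H532.RM Pool.Agent.H532.UN

/-- the classes for `s`, `n = m + 1 + s` -/
def Om0 (H : Finset ℕ) (a : ℕ → ℕ) (m : ℕ) : ℕ → Finset ℕ := tw (NgH H a) (m + 1) 1

lemma mem_Om0' (H : Finset ℕ) (a : ℕ → ℕ) (m s : ℕ) {p : ℕ} (hp : 0 < p) :
    s % p ∈ Om0 H a m p ↔ ∃ i ∈ H, (m + 1 + s + i) % p = a p % p := by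
  unfold Om0
  rw [mem_tw_mod _ _ _ _ _ hp, mem_NgH H a hp]
  simp only [one_mul]

lemma card_Om0 (H : Finset ℕ) (a : ℕ → ℕ) (m : ℕ) {p : ℕ} (hp : 0 < p) :
    (Om0 H a m p).card = nu H p := by
  unfold Om0
  rw [card_tw _ _ _ _ hp (Nat.coprime_one_left p) (NgH_subset H a hp), card_NgH H a hp]

lemma Om0_subset (H : Finset ℕ) (a : ℕ → ℕ) (m p : ℕ) : Om0 H a m p ⊆ range p := tw_subset _ _ _ _

lemma mem_TT {H : Finset ℕ} {a : ℕ → ℕ} {Q : Finset ℕ} {m U n : ℕ} : n ∈ TT H a Q m U ↔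
    (m < n ∧ n ≤ m + U) ∧ ∀ i ∈ H, ∀ p ∈ Q, (n + i) % p ≠ a p % p := by
  unfold TT
  rw [mem_filter, mem_Ioc]

lemma TT_card (H : Finset ℕ) (a : ℕ → ℕ) (Q : Finset ℕ) (hQ : ∀ q ∈ Q, 0 < q) (m U : ℕ) :
    (TT H a Q m U).card = (avs Q (Om0 H a m) U).card := by
  symm
  refine card_bij (fun s _ => m + 1 + s) ?_ ?_ ?_
  · intro s hs
    obtain ⟨h1, h2⟩ := mem_filter.1 hs
    have := mem_range.1 h1
    refine mem_TT.2 ⟨⟨by omega, by omega⟩, fun i hi p hp h3 => ?_⟩
    exact h2 p hp ((mem_Om0' H a m s (hQ p hp)).2 ⟨i, hi, h3⟩)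
  · intro s _ s' _ h; omega
  · intro n hn
    obtain ⟨⟨h1, h2⟩, h3⟩ := mem_TT.1 hn
    refine ⟨n - (m + 1), mem_filter.2 ⟨mem_range.2 (by omega), fun p hp h4 => ?_⟩, by omega⟩
    obtain ⟨i, hi, h5⟩ := (mem_Om0' H a m _ (hQ p hp)).1 h4
    have e : m + 1 + (n - (m + 1)) + i = n + i := by omega
    rw [e] at h5
    exact h3 i hi p hp h5

lemma TT_class (H : Finset ℕ) (a : ℕ → ℕ) (Q : Finset ℕ) (hQ : ∀ q ∈ Q, 0 < q) (m U p r0 : ℕ)
    (hp : 0 < p) : ((TT H a Q m U).filter (fun n => n % p = r0)).card = 0 ∨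
    ∃ c < p, ((TT H a Q m U).filter (fun n => n % p = r0)).card ≤
      (avs Q (tw (Om0 H a m) c p) (nt U c p)).card := by
  rcases ((TT H a Q m U).filter (fun n => n % p = r0)).eq_empty_or_nonempty with he | ⟨n0, hn0⟩
  · left; rw [he]; rfl
  right
  obtain ⟨h1, h2⟩ := mem_filter.1 hn0
  obtain ⟨⟨h3, h4⟩, _⟩ := mem_TT.1 h1
  refine ⟨(n0 - (m + 1)) % p, Nat.mod_lt _ hp, ?_⟩
  rw [← avs_class Q (Om0 H a m) U _ p (Nat.mod_lt _ hp) hQ]
  refine card_le_card_of_injOn (fun n => n - (m + 1)) ?_ ?_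
  · intro n hn
    obtain ⟨h5, h6⟩ := mem_filter.1 (mem_coe.1 hn)
    obtain ⟨⟨h7, h8⟩, h9⟩ := mem_TT.1 h5
    show n - (m + 1) ∈ (((avs Q (Om0 H a m) U).filter
      (fun s => s % p = (n0 - (m + 1)) % p) : Finset ℕ) : Set ℕ)
    refine mem_coe.2 (mem_filter.2 ⟨mem_filter.2 ⟨mem_range.2 (by omega), fun q hq h10 => ?_⟩, ?_⟩)
    · obtain ⟨i, hi, h11⟩ := (mem_Om0' H a m _ (hQ q hq)).1 h10
      have e : m + 1 + (n - (m + 1)) + i = n + i := by omega
      rw [e] at h11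
      exact h9 i hi q hq h11
    · have e1 : n = n - (m + 1) + (m + 1) := by omega
      have e2 : n0 = n0 - (m + 1) + (m + 1) := by omega
      have h12 : n - (m + 1) + (m + 1) ≡ n0 - (m + 1) + (m + 1) [MOD p] := by
        rw [← e1, ← e2]; exact h6.trans h2.symm
      exact Nat.ModEq.add_right_cancel' _ h12
  · intro n hn n' hn' h
    have h5 := (mem_TT.1 (mem_filter.1 (mem_coe.1 hn)).1).1
    have h6 := (mem_TT.1 (mem_filter.1 (mem_coe.1 hn')).1).1
    have h' : n - (m + 1) = n' - (m + 1) := h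
    omega

lemma disj_bigP (y W : ℕ) : Disjoint (primesLe y) (bigP y W) := by
  rw [Finset.disjoint_left]
  intro p hp hp'
  have := (mem_primesLe.1 hp).1
  have := (mem_bigP.1 hp').2
  omega

/-- the error terms of the sieve -/
noncomputable def EE (h : ℕ) (Q2 : Finset ℕ) (r : ℕ) : ℝ := (h * ss Q2) ^ r / r.factorial

noncomputable def RR (h : ℕ) (Q2 : Finset ℕ) (r : ℕ) : ℝ := (1 + 3 * (h * Q2.card : ℝ)) ^ r - 1

lemma EE_nonneg (h : ℕ) (Q2 : Finset ℕ) (r : ℕ) : 0 ≤ EE h Q2 r := by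
  have := ss_nonneg Q2
  unfold EE; positivity

lemma RR_nonneg (h : ℕ) (Q2 : Finset ℕ) (r : ℕ) : 0 ≤ RR h Q2 r := by
  unfold RR
  have : (1 : ℝ) ≤ (1 + 3 * (h * Q2.card : ℝ)) ^ r := one_le_pow₀ (by
    have : (0 : ℝ) ≤ 3 * (h * Q2.card : ℝ) := by positivity
    linarith)
  linarith

lemma det_avs {y W h r : ℕ} (hyW : y ≤ W) {H : Finset ℕ} (hH : H.card ≤ h) (Om : ℕ → Finset ℕ)
    (hOm : ∀ q ∈ primesLe W, Om q ⊆ range q ∧ (Om q).card = nu H q) (S : ℕ) :
    |((avs (primesLe W) Om S).card : ℝ) - S * pr H (primesLe W)| ≤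
      pr H (primesLe y) * (primorial y + (S + primorial y) * EE h (bigP y W) r +
        primorial y * RR h (bigP y W) r) := by
  have hun := primesLe_union_bigP hyW
  have h0 := two_ranges (primesLe y) (bigP y W) (fun q hq => (mem_primesLe.1 hq).2)
    (fun q hq => (mem_bigP.1 hq).1.2) (disj_bigP y W) Om (by
      rw [hun]; exact fun q hq => (hOm q hq).1) r S
  rw [hun] at h0
  have hm1 : ∀ q ∈ primesLe y, q ∈ primesLe W := fun q hq => hun ▸ mem_union_left _ hq
  have hm2 : ∀ q ∈ bigP y W, q ∈ primesLe W := fun q hq => hun ▸ mem_union_right _ hq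
  have e1 : PP (primesLe y) Om = pr H (primesLe y) :=
    prod_congr rfl fun q hq => by rw [(hOm q (hm1 q hq)).2]
  have e2 : PP (bigP y W) Om = pr H (bigP y W) :=
    prod_congr rfl fun q hq => by rw [(hOm q (hm2 q hq)).2]
  have e3 : pr H (primesLe W) = pr H (primesLe y) * pr H (bigP y W) := by
    rw [← hun, pr_union (disj_bigP y W)]
  have e4 : ∏ q ∈ primesLe y, q = primorial y := rfl
  rw [e1, e2, ← e3, e4] at h0
  refine h0.trans ?_
  have hp0 := (pr_mem H (primesLe y) fun q hq => (mem_primesLe.1 hq).2.pos).1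
  have hG : GG (bigP y W) Om ≤ h * ss (bigP y W) := by
    rw [← sum_div_eq]
    refine sum_le_sum fun q hq => ?_
    rw [(hOm q (hm2 q hq)).2]
    have : (nu H q : ℝ) ≤ h := by exact_mod_cast (nu_le H q).trans hH
    gcongr
  have hG0 : 0 ≤ GG (bigP y W) Om := sum_nonneg fun q _ => by positivity
  have hHH : (HH (bigP y W) Om : ℝ) ≤ h * (bigP y W).card := by
    have h1 : HH (bigP y W) Om ≤ h * (bigP y W).card := by
      unfold HH
      calc ∑ q ∈ bigP y W, (Om q).card ≤ ∑ q ∈ bigP y W, h := sum_le_sum fun q hq => by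
            rw [(hOm q (hm2 q hq)).2]; exact (nu_le H q).trans hH
        _ = h * (bigP y W).card := by rw [sum_const, smul_eq_mul, mul_comm]
    exact_mod_cast h1
  unfold EE RR
  gcongr

theorem det_count {y W h r : ℕ} (hyW : y ≤ W) {H : Finset ℕ} (hH : H.card ≤ h) (a : ℕ → ℕ)
    (m U : ℕ) : |((TT H a (primesLe W) m U).card : ℝ) - U * pr H (primesLe W)| ≤
      pr H (primesLe y) * (primorial y + (U + primorial y) * EE h (bigP y W) r +
        primorial y * RR h (bigP y W) r) := by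
  rw [TT_card H a (primesLe W) (fun q hq => (mem_primesLe.1 hq).2.pos) m U]
  exact det_avs hyW hH _ (fun q hq => ⟨Om0_subset _ _ _ _, card_Om0 H a m (mem_primesLe.1 hq).2.pos⟩) U

theorem det_class {y W h r : ℕ} (hyW : y ≤ W) {H : Finset ℕ} (hH : H.card ≤ h) (a : ℕ → ℕ)
    (m U p r0 : ℕ) (hp : p.Prime) (hWp : W < p) :
    (((TT H a (primesLe W) m U).filter (fun n => n % p = r0)).card : ℝ) ≤
      (U / p + 1) * pr H (primesLe W) +
      pr H (primesLe y) * (primorial y + ((U / p + 1) + primorial y) * EE h (bigP y W) r +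
        primorial y * RR h (bigP y W) r) := by
  have hp0 := pr_mem H (primesLe y) fun q hq => (mem_primesLe.1 hq).2.pos
  have hp1 := pr_mem H (primesLe W) fun q hq => (mem_primesLe.1 hq).2.pos
  have hE := EE_nonneg h (bigP y W) r
  have hR := RR_nonneg h (bigP y W) r
  have hpr : 0 ≤ pr H (primesLe y) := hp0.1
  have hprW : 0 ≤ pr H (primesLe W) := hp1.1
  rcases TT_class H a (primesLe W) (fun q hq => (mem_primesLe.1 hq).2.pos) m U p r0 hp.pos with
    h1 | ⟨c, hc, h1⟩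
  · rw [h1]
    push_cast
    positivity
  · have h2 := det_avs (r := r) hyW hH (tw (Om0 H a m) c p) (fun q hq => ⟨tw_subset _ _ _ _, by
      have hqp := (mem_primesLe.1 hq).2
      rw [card_tw _ _ _ _ hqp.pos ((Nat.coprime_primes hp hqp).2 fun h' => by
        have := (mem_primesLe.1 hq).1
        omega) (Om0_subset _ _ _ _), card_Om0 H a m hqp.pos]⟩) (nt U c p)
    have h3 := (abs_le.1 h2).2
    have h4 := nt_le U c p hc
    have h5 : (((TT H a (primesLe W) m U).filter (fun n => n % p = r0)).card : ℝ) ≤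
        (avs (primesLe W) (tw (Om0 H a m) c p) (nt U c p)).card := by exact_mod_cast h1
    calc (((TT H a (primesLe W) m U).filter (fun n => n % p = r0)).card : ℝ) ≤
        nt U c p * pr H (primesLe W) + pr H (primesLe y) * (primorial y +
          (nt U c p + primorial y) * EE h (bigP y W) r +
          primorial y * RR h (bigP y W) r) := by linarith
      _ ≤ _ := by gcongr

end Pool.Agent.H532.UT
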