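import Mathlib
import Pool.Agent.H532.UN.Mart

/-!
The number of survivors as a martingale: both tails under bounds for the random residue classes,
variable numbers of classes.
-/

namespace Pool.Agent.H532.UT

open Finset MeasureTheory Function Pool.Agent.H532.RM
open scoped ENNReal
open Pool.Agent.H532.UN (sb Kp surv_congr sb_insert sb_top)

variable {ι : Type}

/-- `∏ (1 - κ q / q)` -/
noncomputable def rf (κ : ℕ → ℕ) (P : Finset ℕ) : ℝ := ∏ q ∈ P, (1 - (κ q : ℝ) / q)

/-- `∏ (1 - κ q / q)` over `q ≤ p` -/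
noncomputable def rpf (κ : ℕ → ℕ) (P : Finset ℕ) (p : ℕ) : ℝ := rf κ (P.filter (· ≤ p))

lemma rf_pos (κ : ℕ → ℕ) (P : Finset ℕ) (h : ∀ p ∈ P, 0 < p ∧ 4 * κ p ≤ p) : 0 < rf κ P := by
  refine prod_pos fun q hq => ?_
  obtain ⟨h1, h2⟩ := h q hq
  have hq0 : (0 : ℝ) < q := by exact_mod_cast h1
  rw [sub_pos, div_lt_one hq0]
  have h3 : (4 * κ q : ℝ) ≤ q := by exact_mod_cast h2
  have h4 : (0 : ℝ) ≤ κ q := Nat.cast_nonneg _
  rcases h4.eq_or_lt with h0 | h0
  · rw [← h0]; exact hq0
  · linarith

lemma rf_insert (κ : ℕ → ℕ) {P : Finset ℕ} {p : ℕ} (h : p ∉ P) :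
    rf κ (insert p P) = (1 - (κ p : ℝ) / p) * rf κ P := prod_insert h

/-- the increment -/
noncomputable def Dq (Om : ι → ℕ → Finset ℕ) (κ : ℕ → ℕ) (P : Finset ℕ) (a : ℕ → ℕ) (S : Finset ι)
    (p r : ℕ) : ℝ := (κ p / p * ((sb Om P a S p).card : ℝ) - Kp Om P a S p r) / rpf κ P p

/-- the classes modulo `p` and the set itself are not too large -/
def Gq (Om : ι → ℕ → Finset ℕ) (κ : ℕ → ℕ) (P : Finset ℕ) (c : ℕ → ℝ) (B : ℝ) (a : ℕ → ℕ)
    (S : Finset ι) (p : ℕ) : Prop := (∀ r ∈ range p, Kp Om P a S p r ≤ c p * rpf κ P p) ∧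
      ((sb Om P a S p).card : ℝ) ≤ B * rpf κ P p

open Classical in
/-- the truncated martingale -/
noncomputable def Fq (Om : ι → ℕ → Finset ℕ) (κ : ℕ → ℕ) (P : Finset ℕ) (c : ℕ → ℝ) (B : ℝ)
    (a : ℕ → ℕ) (S : Finset ι) : ℝ :=
  ∑ p ∈ P, if Gq Om κ P c B a S p then Dq Om κ P a S p (a p) else 0

lemma rpf_insert_lt (κ : ℕ → ℕ) (P : Finset ℕ) (p q : ℕ) (hq : q < p) :
    rpf κ (insert p P) q = rpf κ P q := by
  unfold rpf
  congr 1
  ext x
  simp only [mem_filter, mem_insert]
  constructor
  · rintro ⟨rfl | h, h2⟩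
    · omega
    · exact ⟨h, h2⟩
  · rintro ⟨h, h2⟩; exact ⟨Or.inr h, h2⟩

lemma rpf_top (κ : ℕ → ℕ) (P : Finset ℕ) (p : ℕ) (hp : ∀ x ∈ P, x < p) :
    rpf κ (insert p P) p = (1 - (κ p : ℝ) / p) * rf κ P := by
  unfold rpf
  have hpn : p ∉ P := fun h => lt_irrefl _ (hp p h)
  rw [← rf_insert κ hpn]
  congr 1
  refine filter_true_of_mem fun x hx => ?_
  rcases mem_insert.1 hx with rfl | h
  · exact le_rfl
  · exact (hp x h).le

/-- telescoping -/
lemma telescope (Om : ι → ℕ → Finset ℕ) (κ : ℕ → ℕ) (P : Finset ℕ) (a : ℕ → ℕ) (S : Finset ι) :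
    (∀ p ∈ P, 0 < p ∧ 4 * κ p ≤ p) →
    ((surv Om P a S).card : ℝ) / rf κ P = S.card + ∑ p ∈ P, Dq Om κ P a S p (a p) := by
  induction P using Finset.induction_on_max with
  | empty => intro _; simp [surv, rf]
  | insert p P hp ih =>
    intro hbig
    have hpn : p ∉ P := fun h => lt_irrefl _ (hp p h)
    have hb' : ∀ q ∈ P, 0 < q ∧ 4 * κ q ≤ q := fun q hq => hbig q (mem_insert_of_mem hq)
    have hbp := hbig p (mem_insert_self _ _)
    have h1 : ∑ q ∈ insert p P, Dq Om κ (insert p P) a S q (a q) =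
        Dq Om κ (insert p P) a S p (a p) + ∑ q ∈ P, Dq Om κ P a S q (a q) := by
      rw [sum_insert hpn]
      congr 1
      refine sum_congr rfl fun q hq => ?_
      unfold Dq Kp
      rw [sb_insert Om P a S p q hp (hp q hq).le, rpf_insert_lt κ P p q (hp q hq)]
    have h2 : ((surv Om (insert p P) a S).card : ℝ) =
        (surv Om P a S).card - Kp Om (insert p P) a S p (a p) := by
      unfold Kp
      rw [sb_insert Om P a S p p hp le_rfl, sb_top Om P a S p hp, ← card_split Om p (a p)]
      congr 2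
      unfold surv
      ext n
      simp only [mem_filter, mem_insert, forall_eq_or_imp]
      tauto
    rw [h1, h2, ← add_assoc, add_comm (S.card : ℝ), add_assoc, ← ih hb', rf_insert κ hpn]
    unfold Dq
    rw [rpf_top κ P p hp, sb_insert Om P a S p p hp le_rfl, sb_top Om P a S p hp]
    have hρ := rf_pos κ P hb'
    have hp0 : (0 : ℝ) < p := by exact_mod_cast hbp.1
    have hk : 0 < 1 - (κ p : ℝ) / p := by
      rw [sub_pos, div_lt_one hp0]
      have h3 : (4 * κ p : ℝ) ≤ p := by exact_mod_cast hbp.2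
      have h4 : (0 : ℝ) ≤ κ p := Nat.cast_nonneg _
      rcases h4.eq_or_lt with h0 | h0
      · rw [← h0]; exact hp0
      · linarith
    generalize (κ p : ℝ) / p = t at hk ⊢
    generalize rf κ P = u at hρ ⊢
    field_simp
    ring

/-- one step -/
lemma mart_step (p : ℕ) (hp : 0 < p) (A c θ A1 : ℝ) (hθc : |θ| * c ≤ 1)
    (X : ℕ → ℝ) (h0 : ∀ r ∈ range p, 0 ≤ X r) (h1 : ∀ r ∈ range p, X r ≤ c)
    (hs : ∑ r ∈ range p, X r = p * A) (hA1 : A ≤ A1) :
    ∑ r ∈ range p, Real.exp (θ * (A - X r)) ≤ p * Real.exp (θ ^ 2 * (c * A1)) := by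
  have hp' : (0 : ℝ) < p := by exact_mod_cast hp
  have hA0 : 0 ≤ A := by
    have : 0 ≤ (p : ℝ) * A := by rw [← hs]; exact sum_nonneg h0
    exact nonneg_of_mul_nonneg_right this hp'
  have hAc : A ≤ c := by
    have : (p : ℝ) * A ≤ p * c := by
      rw [← hs]
      refine (sum_le_sum h1).trans ?_
      rw [sum_const, card_range, nsmul_eq_mul]
    exact le_of_mul_le_mul_left this hp'
  have hc0 : 0 ≤ c := hA0.trans hAc
  have hterm : ∀ r ∈ range p, Real.exp (θ * (A - X r)) ≤
      1 + θ * (A - X r) + θ ^ 2 * (A - X r) ^ 2 := by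
    intro r hr
    have h2 : |A - X r| ≤ c := by
      rw [abs_le]; constructor
      · have := h1 r hr; linarith
      · have := h0 r hr; linarith
    have h3 : |θ * (A - X r)| ≤ 1 := by
      rw [abs_mul]
      exact (mul_le_mul_of_nonneg_left h2 (abs_nonneg θ)).trans hθc
    have h4 := Real.abs_exp_sub_one_sub_id_le h3
    have h5 := (abs_le.1 h4).2
    have h6 : (θ * (A - X r)) ^ 2 = θ ^ 2 * (A - X r) ^ 2 := by ring
    linarith
  have hsq : ∑ r ∈ range p, (A - X r) ^ 2 ≤ p * (c * A1) := by
    have h2 : ∀ r ∈ range p, (A - X r) ^ 2 ≤ A ^ 2 - 2 * A * X r + c * X r := by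
      intro r hr
      have := h0 r hr
      have := h1 r hr
      nlinarith
    refine (sum_le_sum h2).trans ?_
    rw [sum_add_distrib, sum_sub_distrib, ← mul_sum, ← mul_sum, hs]
    simp only [sum_const, card_range, nsmul_eq_mul]
    have h3 : (p : ℝ) * A ^ 2 - 2 * A * (p * A) + c * (p * A) = p * (c * A) - p * A ^ 2 := by ring
    rw [h3]
    have h4 : (p : ℝ) * (c * A) ≤ p * (c * A1) := by gcongr
    have h5 : 0 ≤ (p : ℝ) * A ^ 2 := by positivity
    linarith
  refine (sum_le_sum hterm).trans ?_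
  have h5 : ∑ r ∈ range p, (1 + θ * (A - X r) + θ ^ 2 * (A - X r) ^ 2) =
      p + θ ^ 2 * ∑ r ∈ range p, (A - X r) ^ 2 := by
    rw [sum_add_distrib, sum_add_distrib, ← mul_sum, ← mul_sum, sum_sub_distrib, hs]
    simp only [sum_const, card_range, nsmul_eq_mul, mul_one, sub_self, mul_zero, add_zero]
  rw [h5]
  have h7 := Real.add_one_le_exp (θ ^ 2 * (c * A1))
  calc (p : ℝ) + θ ^ 2 * ∑ r ∈ range p, (A - X r) ^ 2 ≤ p + θ ^ 2 * (p * (c * A1)) := by gcongr
    _ = p * (θ ^ 2 * (c * A1) + 1) := by ring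
    _ ≤ _ := by gcongr

lemma dep_Fq (Om : ι → ℕ → Finset ℕ) (κ : ℕ → ℕ) (P : Finset ℕ) (c : ℕ → ℝ) (B : ℝ)
    (S : Finset ι) : DepOn P (fun a => Fq Om κ P c B a S) := by
  intro a b hab
  unfold Fq
  refine sum_congr rfl fun p hp => ?_
  have h1 : sb Om P a S p = sb Om P b S p :=
    surv_congr Om _ a b S fun q hq => hab q (mem_filter.1 hq).1
  unfold Gq Dq Kp
  rw [h1, hab p hp]

/-- The exponential moment of the truncated martingale. -/
theorem mart_mgf (ν : ℕ → Measure ℕ) [∀ p, IsProbabilityMeasure (ν p)]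
    (Om : ι → ℕ → Finset ℕ) (κ : ℕ → ℕ) (c : ℕ → ℝ) (B θ : ℝ) (hB : 0 ≤ B) (S : Finset ι)
    (P : Finset ℕ) :
    (∀ p ∈ P, UnifOn (ν p) p) → (∀ p ∈ P, 0 < p ∧ 4 * κ p ≤ p) →
    (∀ p ∈ P, 0 ≤ c p ∧ |θ| * c p ≤ 1) →
    (∀ n ∈ S, ∀ p ∈ P, Om n p ⊆ range p ∧ (Om n p).card = κ p) → ∀ x : ℕ → ℕ,
    lmarginal ν P (fun a => ENNReal.ofReal (Real.exp (θ * Fq Om κ P c B a S))) x ≤
      ENNReal.ofReal (Real.exp (θ ^ 2 * ∑ p ∈ P, c p * (κ p * B / p))) := by
  classical
  induction P using Finset.induction_on_max with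
  | empty => intro _ _ _ _ x; simp [Fq]
  | insert p P hp ih =>
    intro hν hbig hc hOm x
    have hpn : p ∉ P := fun h => lt_irrefl _ (hp p h)
    have hbp := hbig p (mem_insert_self _ _)
    have hp0 : (0 : ℝ) < p := by exact_mod_cast hbp.1
    have hcp := (hc p (mem_insert_self _ _)).1
    set v : ℝ := c p * (κ p * B / p) with hv
    have hv0 : 0 ≤ v := by positivity
    have ih' := ih (fun q hq => hν q (mem_insert_of_mem hq))
      (fun q hq => hbig q (mem_insert_of_mem hq)) (fun q hq => hc q (mem_insert_of_mem hq))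
      (fun n hn q hq => hOm n hn q (mem_insert_of_mem hq))
    have hm : Measurable (fun a : ℕ → ℕ =>
        ENNReal.ofReal (Real.exp (θ * Fq Om κ (insert p P) c B a S))) := by
      have hd : DepOn (insert p P) (fun a : ℕ → ℕ =>
        ENNReal.ofReal (Real.exp (θ * Fq Om κ (insert p P) c B a S))) := by
        intro a b hab
        have := dep_Fq Om κ (insert p P) c B S a b hab
        simp only at this ⊢
        rw [this]
      exact hd.measurable
    rw [lmarginal_insert' _ hm hpn]
    have hinner : ∀ a : ℕ → ℕ, ∫⁻ r, ENNReal.ofReal (Real.exp (θ *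
        Fq Om κ (insert p P) c B (update a p r) S)) ∂(ν p) ≤
        ENNReal.ofReal (Real.exp (θ ^ 2 * v)) *
          ENNReal.ofReal (Real.exp (θ * Fq Om κ P c B a S)) := by
      intro a
      rw [hν p (mem_insert_self _ _)]
      have hsame : ∀ r q, q ≤ p → sb Om (insert p P) (update a p r) S q = sb Om P a S q := by
        intro r q hq
        rw [sb_insert Om P _ S p q hp hq]
        refine surv_congr Om _ _ _ S fun y hy => ?_
        have : y ≠ p := fun h => hpn (h ▸ (mem_filter.1 hy).1)
        rw [update_of_ne this]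
      have hF : ∀ r, Fq Om κ (insert p P) c B (update a p r) S = Fq Om κ P c B a S +
          (if Gq Om κ (insert p P) c B a S p then Dq Om κ (insert p P) a S p r else 0) := by
        intro r
        unfold Fq
        rw [sum_insert hpn, add_comm]
        congr 1
        · refine sum_congr rfl fun q hq => ?_
          have hqp := hp q hq
          have hne : q ≠ p := hqp.ne
          have e1 : Gq Om κ (insert p P) c B (update a p r) S q ↔ Gq Om κ P c B a S q := by
            unfold Gq Kp
            rw [hsame r q hqp.le, rpf_insert_lt κ P p q hqp]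
          have e2 : Dq Om κ (insert p P) (update a p r) S q (update a p r q) =
              Dq Om κ P a S q (a q) := by
            unfold Dq Kp
            rw [hsame r q hqp.le, rpf_insert_lt κ P p q hqp, update_of_ne hne]
          rw [e2]
          simp only [e1]
        · have e1 : Gq Om κ (insert p P) c B (update a p r) S p ↔
              Gq Om κ (insert p P) c B a S p := by
            unfold Gq Kp
            rw [hsame r p le_rfl, sb_insert Om P a S p p hp le_rfl]
          have e2 : Dq Om κ (insert p P) (update a p r) S p (update a p r p) =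
              Dq Om κ (insert p P) a S p r := by
            unfold Dq Kp
            rw [hsame r p le_rfl, sb_insert Om P a S p p hp le_rfl, update_self]
          rw [e2]
          simp only [e1]
      have hsum : ∑ r ∈ range p, Real.exp (θ * Fq Om κ (insert p P) c B (update a p r) S) ≤
          p * (Real.exp (θ ^ 2 * v) * Real.exp (θ * Fq Om κ P c B a S)) := by
        have e0 : ∀ r, Real.exp (θ * Fq Om κ (insert p P) c B (update a p r) S) =
            Real.exp (θ * Fq Om κ P c B a S) * Real.exp (θ *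
            (if Gq Om κ (insert p P) c B a S p then Dq Om κ (insert p P) a S p r else 0)) := by
          intro r
          rw [hF r, ← Real.exp_add]; congr 1; ring
        simp only [e0]
        rw [← mul_sum]
        have key : ∑ r ∈ range p, Real.exp (θ *
            (if Gq Om κ (insert p P) c B a S p then Dq Om κ (insert p P) a S p r else 0)) ≤
            p * Real.exp (θ ^ 2 * v) := by
          split_ifs with hG
          · have hrp0 : 0 < rpf κ (insert p P) p := rf_pos κ _ fun q hq =>
              hbig q (mem_filter.1 hq).1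
            have e1 : ∀ r, Dq Om κ (insert p P) a S p r =
                κ p / p * ((sb Om (insert p P) a S p).card : ℝ) / rpf κ (insert p P) p -
                Kp Om (insert p P) a S p r / rpf κ (insert p P) p := by
              intro r; unfold Dq; rw [sub_div]
            simp only [e1]
            refine mart_step p hbp.1 _ (c p) θ _ (hc p (mem_insert_self _ _)).2
              (fun r => Kp Om (insert p P) a S p r / rpf κ (insert p P) p) ?_ ?_ ?_ ?_
            · intro r _
              have : 0 ≤ Kp Om (insert p P) a S p r := Nat.cast_nonneg _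
              positivity
            · intro r hr
              rw [div_le_iff₀ hrp0]
              exact hG.1 r hr
            · have hsK : ∑ r ∈ range p, Kp Om (insert p P) a S p r =
                  κ p * (sb Om (insert p P) a S p).card := by
                unfold Kp
                exact sum_hit Om p (κ p) _ fun n hn =>
                  hOm n (mem_filter.1 hn).1 p (mem_insert_self _ _)
              rw [← sum_div, hsK]
              field_simp
            · rw [div_le_iff₀ hrp0]
              have := hG.2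
              calc (κ p : ℝ) / p * ((sb Om (insert p P) a S p).card : ℝ) ≤
                  κ p / p * (B * rpf κ (insert p P) p) := by gcongr
                _ = κ p * B / p * rpf κ (insert p P) p := by ring
          · have h1 : (1 : ℝ) ≤ Real.exp (θ ^ 2 * v) := Real.one_le_exp (by positivity)
            simp only [mul_zero, Real.exp_zero, sum_const, card_range, nsmul_eq_mul,
              mul_one]
            nlinarith
        calc Real.exp (θ * Fq Om κ P c B a S) * _ ≤
            Real.exp (θ * Fq Om κ P c B a S) * (p * Real.exp (θ ^ 2 * v)) := by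
              gcongr
          _ = _ := by ring
      calc (∑ r ∈ range p, ENNReal.ofReal (Real.exp (θ *
            Fq Om κ (insert p P) c B (update a p r) S))) / p
          = ENNReal.ofReal ((∑ r ∈ range p, Real.exp (θ *
            Fq Om κ (insert p P) c B (update a p r) S)) / p) := by
            rw [ENNReal.ofReal_div_of_pos hp0, ENNReal.ofReal_sum_of_nonneg
              (fun _ _ => (Real.exp_pos _).le), ENNReal.ofReal_natCast]
        _ ≤ ENNReal.ofReal (Real.exp (θ ^ 2 * v) * Real.exp (θ * Fq Om κ P c B a S)) := by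
            refine ENNReal.ofReal_le_ofReal ?_
            rw [div_le_iff₀ hp0]
            linarith
        _ = _ := ENNReal.ofReal_mul (Real.exp_pos _).le
    calc lmarginal ν P (fun a => ∫⁻ r, ENNReal.ofReal (Real.exp (θ *
        Fq Om κ (insert p P) c B (update a p r) S)) ∂(ν p)) x
        ≤ lmarginal ν P (fun a => ENNReal.ofReal (Real.exp (θ ^ 2 * v)) *
          ENNReal.ofReal (Real.exp (θ * Fq Om κ P c B a S))) x := lmarginal_mono hinner x
      _ = ENNReal.ofReal (Real.exp (θ ^ 2 * v)) * lmarginal ν P (fun a =>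
          ENNReal.ofReal (Real.exp (θ * Fq Om κ P c B a S))) x := by
          unfold lmarginal
          rw [lintegral_const_mul]
          have hd : DepOn P (fun a : ℕ → ℕ =>
            ENNReal.ofReal (Real.exp (θ * Fq Om κ P c B a S))) := by
            intro a b hab
            have := dep_Fq Om κ P c B S a b hab
            simp only at this ⊢
            rw [this]
          exact hd.measurable.comp measurable_updateFinset
      _ ≤ ENNReal.ofReal (Real.exp (θ ^ 2 * v)) *
          ENNReal.ofReal (Real.exp (θ ^ 2 * ∑ q ∈ P, c q * (κ q * B / q))) := by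
          gcongr
          exact ih' x
      _ = ENNReal.ofReal (Real.exp (θ ^ 2 * ∑ q ∈ insert p P, c q * (κ q * B / q))) := by
          rw [← ENNReal.ofReal_mul (Real.exp_pos _).le, ← Real.exp_add, sum_insert hpn, mul_add]

/-- Both tails of the number of the survivors. -/
theorem mart_tail (ν : ℕ → Measure ℕ) [∀ p, IsProbabilityMeasure (ν p)]
    (Om : ι → ℕ → Finset ℕ) (κ : ℕ → ℕ) (c : ℕ → ℝ) (B θ δ : ℝ) (hB : 0 ≤ B) (hθ : 0 ≤ θ)
    (S : Finset ι)
    (P : Finset ℕ) (hν : ∀ p ∈ P, UnifOn (ν p) p) (hbig : ∀ p ∈ P, 0 < p ∧ 4 * κ p ≤ p)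
    (hc : ∀ p ∈ P, 0 ≤ c p ∧ θ * c p ≤ 1)
    (hOm : ∀ n ∈ S, ∀ p ∈ P, Om n p ⊆ range p ∧ (Om n p).card = κ p) (x : ℕ → ℕ)
    (E : (ℕ → ℕ) → Prop) [DecidablePred E]
    (hE : ∀ a, E a → (∀ p ∈ P, Gq Om κ P c B a S p) ∧
      rf κ P * δ ≤ |((surv Om P a S).card : ℝ) - rf κ P * S.card|) :
    lmarginal ν P (fun a => if E a then 1 else 0) x ≤
      ENNReal.ofReal (2 * Real.exp (-(θ * δ) + θ ^ 2 * ∑ p ∈ P, c p * (κ p * B / p))) := by
  classical
  have hρ := rf_pos κ P hbig
  have hpt : ∀ a : ℕ → ℕ, (if E a then (1 : ℝ≥0∞) else 0) ≤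
      ENNReal.ofReal (Real.exp (-(θ * δ))) *
        (ENNReal.ofReal (Real.exp (θ * Fq Om κ P c B a S)) +
        ENNReal.ofReal (Real.exp ((-θ) * Fq Om κ P c B a S))) := by
    intro a
    split_ifs with h
    · obtain ⟨h1, h2⟩ := hE a h
      have h3 : Fq Om κ P c B a S = ((surv Om P a S).card : ℝ) / rf κ P - S.card := by
        rw [telescope Om κ P a S hbig]
        unfold Fq
        rw [add_sub_cancel_left]
        exact sum_congr rfl fun p hp => if_pos (h1 p hp)
      have h4 : δ ≤ |Fq Om κ P c B a S| := by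
        have h5 : Fq Om κ P c B a S = (((surv Om P a S).card : ℝ) - rf κ P * S.card) / rf κ P := by
          rw [h3]; field_simp
        rw [h5, abs_div, abs_of_pos hρ, le_div_iff₀ hρ]
        linarith
      rw [← ENNReal.ofReal_add (Real.exp_pos _).le (Real.exp_pos _).le,
        ← ENNReal.ofReal_mul (Real.exp_pos _).le, ENNReal.one_le_ofReal, mul_add,
        ← Real.exp_add, ← Real.exp_add]
      rcases le_abs.1 h4 with h5 | h5
      · have h6 : (1 : ℝ) ≤ Real.exp (-(θ * δ) + θ * Fq Om κ P c B a S) :=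
          Real.one_le_exp (by nlinarith)
        have h7 := Real.exp_pos (-(θ * δ) + -θ * Fq Om κ P c B a S)
        linarith
      · have h6 : (1 : ℝ) ≤ Real.exp (-(θ * δ) + -θ * Fq Om κ P c B a S) :=
          Real.one_le_exp (by nlinarith)
        have h7 := Real.exp_pos (-(θ * δ) + θ * Fq Om κ P c B a S)
        linarith
    · exact zero_le
  have hmeas : ∀ t : ℝ, Measurable (fun a : ℕ → ℕ =>
      ENNReal.ofReal (Real.exp (t * Fq Om κ P c B a S))) := by
    intro t
    have hd : DepOn P (fun a : ℕ → ℕ =>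
      ENNReal.ofReal (Real.exp (t * Fq Om κ P c B a S))) := by
      intro a b hab
      have := dep_Fq Om κ P c B S a b hab
      simp only at this ⊢
      rw [this]
    exact hd.measurable
  refine (lmarginal_mono hpt x).trans ?_
  have hup : Measurable (fun y : (i : P) → ℕ => updateFinset x P y) := measurable_updateFinset
  have e : lmarginal ν P (fun a => ENNReal.ofReal (Real.exp (-(θ * δ))) *
        (ENNReal.ofReal (Real.exp (θ * Fq Om κ P c B a S)) +
        ENNReal.ofReal (Real.exp ((-θ) * Fq Om κ P c B a S)))) x =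
      ENNReal.ofReal (Real.exp (-(θ * δ))) * (lmarginal ν P (fun a =>
        ENNReal.ofReal (Real.exp (θ * Fq Om κ P c B a S))) x +
        lmarginal ν P (fun a => ENNReal.ofReal (Real.exp ((-θ) * Fq Om κ P c B a S))) x) := by
    unfold lmarginal
    rw [lintegral_const_mul, lintegral_add_left]
    · exact (hmeas θ).comp hup
    · exact ((hmeas θ).comp hup).add ((hmeas (-θ)).comp hup)
  rw [e]
  have h1 := mart_mgf ν Om κ c B θ hB S P hν hbig (fun p hp => ⟨(hc p hp).1, by
    rw [abs_of_nonneg hθ]; exact (hc p hp).2⟩) hOm x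
  have h2 := mart_mgf ν Om κ c B (-θ) hB S P hν hbig (fun p hp => ⟨(hc p hp).1, by
    rw [abs_neg, abs_of_nonneg hθ]; exact (hc p hp).2⟩) hOm x
  refine (mul_le_mul' le_rfl (add_le_add h1 h2)).trans (le_of_eq ?_)
  rw [neg_sq, ← ENNReal.ofReal_add (Real.exp_pos _).le (Real.exp_pos _).le,
    ← ENNReal.ofReal_mul (Real.exp_pos _).le, ← two_mul, ← mul_assoc,
    mul_comm (Real.exp _) 2, mul_assoc, ← Real.exp_add]

end Pool.Agent.H532.UT
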