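import Mathlib
import Pool.Agent.H532.UT.Mart2
import Pool.Agent.H532.UT.Det2
import Pool.Agent.H532.UN.Prob

/-!
Tails for the number of the survivors and for the residue classes.
-/

namespace Pool.Agent.H532.UT

open Finset MeasureTheory Function Pool.Agent.H532.RM
open scoped ENNReal
open Pool.Agent.H532.UN (sb Kp surv_congr sb_insert sb_top UT fact_tail coll_sum ss ss_nonneg
  dep_surv' lm_sub sum_div_eq)

lemma OmD_card' (H : Finset ℕ) (n p : ℕ) : (OmD H n p).card = nu H p := by
  unfold OmD nu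
  have h1 : H.image (fun d => (n + d) % p) = (H.image (· % p)).image (fun u => (n + u) % p) := by
    rw [image_image]
    refine image_congr fun d _ => ?_
    simp only [Function.comp, Nat.add_mod_mod]
  rw [h1]
  refine card_image_of_injOn ?_
  intro u hu v hv h
  obtain ⟨d, _, rfl⟩ := mem_image.1 (mem_coe.1 hu)
  obtain ⟨e, _, rfl⟩ := mem_image.1 (mem_coe.1 hv)
  have h2 : n + d % p ≡ n + e % p [MOD p] := h
  have h3 : d % p ≡ e % p [MOD p] := Nat.ModEq.add_left_cancel' n h2
  have h4 : d % p % p = e % p % p := h3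
  simpa [Nat.mod_mod] using h4

/-- `g` separates the elements of `H` -/
def Sepg (H : Finset ℕ) (g : ℕ) : Prop := ∀ i ∈ H, ∀ i' ∈ H, i % g = i' % g → i = i'

lemma UT_ge {P H : Finset ℕ} {W J g : ℕ} (hW : 0 < W) (hP : ∀ p ∈ P, p.Prime ∧ W < p)
    (hg : Sepg H g) (T : Finset ℕ) (l : ℕ) (hl : ∀ n ∈ T, n % g = l)
    (hT : ∀ n ∈ T, ∀ i ∈ H, n + i < 2 ^ J) :
    (T.card : ℝ) * (H.card * ss P) - (T.card * H.card : ℝ) ^ 2 * J / W ≤
      ∑ p ∈ P, ((UT (OmD H) T p).card : ℝ) / p := by
  classical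
  set E0 : Finset ℕ := T.biUnion (fun n => H.image (fun i => n + i)) with hE0
  have hcard : E0.card = T.card * H.card := by
    rw [hE0, card_biUnion]
    · rw [sum_congr rfl fun n _ => card_image_of_injective H (add_right_injective n), sum_const,
        smul_eq_mul]
    · intro n hn n' hn' hne
      rw [Function.onFun, Finset.disjoint_left]
      intro x hx hx'
      obtain ⟨i, hi, rfl⟩ := mem_image.1 hx
      obtain ⟨i', hi', h⟩ := mem_image.1 hx'
      have h1 := hl n hn
      have h2 := hl n' hn'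
      have h3 : n ≡ n' [MOD g] := h1.trans h2.symm
      have h4 : n' + i' ≡ n + i [MOD g] := by rw [h]
      have h5 : n + i' ≡ n + i [MOD g] := (h3.add_right i').trans h4
      have h6 : i' ≡ i [MOD g] := Nat.ModEq.add_left_cancel' n h5
      have h7 := hg i' hi' i hi h6
      omega
  have h1 := coll_sum hW hP (fun _ => E0) E0 (fun _ _ => Subset.refl _) (J := J) (fun e he => by
    obtain ⟨n, hn, h2⟩ := mem_biUnion.1 he
    obtain ⟨i, hi, rfl⟩ := mem_image.1 h2
    exact hT n hn i hi)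
  have e1 : ∀ p ∈ P, E0.image (· % p) = UT (OmD H) T p := by
    intro p _
    rw [hE0]
    simp only [UT, OmD, biUnion_image, image_image]
    rfl
  have e2 : ∑ p ∈ P, ((E0.image (· % p)).card : ℝ) / p =
      ∑ p ∈ P, ((UT (OmD H) T p).card : ℝ) / p := sum_congr rfl fun p hp => by rw [e1 p hp]
  rw [e2, hcard] at h1
  have e3 : ∑ p ∈ P, ((T.card * H.card : ℕ) : ℝ) / p = T.card * (H.card * ss P) := by
    rw [← sum_div_eq, mul_sum]
    refine sum_congr rfl fun p _ => ?_
    push_cast
    ring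
  rw [e3] at h1
  push_cast at h1
  exact h1

/-- upper tail for an arbitrary set of positions -/
theorem col_tail (ν : ℕ → Measure ℕ) [∀ p, IsProbabilityMeasure (ν p)] {P H : Finset ℕ}
    {W J g : ℕ} (hν : ∀ p ∈ P, UnifOn (ν p) p) (hW : 0 < W) (hP : ∀ p ∈ P, p.Prime ∧ W < p)
    (hg : Sepg H g) (hg0 : 0 < g) (A : Finset ℕ) (hA : ∀ n ∈ A, ∀ i ∈ H, n + i < 2 ^ J)
    (q : ℕ) (hq : 1 ≤ q) (e0 : ℝ) (he0 : (q * H.card : ℝ) ^ 2 * J / W ≤ e0) (x : ℕ → ℕ) :
    lmarginal ν P (fun a => if g * q + 2 * (A.card * Real.exp (-(H.card * ss P))) ≤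
      ((surv (OmD H) P a A).card : ℝ) then (1 : ℝ≥0∞) else 0) x ≤
      ENNReal.ofReal (g * (Real.exp e0 * (1 / 2) ^ q)) := by
  classical
  set s : ℝ := H.card * ss P with hs
  set Al : ℕ → Finset ℕ := fun l => A.filter (fun n => n % g = l) with hAl
  set b : ℕ → ℝ := fun l => q + 2 * ((Al l).card * Real.exp (-s)) with hb
  have hsum1 : ∀ B : Finset ℕ, B.card = ∑ l ∈ range g, (B.filter (fun n => n % g = l)).card := by
    intro B
    exact card_eq_sum_card_fiberwise fun n _ => mem_coe.2 (mem_range.2 (Nat.mod_lt _ hg0))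
  have hpt : ∀ a : ℕ → ℕ, (if g * q + 2 * (A.card * Real.exp (-s)) ≤
      ((surv (OmD H) P a A).card : ℝ) then (1 : ℝ≥0∞) else 0) ≤
      ∑ l ∈ range g, (if b l ≤ ((surv (OmD H) P a (Al l)).card : ℝ) then (1 : ℝ≥0∞) else 0) := by
    intro a
    split_ifs with h
    · by_contra hcon
      have h1 : ∀ l ∈ range g, ((surv (OmD H) P a (Al l)).card : ℝ) < b l := by
        intro l hl
        by_contra h2
        push Not at h2
        refine hcon ?_
        calc (1 : ℝ≥0∞) = (if b l ≤ ((surv (OmD H) P a (Al l)).card : ℝ)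
              then (1 : ℝ≥0∞) else 0) := (if_pos h2).symm
          _ ≤ _ := single_le_sum (f := fun l => (if b l ≤ ((surv (OmD H) P a (Al l)).card : ℝ)
              then (1 : ℝ≥0∞) else 0)) (fun _ _ => zero_le) hl
      have h3 : ((surv (OmD H) P a A).card : ℝ) =
          ∑ l ∈ range g, ((surv (OmD H) P a (Al l)).card : ℝ) := by
        rw [hsum1 (surv (OmD H) P a A)]
        push_cast
        refine sum_congr rfl fun l _ => ?_
        congr 2
        rw [hAl]
        unfold surv
        ext n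
        simp only [mem_filter]
        tauto
      have h4 : ∑ l ∈ range g, b l = g * q + 2 * (A.card * Real.exp (-s)) := by
        rw [hb]
        simp only
        rw [sum_add_distrib, sum_const, card_range, nsmul_eq_mul, ← mul_sum, ← sum_mul]
        congr 3
        rw [hsum1 A]
        push_cast
        rfl
      have h5 : ∑ l ∈ range g, ((surv (OmD H) P a (Al l)).card : ℝ) < ∑ l ∈ range g, b l :=
        sum_lt_sum_of_nonempty ⟨0, mem_range.2 hg0⟩ h1
      rw [← h3, h4] at h5
      linarith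
    · exact zero_le
  have hms : ∀ l, Measurable (fun a : ℕ → ℕ =>
      if b l ≤ ((surv (OmD H) P a (Al l)).card : ℝ) then (1 : ℝ≥0∞) else 0) := by
    intro l
    have hd : DepOn P (fun a : ℕ → ℕ =>
      if b l ≤ ((surv (OmD H) P a (Al l)).card : ℝ) then (1 : ℝ≥0∞) else 0) := by
      intro a a' haa
      have := dep_surv' (OmD H) P (Al l) a a' haa
      simp only at this ⊢
      rw [this]
    exact hd.measurable
  have hup : Measurable (fun y : (i : P) → ℕ => updateFinset x P y) := measurable_updateFinset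
  refine (lmarginal_mono hpt x).trans ?_
  have h1 : lmarginal ν P (fun a => ∑ l ∈ range g,
      (if b l ≤ ((surv (OmD H) P a (Al l)).card : ℝ) then (1 : ℝ≥0∞) else 0)) x =
      ∑ l ∈ range g, lmarginal ν P (fun a =>
      if b l ≤ ((surv (OmD H) P a (Al l)).card : ℝ) then (1 : ℝ≥0∞) else 0) x := by
    unfold lmarginal
    rw [lintegral_finsetSum]
    intro l _
    exact (hms l).comp hup
  rw [h1]
  have h2 : ∀ l ∈ range g, lmarginal ν P (fun a =>
      if b l ≤ ((surv (OmD H) P a (Al l)).card : ℝ) then (1 : ℝ≥0∞) else 0) x ≤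
      ENNReal.ofReal (Real.exp e0 * (1 / 2) ^ q) := by
    intro l _
    refine fact_tail ν (OmD H) P hν (fun p hp => (hP p hp).1.pos) (Al l)
      (fun t _ p hp => OmD_subset H t p (hP p hp).1.pos) q hq s e0 (fun T hT hTq => ?_) (b l)
      (le_of_eq rfl) x
    have h3 := UT_ge hW hP hg T l (fun n hn => (mem_filter.1 (hT hn)).2)
      (fun n hn => hA n (mem_filter.1 (hT hn)).1)
    rw [hTq] at h3
    linarith
  refine (sum_le_sum h2).trans (le_of_eq ?_)
  rw [sum_const, card_range, nsmul_eq_mul, ENNReal.ofReal_mul (Nat.cast_nonneg _),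
    ENNReal.ofReal_natCast]

/-- the members of a class -/
lemma class_sum (H : Finset ℕ) (p r : ℕ) (S : Finset ℕ) (C : ℝ) (hp : 0 < p)
    (hC : ∀ r0, ((S.filter (fun n => n % p = r0)).card : ℝ) ≤ C) :
    ((S.filter (fun n => r ∈ OmD H n p)).card : ℝ) ≤ H.card * C := by
  have h1 : S.filter (fun n => r ∈ OmD H n p) ⊆
      H.biUnion (fun i => S.filter (fun n => n % p = (r + (p - i % p)) % p)) := by
    intro n hn
    obtain ⟨h1, h2⟩ := mem_filter.1 hn
    obtain ⟨i, hi, h3⟩ := mem_image.1 h2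
    refine mem_biUnion.2 ⟨i, hi, mem_filter.2 ⟨h1, ?_⟩⟩
    have hip := Nat.mod_lt i hp
    have h4 : r + (p - i % p) ≡ n + i % p + (p - i % p) [MOD p] := by
      refine Nat.ModEq.add_right _ ?_
      rw [← h3]
      have h5 : n + i ≡ n + i % p [MOD p] := (Nat.mod_modEq i p).symm.add_left n
      exact (Nat.mod_modEq _ _).trans h5
    have e : n + i % p + (p - i % p) = n + p := by omega
    rw [e] at h4
    have h5 : n + p ≡ n [MOD p] := by simp [Nat.ModEq]
    exact (h4.trans h5).symm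
  calc ((S.filter (fun n => r ∈ OmD H n p)).card : ℝ)
      ≤ ∑ i ∈ H, ((S.filter (fun n => n % p = (r + (p - i % p)) % p)).card : ℝ) := by
        exact_mod_cast (card_le_card h1).trans card_biUnion_le
    _ ≤ ∑ i ∈ H, C := sum_le_sum fun i _ => hC _
    _ = H.card * C := by rw [sum_const, nsmul_eq_mul]

/-- concentration of the number of the survivors -/
theorem conc (ν : ℕ → Measure ℕ) [∀ p, IsProbabilityMeasure (ν p)] {P H : Finset ℕ}
    {W J g : ℕ} (hν : ∀ p ∈ P, UnifOn (ν p) p) (hW : 0 < W) (hP : ∀ p ∈ P, p.Prime ∧ W < p)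
    (h4 : 4 * H.card ≤ W) (hg : Sepg H g) (hg0 : 0 < g) (S : Finset ℕ)
    (hS : ∀ n ∈ S, ∀ i ∈ H, n + i < 2 ^ J) (q : ℕ) (hq : 1 ≤ q) (e0 : ℝ)
    (he0 : (q * H.card : ℝ) ^ 2 * J / W ≤ e0) (F c : ℕ → ℝ) (B : ℝ) (hB0 : 0 ≤ B)
    (hF : ∀ p ∈ P, ∀ r, ((S.filter (fun n => r ∈ OmD H n p)).card : ℝ) ≤ F p)
    (hc : ∀ p ∈ P, g * q + 2 * (F p * Real.exp (-(H.card * ss (P.filter (· < p))))) ≤
      c p * rpf (nu H) P p)
    (hB : ∀ p ∈ P, g * q + 2 * (S.card * Real.exp (-(H.card * ss (P.filter (· < p))))) ≤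
      B * rpf (nu H) P p)
    (θ δ : ℝ) (hθ : 0 ≤ θ) (hθc : ∀ p ∈ P, 0 ≤ c p ∧ θ * c p ≤ 1) (x : ℕ → ℕ) :
    lmarginal ν P (fun a => if rf (nu H) P * δ ≤ |((surv (OmD H) P a S).card : ℝ) -
      rf (nu H) P * S.card| then (1 : ℝ≥0∞) else 0) x ≤
      ENNReal.ofReal (2 * Real.exp (-(θ * δ) + θ ^ 2 * ∑ p ∈ P, c p * (nu H p * B / p)) +
        (∑ p ∈ P, ((p : ℝ) + 1)) * (g * (Real.exp e0 * (1 / 2) ^ q))) := by
  classical
  set Om : ℕ → ℕ → Finset ℕ := OmD H with hOmd
  set κ : ℕ → ℕ := nu H with hκ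
  have hOm : ∀ t ∈ S, ∀ p ∈ P, Om t p ⊆ range p ∧ (Om t p).card = κ p := fun t _ p hp =>
    ⟨OmD_subset H t p (hP p hp).1.pos, OmD_card' H t p⟩
  have hbig : ∀ p ∈ P, 0 < p ∧ 4 * κ p ≤ p := fun p hp =>
    ⟨(hP p hp).1.pos, (Nat.mul_le_mul_left 4 (nu_le H p)).trans (h4.trans (hP p hp).2.le)⟩
  set E : (ℕ → ℕ) → Prop := fun a => rf κ P * δ ≤ |((surv Om P a S).card : ℝ) -
      rf κ P * S.card| with hE
  set S' : ℕ → ℕ → Finset ℕ := fun p r => S.filter (fun t => r ∈ Om t p) with hS'
  set sp : ℕ → ℝ := fun p => H.card * ss (P.filter (· < p)) with hsp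
  set bb : Finset ℕ → ℕ → ℝ := fun A p => g * q + 2 * (A.card * Real.exp (-(sp p))) with hbb
  set ind : Finset ℕ → ℕ → (ℕ → ℕ) → ℝ≥0∞ := fun A p a =>
    if bb A p ≤ ((surv Om (P.filter (· < p)) a A).card : ℝ) then (1 : ℝ≥0∞) else 0 with hind
  have hK : ∀ a p r, Kp Om P a S p r = ((surv Om (P.filter (· < p)) a (S' p r)).card : ℝ) := by
    intro a p r
    unfold Kp sb
    congr 2
    rw [hS']
    unfold surv
    ext t
    simp only [mem_filter]
    tauto
  have hpt : ∀ a : ℕ → ℕ, (if E a then (1 : ℝ≥0∞) else 0) ≤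
      (if (E a ∧ ∀ p ∈ P, Gq Om κ P c B a S p) then (1 : ℝ≥0∞) else 0) +
      ∑ p ∈ P, (∑ r ∈ range p, ind (S' p r) p a + ind S p a) := by
    intro a
    by_cases h1 : E a
    · by_cases h2 : ∀ p ∈ P, Gq Om κ P c B a S p
      · rw [if_pos h1, if_pos ⟨h1, h2⟩]
        exact le_add_right le_rfl
      · push Not at h2
        obtain ⟨p, hp, h3⟩ := h2
        rw [if_pos h1]
        refine le_trans ?_ (le_add_left le_rfl)
        refine le_trans ?_ (single_le_sum (f := fun p => (∑ r ∈ range p, ind (S' p r) p a +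
          ind S p a)) (fun _ _ => zero_le) hp)
        show (1 : ℝ≥0∞) ≤ ∑ r ∈ range p, ind (S' p r) p a + ind S p a
        unfold Gq at h3
        rw [not_and_or] at h3
        rcases h3 with h3 | h3
        · push Not at h3
          obtain ⟨r, hr, h4'⟩ := h3
          refine le_trans ?_ (le_add_right le_rfl)
          have h5 : bb (S' p r) p ≤ ((surv Om (P.filter (· < p)) a (S' p r)).card : ℝ) := by
            rw [hK] at h4'
            refine le_trans ?_ h4'.le
            refine le_trans ?_ (hc p hp)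
            rw [hbb]
            simp only
            have := hF p hp r
            gcongr
          calc (1 : ℝ≥0∞) = ind (S' p r) p a := by rw [hind]; exact (if_pos h5).symm
            _ ≤ _ := single_le_sum (f := fun r => ind (S' p r) p a) (fun _ _ => zero_le) hr
        · push Not at h3
          refine le_trans ?_ (le_add_left le_rfl)
          have h5 : bb S p ≤ ((surv Om (P.filter (· < p)) a S).card : ℝ) :=
            (hB p hp).trans h3.le
          rw [hind]
          simp only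
          rw [if_pos h5]
    · rw [if_neg h1]
      exact zero_le
  have hm2 : ∀ A p, Measurable (ind A p) := by
    intro A p
    have hd : DepOn (P.filter (· < p)) (ind A p) := by
      intro a a' haa
      have := dep_surv' Om (P.filter (· < p)) A a a' haa
      simp only [hind] at this ⊢
      rw [this]
    exact hd.measurable
  have hm1 : Measurable (fun a : ℕ → ℕ =>
      if (E a ∧ ∀ p ∈ P, Gq Om κ P c B a S p) then (1 : ℝ≥0∞) else 0) := by
    have hd : DepOn P (fun a : ℕ → ℕ =>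
      if (E a ∧ ∀ p ∈ P, Gq Om κ P c B a S p) then (1 : ℝ≥0∞) else 0) := by
      intro a a' haa
      have h1 : surv Om P a S = surv Om P a' S := dep_surv' Om P S a a' haa
      have h2 : ∀ p ∈ P, (Gq Om κ P c B a S p ↔ Gq Om κ P c B a' S p) := by
        intro p _
        have h3 : sb Om P a S p = sb Om P a' S p :=
          surv_congr Om _ a a' S fun y hy => haa y (mem_filter.1 hy).1
        unfold Gq Kp
        rw [h3]
      have h4 : (E a ∧ ∀ p ∈ P, Gq Om κ P c B a S p) ↔
          (E a' ∧ ∀ p ∈ P, Gq Om κ P c B a' S p) := by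
        rw [hE]
        simp only
        rw [h1]
        exact and_congr_right fun _ => forall₂_congr h2
      simp only [h4]
    exact hd.measurable
  have hup : Measurable (fun y : (i : P) → ℕ => updateFinset x P y) := measurable_updateFinset
  have hsplit : lmarginal ν P (fun a =>
      (if (E a ∧ ∀ p ∈ P, Gq Om κ P c B a S p) then (1 : ℝ≥0∞) else 0) +
      ∑ p ∈ P, (∑ r ∈ range p, ind (S' p r) p a + ind S p a)) x =
      lmarginal ν P (fun a =>
      if (E a ∧ ∀ p ∈ P, Gq Om κ P c B a S p) then (1 : ℝ≥0∞) else 0) x +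
      ∑ p ∈ P, (∑ r ∈ range p, lmarginal ν P (ind (S' p r) p) x +
        lmarginal ν P (ind S p) x) := by
    unfold lmarginal
    rw [lintegral_add_left, lintegral_finsetSum]
    · congr 1
      refine sum_congr rfl fun p _ => ?_
      rw [lintegral_add_right, lintegral_finsetSum]
      · intro r _
        exact (hm2 _ p).comp hup
      · exact (hm2 S p).comp hup
    · intro p _
      exact (Finset.measurable_sum _ fun r _ => (hm2 _ p).comp hup).add ((hm2 S p).comp hup)
    · exact hm1.comp hup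
  have hfirst := mart_tail ν Om κ c B θ δ hB0 hθ S P hν hbig hθc hOm x
      (fun a => E a ∧ ∀ p ∈ P, Gq Om κ P c B a S p) (fun a ha => ⟨ha.2, ha.1⟩)
  have hsecond : ∀ p ∈ P, ∀ A : Finset ℕ, (∀ n ∈ A, ∀ i ∈ H, n + i < 2 ^ J) →
      lmarginal ν P (ind A p) x ≤ ENNReal.ofReal (g * (Real.exp e0 * (1 / 2) ^ q)) := by
    intro p hp A hA
    refine lm_sub ν (filter_subset (· < p) P) _ (hm2 A p) _ (fun x' => ?_) x
    exact col_tail ν (fun y hy => hν y (mem_filter.1 hy).1) hW
      (fun y hy => hP y (mem_filter.1 hy).1) hg hg0 A hA q hq e0 he0 x'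
  refine (lmarginal_mono hpt x).trans ?_
  rw [hsplit]
  set K : ℝ := g * (Real.exp e0 * (1 / 2) ^ q) with hKd
  have h0 : 0 ≤ K := by positivity
  calc _ ≤ ENNReal.ofReal (2 * Real.exp (-(θ * δ) + θ ^ 2 * ∑ p ∈ P, c p * (κ p * B / p))) +
        ∑ p ∈ P, (∑ r ∈ range p, ENNReal.ofReal K + ENNReal.ofReal K) :=
        add_le_add hfirst (sum_le_sum fun p hp => add_le_add
          (sum_le_sum fun r _ => hsecond p hp _ fun n hn => hS n (mem_filter.1 hn).1)
          (hsecond p hp S hS))
    _ = ENNReal.ofReal (2 * Real.exp (-(θ * δ) + θ ^ 2 * ∑ p ∈ P, c p * (κ p * B / p))) +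
        ENNReal.ofReal ((∑ p ∈ P, ((p : ℝ) + 1)) * K) := by
        congr 1
        rw [sum_mul, ENNReal.ofReal_sum_of_nonneg (fun p _ => by positivity)]
        refine sum_congr rfl fun p _ => ?_
        rw [sum_const, card_range, nsmul_eq_mul, add_mul, one_mul,
          ENNReal.ofReal_add (by positivity) h0,
          ENNReal.ofReal_mul (p := (p : ℝ)) (q := K) (Nat.cast_nonneg _), ENNReal.ofReal_natCast]
    _ = _ := by
        rw [ENNReal.ofReal_add (by positivity)]
        exact mul_nonneg (sum_nonneg fun p _ => by positivity) h0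

end Pool.Agent.H532.UT
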