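import Mathlib
import Pool.Agent.H532.UT.Cls
import Pool.Agent.H532.UN.Real
import Pool.Graph.R_pool_sql_team_seeded_b0a926ef.R528.RM.RoughCount

/-!
A small modulus which separates a given set; sieving in two steps.
-/

namespace Pool.Agent.H532.UT

open Finset Filter MeasureTheory Function Pool.Agent.H532.RM Pool.Agent.H532.UN
open scoped Topology ENNReal

lemma card_primeFactors_lt {d J : ℕ} (hd : 0 < d) (hJ : d < 2 ^ J) : d.primeFactors.card < J := by
  have h1 : 2 ^ d.primeFactors.card ≤ ∏ p ∈ d.primeFactors, p :=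
    Finset.pow_card_le_prod _ _ _ fun p hp => (Nat.prime_of_mem_primeFactors hp).two_le
  have h2 : ∏ p ∈ d.primeFactors, p ≤ d := Nat.le_of_dvd hd (Nat.prod_primeFactors_dvd d)
  exact (Nat.pow_lt_pow_iff_right (by norm_num)).1 ((h1.trans h2).trans_lt hJ)

lemma sep_of_count {H : Finset ℕ} {J X : ℕ} (hH : ∀ i ∈ H, i < 2 ^ J)
    (hX : H.card * H.card * J < (primesLe X).card) : ∃ g, g.Prime ∧ g ≤ X ∧ Sepg H g := by
  classical
  set Bad : Finset ℕ := (H ×ˢ H).biUnion (fun x => (Nat.dist x.1 x.2).primeFactors) with hB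
  have hBc : Bad.card ≤ H.card * H.card * J := by
    calc Bad.card ≤ ∑ x ∈ H ×ˢ H, (Nat.dist x.1 x.2).primeFactors.card := card_biUnion_le
      _ ≤ ∑ x ∈ H ×ˢ H, J := by
        refine sum_le_sum fun x hx => ?_
        obtain ⟨h1, h2⟩ := mem_product.1 hx
        rcases Nat.eq_zero_or_pos (Nat.dist x.1 x.2) with h0 | h0
        · rw [h0]; simp
        · refine (card_primeFactors_lt h0 ?_).le
          have := hH _ h1
          have := hH _ h2
          unfold Nat.dist
          omega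
      _ = H.card * H.card * J := by rw [sum_const, card_product, smul_eq_mul]
  have hne : (primesLe X \ Bad).Nonempty := by
    rw [← card_pos]
    have := le_card_sdiff Bad (primesLe X)
    omega
  obtain ⟨g, hg⟩ := hne
  obtain ⟨h1, h2⟩ := mem_sdiff.1 hg
  obtain ⟨h3, h4⟩ := mem_primesLe.1 h1
  refine ⟨g, h4, h3, fun i hi i' hi' h => ?_⟩
  by_contra hne
  refine h2 (mem_biUnion.2 ⟨(i, i'), mem_product.2 ⟨hi, hi'⟩, ?_⟩)
  refine Nat.mem_primeFactors.2 ⟨h4, ?_, ?_⟩
  · have h5 : i ≡ i' [MOD g] := h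
    show g ∣ Nat.dist i i'
    rcases le_total i i' with h6 | h6
    · rw [Nat.dist_eq_sub_of_le h6]
      exact (Nat.modEq_iff_dvd' h6).1 h5
    · rw [Nat.dist_eq_sub_of_le_right h6]
      exact (Nat.modEq_iff_dvd' h6).1 h5.symm
  · intro h5
    exact hne (Nat.eq_of_dist_eq_zero h5)

lemma card_primesLe (X : ℕ) : (primesLe X).card = Nat.primeCounting X := by
  rw [Nat.primeCounting, Nat.primeCounting', Nat.count_eq_card_filter_range]
  rfl

lemma sep_exists : ∀ᶠ j : ℕ in atTop, ∀ H : Finset ℕ, H.card ≤ j → (∀ i ∈ H, i < 2 ^ (j + 4)) →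
    ∃ g : ℕ, 0 < g ∧ (g : ℝ) ≤ (j : ℝ) ^ 5 ∧ Sepg H g := by
  have h0 : Tendsto (fun j : ℕ => j ^ 5) atTop atTop :=
    tendsto_atTop_mono (fun j => Nat.le_self_pow (by norm_num) j) tendsto_id
  have h1 := (Pool.Agent.R528.RM.pnt_nat.comp h0).eventually
    (lt_mem_nhds (show (1 / 2 : ℝ) < 1 by norm_num))
  filter_upwards [h1, logpow_small 1 (1 / 40) (by norm_num), eventually_ge_atTop 100] with j e1 e2 e3 H hH hHJ
  have hj : (100 : ℝ) ≤ j := by exact_mod_cast e3
  have hj0 : (0 : ℝ) < j := by linarith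
  have hs : Real.sqrt j ≤ j := by
    rw [Real.sqrt_le_left hj0.le]; nlinarith
  rw [pow_one] at e2
  simp only [Function.comp] at e1
  push_cast at e1
  rw [Real.log_pow, lt_div_iff₀ (by positivity)] at e1
  have e4 : Real.log j ≤ 1 / 40 * j := e2.trans (by gcongr)
  have hpc : (0 : ℝ) ≤ Nat.primeCounting (j ^ 5) := Nat.cast_nonneg _
  have e5 : 1 / 2 * (j : ℝ) ^ 5 < (Nat.primeCounting (j ^ 5) : ℝ) * (j / 8) := by
    refine e1.trans_le ?_
    push_cast
    have : (5 : ℝ) * Real.log j ≤ j / 8 := by linarith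
    gcongr
  have e6 : 4 * (j : ℝ) ^ 4 < Nat.primeCounting (j ^ 5) := by
    have : 1 / 2 * (j : ℝ) ^ 5 = 4 * (j : ℝ) ^ 4 * (j / 8) := by ring
    rw [this] at e5
    exact lt_of_mul_lt_mul_right e5 (by positivity)
  have e7 : H.card * H.card * (j + 4) < (primesLe (j ^ 5)).card := by
    rw [card_primesLe]
    have h5 : ((H.card * H.card * (j + 4) : ℕ) : ℝ) < (Nat.primeCounting (j ^ 5) : ℝ) := by
      push_cast
      have h6 : (H.card : ℝ) ≤ j := by exact_mod_cast hH
      calc (H.card : ℝ) * H.card * (j + 4) ≤ j * j * (j + j) := by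
            gcongr
            linarith
        _ = 2 * (j : ℝ) ^ 3 := by ring
        _ ≤ 4 * (j : ℝ) ^ 4 := by
          have : (j : ℝ) ^ 4 = (j : ℝ) ^ 3 * j := by ring
          have h8 : 0 < (j : ℝ) ^ 3 := by positivity
          nlinarith
        _ < _ := e6
    exact_mod_cast h5
  obtain ⟨g, h2, h3, h4⟩ := sep_of_count hHJ e7
  exact ⟨g, h2.pos, by exact_mod_cast h3, h4⟩

/-- the surviving positions, sieved in two steps; the classes are reduced modulo `p` -/
lemma surv_TTH {W Z : ℕ} (hWZ : W ≤ Z) (H : Finset ℕ) (m U : ℕ) (a : ℕ → ℕ)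
    (ha : ∀ p ∈ bigP W Z, a p < p) :
    surv (OmD H) (bigP W Z) a (TT H a (primesLe W) m U) = TT H a (primesLe Z) m U := by
  rw [← primesLe_union_bigP hWZ]
  unfold surv TT OmD
  ext n
  simp only [mem_filter, mem_image, mem_union]
  constructor
  · rintro ⟨⟨h1, h2⟩, h3⟩
    refine ⟨h1, ?_⟩
    rintro d hd p (hp | hp)
    · exact h2 d hd p hp
    · intro h4
      refine h3 p hp ⟨d, hd, ?_⟩
      rw [h4, Nat.mod_eq_of_lt (ha p hp)]
  · rintro ⟨h1, h2⟩
    refine ⟨⟨h1, fun d hd p hp => h2 d hd p (Or.inl hp)⟩, ?_⟩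
    rintro p hp ⟨d, hd, h4⟩
    refine h2 d hd p (Or.inr hp) ?_
    rw [h4, Nat.mod_eq_of_lt (ha p hp)]

lemma TTH_update (H : Finset ℕ) (x : ℕ → ℕ) (W Z m U : ℕ) (y : bigP W Z → ℕ) :
    TT H (updateFinset x (bigP W Z) y) (primesLe W) m U = TT H x (primesLe W) m U := by
  refine TT_congr _ _ _ _ _ _ fun p hp => ?_
  rw [updateFinset_def]
  have : p ∉ bigP W Z := fun h => by
    have := (mem_bigP.1 h).2
    have := (mem_primesLe.1 hp).1
    omega
  simp [this]

lemma pr_split {W Z : ℕ} (hWZ : W ≤ Z) (H : Finset ℕ) :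
    pr H (primesLe Z) = pr H (primesLe W) * rf (nu H) (bigP W Z) := by
  rw [← primesLe_union_bigP hWZ, pr_union (disj_bigP W Z)]
  rfl

end Pool.Agent.H532.UT
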