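import Mathlib
import Pool.Agent.H532.UT.Sep

/-!
Real inequalities for one block.
-/

namespace Pool.Agent.H532.UT

open Finset Filter MeasureTheory Function Pool.Agent.H532.RM Pool.Agent.H532.UN
open scoped Topology ENNReal

/-- the facts on the parameters at the scale `j` -/
structure BOK (κ δ : ℝ) (j y h r Z : ℕ) : Prop where
  J1 : 1000 ≤ (j : ℝ)
  y1 : 1 ≤ y
  yW : y ≤ Wj j
  hy : 2 * h ≤ y + 1
  hJ : (h : ℝ) + 1 ≤ j
  pE : (primorial y : ℝ) ≤ Real.exp (κ * j)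
  hs : (h : ℝ) * ss (bigP y (Wj j)) + h ≤ r / 3000
  RE : (1 + 3 * (h * (bigP y (Wj j)).card : ℝ)) ^ r ≤ Real.exp (κ * j)
  r5 : Real.exp (-(5 * r)) ≤ δ / 100
  rE : (r : ℝ) ≤ κ * j
  JE : (j : ℝ) ^ 50 ≤ Real.exp (κ * j)
  WZ : Wj j ≤ Z
  ZE : (Z : ℝ) + 1 ≤ Real.exp j
  VZ : 1 / (j : ℝ) ≤ V Z
  hE : (h : ℝ) * Real.log j ≤ κ * j
  δJ : 100 / δ ≤ j

lemma rb_S {card U p1 p2 pM EE RR E e5 N δ : ℝ}
    (h : |card - U * (p1 * p2)| ≤ p1 * (pM + (U + pM) * EE + pM * RR)) (hU : 0 ≤ U)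
    (hp1 : 0 ≤ p1) (hp1' : p1 ≤ 1) (hp2 : 0 ≤ p2) (hp2' : p2 ≤ 1) (hpM0 : 0 ≤ pM) (hpM : pM ≤ E)
    (hRR0 : 0 ≤ RR) (hRR : RR ≤ E) (hEE0 : 0 ≤ EE) (hEE : EE ≤ p2 * e5) (he50 : 0 ≤ e5)
    (he5 : e5 ≤ δ / 100) (hδ1 : δ ≤ 1) (hE3 : 3 ≤ E) (hN : N = U * (p1 * p2)) (hNE : 100 * E ^ 2 ≤ δ * N) :
    |card - N| ≤ δ / 4 * N := by
  rw [hN]
  refine h.trans ?_
  rw [← hN]
  have h1 : p1 * pM ≤ E := by
    calc p1 * pM ≤ 1 * E := by gcongr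
      _ = E := one_mul E
  have h2 : p1 * (U * EE) ≤ N * (δ / 100) := by
    calc p1 * (U * EE) ≤ p1 * (U * (p2 * (δ / 100))) := by
          have : EE ≤ p2 * (δ / 100) := hEE.trans (by gcongr)
          gcongr
      _ = N * (δ / 100) := by rw [hN]; ring
  have h3 : p1 * (pM * EE) ≤ E := by
    have h4 : EE ≤ 1 := by
      refine hEE.trans ?_
      calc p2 * e5 ≤ 1 * (δ / 100) := by gcongr
        _ ≤ 1 := by linarith
    calc p1 * (pM * EE) ≤ 1 * (E * 1) := by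
          gcongr
      _ = E := by ring
  have h5 : p1 * (pM * RR) ≤ E ^ 2 := by
    calc p1 * (pM * RR) ≤ 1 * (E * E) := by gcongr
      _ = E ^ 2 := by ring
  have h6 : p1 * (pM + (U + pM) * EE + pM * RR) = p1 * pM + p1 * (U * EE) + p1 * (pM * EE) +
      p1 * (pM * RR) := by ring
  rw [h6]
  nlinarith

lemma rb_C {card U p p1 p2 pM EE RR E e5 N : ℝ}
    (h : card ≤ (U / p + 1) * (p1 * p2) + p1 * (pM + ((U / p + 1) + pM) * EE + pM * RR))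
    (hU : 0 ≤ U) (hp : 0 < p)
    (hp1 : 0 ≤ p1) (hp1' : p1 ≤ 1) (hp2 : 0 ≤ p2) (hp2' : p2 ≤ 1) (hpM0 : 0 ≤ pM) (hpM : pM ≤ E)
    (hRR0 : 0 ≤ RR) (hRR : RR ≤ E) (hEE0 : 0 ≤ EE) (hEE : EE ≤ p2 * e5) (he50 : 0 ≤ e5)
    (he5 : e5 ≤ 1 / 100) (hE3 : 3 ≤ E) (hN : N = U * (p1 * p2)) :
    card ≤ 1.1 * (N / p) + E ^ 3 := by
  refine h.trans ?_
  have h0 : (U / p + 1) * (p1 * p2) = N / p + p1 * p2 := by rw [hN]; field_simp
  have h00 : p1 * p2 ≤ 1 := by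
    calc p1 * p2 ≤ 1 * 1 := by gcongr
      _ = 1 := one_mul 1
  have h1 : p1 * pM ≤ E := by
    calc p1 * pM ≤ 1 * E := by gcongr
      _ = E := one_mul E
  have hEE1 : EE ≤ p2 * (1 / 100) := hEE.trans (by gcongr)
  have h2 : p1 * ((U / p + 1) * EE) ≤ (N / p + p1 * p2) * (1 / 100) := by
    rw [← h0]
    calc p1 * ((U / p + 1) * EE) ≤ p1 * ((U / p + 1) * (p2 * (1 / 100))) := by gcongr
      _ = _ := by ring
  have h3 : p1 * (pM * EE) ≤ E := by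
    have h4 : EE ≤ 1 := by
      refine hEE1.trans ?_
      linarith
    calc p1 * (pM * EE) ≤ 1 * (E * 1) := by
          gcongr
      _ = E := by ring
  have h5 : p1 * (pM * RR) ≤ E ^ 2 := by
    calc p1 * (pM * RR) ≤ 1 * (E * E) := by gcongr
      _ = E ^ 2 := by ring
  have h6 : (U / p + 1) * (p1 * p2) + p1 * (pM + ((U / p + 1) + pM) * EE + pM * RR) =
      (U / p + 1) * (p1 * p2) + p1 * pM + p1 * ((U / p + 1) * EE) + p1 * (pM * EE) +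
      p1 * (pM * RR) := by ring
  rw [h6, h0]
  have hNp : 0 ≤ N / p := by rw [hN]; positivity
  have h7 : E ^ 3 = E * E ^ 2 := by ring
  have h8 : 3 * E ^ 2 ≤ E ^ 3 := by rw [h7]; gcongr
  have h9 : 3 * E ≤ E ^ 2 := by nlinarith
  norm_num
  linarith

/-- the condition for the classes -/
lemma rb_c {gq F e R E N p h : ℝ} (hgq : gq ≤ E) (hE3 : 3 ≤ E) (he : 1 / E ≤ e)
    (hR : 9 / 10 * e ≤ R) (hh0 : 0 ≤ h) (hh : h ≤ E) (hNp : 0 ≤ N / p)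
    (hF : F = h * (1.1 * (N / p) + E ^ 3)) :
    gq + 2 * (F * e) ≤ (3 * h * (N / p) + E ^ 5) * R := by
  have hE0 : 0 < E := by linarith
  have he0 : 0 < e := lt_of_lt_of_le (by positivity) he
  have h1 : gq ≤ E ^ 2 * e := by
    have h2 : E ≤ E ^ 2 * e := by
      calc E = E ^ 2 * (1 / E) := by field_simp
        _ ≤ E ^ 2 * e := by gcongr
    linarith
  have h3 : (3 * h * (N / p) + E ^ 5) * (9 / 10 * e) ≤ (3 * h * (N / p) + E ^ 5) * R := by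
    have : 0 ≤ 3 * h * (N / p) + E ^ 5 := by positivity
    gcongr
  refine le_trans ?_ h3
  have h4 : 2 * F ≤ 2.2 * (h * (N / p)) + 2 * E ^ 4 := by
    rw [hF]
    have h5 : h * E ^ 3 ≤ E * E ^ 3 := by gcongr
    have h6 : E * E ^ 3 = E ^ 4 := by ring
    norm_num
    linarith
  have h5 : E ^ 2 + 2 * E ^ 4 ≤ 9 / 10 * E ^ 5 := by
    have h6 : 3 * E ^ 4 ≤ E ^ 5 := by
      have : E ^ 5 = E * E ^ 4 := by ring
      rw [this]; gcongr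
    have h7 : 9 * E ^ 2 ≤ E ^ 4 := by
      have h8 : E ^ 4 = E ^ 2 * E ^ 2 := by ring
      rw [h8]
      have : (9 : ℝ) ≤ E ^ 2 := by nlinarith
      gcongr
    have h8 : 0 < E ^ 4 := by positivity
    linarith
  have h6 : 0 ≤ h * (N / p) := by positivity
  have h7 : E ^ 2 + 2 * F ≤ 9 / 10 * (3 * h * (N / p) + E ^ 5) := by
    norm_num at h4
    linarith
  calc gq + 2 * (F * e) ≤ E ^ 2 * e + 2 * (F * e) := by linarith
    _ = (E ^ 2 + 2 * F) * e := by ring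
    _ ≤ 9 / 10 * (3 * h * (N / p) + E ^ 5) * e := by gcongr
    _ = _ := by ring

lemma rb_B {gq card e R E N : ℝ} (hgq : gq ≤ E) (hE3 : 3 ≤ E) (he : 1 / E ≤ e)
    (hR : 9 / 10 * e ≤ R) (hN0 : 0 ≤ N) (hc : card ≤ 5 / 4 * N) (hNE : 100 * E ^ 2 ≤ N) :
    gq + 2 * (card * e) ≤ 3 * N * R := by
  have hE0 : 0 < E := by linarith
  have he0 : 0 < e := lt_of_lt_of_le (by positivity) he
  have h1 : gq ≤ E ^ 2 * e := by
    have h2 : E ≤ E ^ 2 * e := by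
      calc E = E ^ 2 * (1 / E) := by field_simp
        _ ≤ E ^ 2 * e := by gcongr
    linarith
  have h3 : 3 * N * (9 / 10 * e) ≤ 3 * N * R := by gcongr
  refine le_trans ?_ h3
  calc gq + 2 * (card * e) ≤ E ^ 2 * e + 2 * (card * e) := by linarith
    _ = (E ^ 2 + 2 * card) * e := by ring
    _ ≤ (27 / 10 * N) * e := by
      have : E ^ 2 + 2 * card ≤ 27 / 10 * N := by linarith
      gcongr
    _ = _ := by ring

/-- the condition for the parameter of the martingale -/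
lemma rb_th {α J h p W E N : ℝ} (hα : α ≤ J ^ 3) (hJ : 1000 ≤ J) (hh0 : 0 ≤ h)
    (hh : h ≤ J) (hW : W = J ^ 40) (hp : W ≤ p) (hE : J ^ 50 ≤ E) (hN : E ^ 7 ≤ N) :
    α / N * (3 * h * (N / p) + E ^ 5) ≤ 1 := by
  have hJ0 : 0 < J := by linarith
  have hW0 : 0 < W := by rw [hW]; positivity
  have hp0 : 0 < p := by linarith
  have hE1 : 1 ≤ E := le_trans (one_le_pow₀ (by linarith)) hE
  have hN0 : 0 < N := lt_of_lt_of_le (by positivity) hN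
  have e : α / N * (3 * h * (N / p) + E ^ 5) = 3 * α * h / p + α * E ^ 5 / N := by
    field_simp
  rw [e]
  have h1 : 3 * α * h / p ≤ 1 / 2 := by
    rw [div_le_iff₀ hp0]
    have h2 : 3 * α * h ≤ 3 * J ^ 3 * J := by gcongr
    have h3 : 3 * J ^ 3 * J ≤ 1 / 2 * J ^ 40 := by
      have h4 : J ^ 40 = J ^ 36 * (J ^ 3 * J) := by ring
      have h5 : (6 : ℝ) ≤ J ^ 36 := by
        calc (6 : ℝ) ≤ 1000 ^ 36 := by norm_num
          _ ≤ J ^ 36 := by gcongr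
      have h6 : 6 * (J ^ 3 * J) ≤ J ^ 36 * (J ^ 3 * J) := by gcongr
      rw [h4]
      linarith
    have h7 : 1 / 2 * W ≤ 1 / 2 * p := by gcongr
    rw [← hW] at h3
    linarith
  have h2 : α * E ^ 5 / N ≤ 1 / 2 := by
    rw [div_le_iff₀ hN0]
    have h3 : 2 * α ≤ E ^ 2 := by
      have h4 : J ^ 50 ≤ E ^ 2 := hE.trans (by nlinarith)
      have h5 : 2 * J ^ 3 ≤ J ^ 50 := by
        have h6 : J ^ 50 = J ^ 47 * J ^ 3 := by ring
        have h7 : (2 : ℝ) ≤ J ^ 47 := by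
          calc (2 : ℝ) ≤ 1000 ^ 47 := by norm_num
            _ ≤ J ^ 47 := by gcongr
        rw [h6]; gcongr
      linarith
    have h4 : 2 * α * E ^ 5 ≤ E ^ 2 * E ^ 5 := by gcongr
    have h5 : E ^ 2 * E ^ 5 = E ^ 7 := by ring
    linarith
  linarith

/-- the variance -/
lemma rb_var {α J h W E N : ℝ} {P : Finset ℕ} (nu' : ℕ → ℕ) (hα0 : 0 ≤ α) (hα : α ≤ J ^ 3)
    (hJ : 1000 ≤ J)
    (hh0 : 0 ≤ h) (hh : h ≤ J) (hW : W = J ^ 40) (hP : ∀ p ∈ P, 0 < p)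
    (hnu : ∀ p ∈ P, (nu' p : ℝ) ≤ h) (hss : ∑ p ∈ P, 1 / (p : ℝ) ^ 2 ≤ 1 / W)
    (hs1 : ss P ≤ J) (hE : J ^ 50 ≤ E) (hN : E ^ 7 ≤ N) :
    (α / N) ^ 2 * ∑ p ∈ P, (3 * h * (N / p) + E ^ 5) * (nu' p * (3 * N) / p) ≤ 1 := by
  have hJ0 : 0 < J := by linarith
  have hW0 : 0 < W := by rw [hW]; positivity
  have hE1 : 1 ≤ E := le_trans (one_le_pow₀ (by linarith)) hE
  have hN0 : 0 < N := lt_of_lt_of_le (by positivity) hN
  have h1 : ∑ p ∈ P, (3 * h * (N / p) + E ^ 5) * (nu' p * (3 * N) / p) ≤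
      9 * h ^ 2 * N ^ 2 * (1 / W) + 3 * h * N * E ^ 5 * ss P := by
    calc ∑ p ∈ P, (3 * h * (N / p) + E ^ 5) * (nu' p * (3 * N) / p) ≤
        ∑ p ∈ P, (9 * h ^ 2 * N ^ 2 * (1 / (p : ℝ) ^ 2) + 3 * h * N * E ^ 5 * (1 / p)) := by
          refine sum_le_sum fun p hp => ?_
          have hp0 : (0 : ℝ) < p := by exact_mod_cast hP p hp
          calc (3 * h * (N / p) + E ^ 5) * (nu' p * (3 * N) / p) ≤
              (3 * h * (N / p) + E ^ 5) * (h * (3 * N) / p) := by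
                have := hnu p hp
                gcongr
            _ = _ := by field_simp; ring
      _ = 9 * h ^ 2 * N ^ 2 * ∑ p ∈ P, 1 / (p : ℝ) ^ 2 + 3 * h * N * E ^ 5 * ss P := by
        rw [sum_add_distrib, ← mul_sum, ← mul_sum]; rfl
      _ ≤ _ := by gcongr
  have h2 : (α / N) ^ 2 * ∑ p ∈ P, (3 * h * (N / p) + E ^ 5) * (nu' p * (3 * N) / p) ≤
      (α / N) ^ 2 * (9 * h ^ 2 * N ^ 2 * (1 / W) + 3 * h * N * E ^ 5 * ss P) := by gcongr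
  refine h2.trans ?_
  have e : (α / N) ^ 2 * (9 * h ^ 2 * N ^ 2 * (1 / W) + 3 * h * N * E ^ 5 * ss P) =
      9 * α ^ 2 * h ^ 2 / W + 3 * α ^ 2 * h * E ^ 5 * ss P / N := by
    field_simp
  rw [e]
  have hs0 : 0 ≤ ss P := ss_nonneg P
  have h3 : 9 * α ^ 2 * h ^ 2 / W ≤ 1 / 2 := by
    rw [div_le_iff₀ hW0]
    have h4 : 9 * α ^ 2 * h ^ 2 ≤ 9 * (J ^ 3) ^ 2 * J ^ 2 := by gcongr
    have h5 : 9 * (J ^ 3) ^ 2 * J ^ 2 ≤ 1 / 2 * J ^ 40 := by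
      have h6 : J ^ 40 = J ^ 32 * ((J ^ 3) ^ 2 * J ^ 2) := by ring
      have h7 : (18 : ℝ) ≤ J ^ 32 := by
        calc (18 : ℝ) ≤ 1000 ^ 32 := by norm_num
          _ ≤ J ^ 32 := by gcongr
      have h8 : 18 * ((J ^ 3) ^ 2 * J ^ 2) ≤ J ^ 32 * ((J ^ 3) ^ 2 * J ^ 2) := by gcongr
      rw [h6]
      linarith
    rw [hW]
    linarith
  have h4 : 3 * α ^ 2 * h * E ^ 5 * ss P / N ≤ 1 / 2 := by
    rw [div_le_iff₀ hN0]
    have h5 : 3 * α ^ 2 * h * E ^ 5 * ss P ≤ 3 * (J ^ 3) ^ 2 * J * E ^ 5 * J := by gcongr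
    have h6 : 6 * ((J ^ 3) ^ 2 * J * J) ≤ E ^ 2 := by
      have h7 : J ^ 50 ≤ E ^ 2 := hE.trans (by nlinarith)
      have h8 : 6 * ((J ^ 3) ^ 2 * J * J) ≤ J ^ 50 := by
        have h9 : J ^ 50 = J ^ 42 * ((J ^ 3) ^ 2 * J * J) := by ring
        have h10 : (6 : ℝ) ≤ J ^ 42 := by
          calc (6 : ℝ) ≤ 1000 ^ 42 := by norm_num
            _ ≤ J ^ 42 := by gcongr
        rw [h9]; gcongr
      linarith
    have h7 : 6 * ((J ^ 3) ^ 2 * J * J) * E ^ 5 ≤ E ^ 2 * E ^ 5 := by gcongr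
    have h8 : E ^ 2 * E ^ 5 = E ^ 7 := by ring
    have h9 : 6 * ((J ^ 3) ^ 2 * J * J) * E ^ 5 = 2 * (3 * (J ^ 3) ^ 2 * J * E ^ 5 * J) := by ring
    linarith
  linarith

/-- the total probability -/
lemma rb_tot {J v S gK : ℝ} {j : ℕ} (hJj : J = j) (hJ : 1000 ≤ J)
    (hv : v ≤ -(4 * J ^ 2) + 1) (hS : S ≤ Real.exp (2 * J)) (hg0 : 0 ≤ gK)
    (hg : gK ≤ Real.exp J) :
    2 * Real.exp v + S * (gK * (Real.exp 1 * (1 / 2) ^ (j ^ 2))) ≤ Real.exp (-(J ^ 2 / 2)) := by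
  have hL1 := Real.log_two_gt_d9
  have hL2 := Real.log_two_lt_d9
  have h2 : (1 / 2 : ℝ) = Real.exp (-Real.log 2) := by
    rw [Real.exp_neg, Real.exp_log (by norm_num)]; norm_num
  have h22 : (2 : ℝ) = Real.exp (Real.log 2) := (Real.exp_log (by norm_num)).symm
  have h3 : (1 / 2 : ℝ) ^ (j ^ 2) = Real.exp (-(Real.log 2 * J ^ 2)) := by
    rw [h2, ← Real.exp_nat_mul]; congr 1; rw [hJj]; push_cast; ring
  have h4 : 2 * Real.exp v ≤ 1 / 2 * Real.exp (-(J ^ 2 / 2)) := by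
    have h5 : 2 * Real.exp v = Real.exp (Real.log 2 + v) := by
      rw [Real.exp_add, Real.exp_log (by norm_num)]
    rw [h5, h2, ← Real.exp_add]
    refine Real.exp_le_exp.2 ?_
    nlinarith
  have h5 : S * (gK * (Real.exp 1 * (1 / 2) ^ (j ^ 2))) ≤ 1 / 2 * Real.exp (-(J ^ 2 / 2)) := by
    rw [h3]
    calc S * (gK * (Real.exp 1 * Real.exp (-(Real.log 2 * J ^ 2)))) ≤
        Real.exp (2 * J) * (Real.exp J * (Real.exp 1 * Real.exp (-(Real.log 2 * J ^ 2)))) := by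
          gcongr
      _ = Real.exp (2 * J + (J + (1 + -(Real.log 2 * J ^ 2)))) := by
        rw [Real.exp_add, Real.exp_add, Real.exp_add]
      _ ≤ Real.exp (-Real.log 2 + -(J ^ 2 / 2)) := by
        refine Real.exp_le_exp.2 ?_
        nlinarith
      _ = _ := by rw [Real.exp_add, ← h2]
  linarith

end Pool.Agent.H532.UT
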