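import Mathlib
import Pool.Agent.H532.UT.Num
import Pool.Agent.H532.UN.Block2

/-!
One interval, one pattern.
-/

namespace Pool.Agent.H532.UT

open Finset Filter MeasureTheory Function Pool.Agent.H532.RM Pool.Agent.H532.UN
open scoped Topology ENNReal

/-- the surviving positions -/
def Qs (H : Finset ℕ) (a : ℕ → ℕ) (W Z m U : ℕ) : Finset ℕ :=
  surv (OmD H) (bigP W Z) a (TT H a (primesLe W) m U)

lemma TT_empty {H Q : Finset ℕ} (hQ : ∀ q ∈ Q, q.Prime) (h : pr H Q = 0) (a : ℕ → ℕ) (m U : ℕ) :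
    TT H a Q m U = ∅ := by
  unfold pr at h
  obtain ⟨q, hq, h1⟩ := prod_eq_zero_iff.1 h
  have hq0 := (hQ q hq).pos
  have hq0' : (q : ℝ) ≠ 0 := by exact_mod_cast hq0.ne'
  have h2 : nu H q = q := by
    have h3 : (nu H q : ℝ) / q = 1 := by linarith
    rw [div_eq_one_iff_eq hq0'] at h3
    exact_mod_cast h3
  have h3 : H.image (· % q) = range q := by
    refine eq_of_subset_of_card_le ?_ ?_
    · intro r hr
      obtain ⟨i, _, rfl⟩ := mem_image.1 hr
      exact mem_range.2 (Nat.mod_lt _ hq0)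
    · rw [card_range]; exact h2.ge
  rw [Finset.eq_empty_iff_forall_notMem]
  intro n hn
  obtain ⟨_, h4⟩ := mem_TT.1 hn
  have h5 : (a q + (q - n % q)) % q ∈ H.image (· % q) := by
    rw [h3]; exact mem_range.2 (Nat.mod_lt _ hq0)
  obtain ⟨i, hi, h6⟩ := mem_image.1 h5
  refine h4 i hi q hq ?_
  have h7 := Nat.mod_lt n hq0
  have h8 : n + i ≡ n % q + (a q + (q - n % q)) [MOD q] := by
    refine Nat.ModEq.add (Nat.mod_modEq n q).symm ?_
    exact h6
  have e : n % q + (a q + (q - n % q)) = a q + q := by omega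
  rw [e] at h8
  have h9 : a q + q ≡ a q [MOD q] := by simp [Nat.ModEq]
  exact h8.trans h9

lemma pr_ge_inv {H : Finset ℕ} {y : ℕ} (h : pr H (primesLe y) ≠ 0) :
    1 / (primorial y : ℝ) ≤ pr H (primesLe y) := by
  have e : (primorial y : ℝ) = ∏ q ∈ primesLe y, (q : ℝ) := by
    have : primorial y = ∏ q ∈ primesLe y, q := rfl
    rw [this]; push_cast; rfl
  rw [e, one_div, ← prod_inv_distrib]
  unfold pr at h ⊢
  refine prod_le_prod (fun q _ => by positivity) fun q hq => ?_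
  have hq0 := (mem_primesLe.1 hq).2.pos
  have hq0' : (0 : ℝ) < q := by exact_mod_cast hq0
  have h1 : 1 - (nu H q : ℝ) / q ≠ 0 := fun h2 => h (prod_eq_zero hq h2)
  have h2 : nu H q ≤ q := nu_le_self H hq0
  have h3 : nu H q ≠ q := fun h3 => h1 (by rw [h3, div_self hq0'.ne', sub_self])
  have h4 : (nu H q : ℝ) + 1 ≤ q := by exact_mod_cast (by omega : nu H q + 1 ≤ q)
  rw [inv_eq_one_div, le_sub_iff_add_le, ← add_div, div_le_one hq0']
  linarith

lemma rpf_ge {P H : Finset ℕ} {W p : ℕ} (hW : 0 < W) (hP : ∀ q ∈ P, q.Prime ∧ W < q) (hp : p ∈ P)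
    (h2 : 2 * H.card ≤ W) :
    Real.exp (-(H.card * ss (P.filter (· < p)))) * Real.exp (-((H.card : ℝ) / W +
      (H.card : ℝ) ^ 2 * (1 / W))) ≤ rpf (nu H) P p := by
  have hPp : ∀ q ∈ P.filter (· ≤ p), q.Prime ∧ W < q := fun q hq => hP q (mem_filter.1 hq).1
  have h3 : rho H.card (P.filter (· ≤ p)) ≤ rpf (nu H) P p :=
    rho_le_pr le_rfl fun q hq => ⟨(hPp q hq).1.pos, by have := (hPp q hq).2; omega⟩
  refine le_trans ?_ h3
  have h4 := rho_ge H.card (P.filter (· ≤ p)) fun q hq => ⟨(hPp q hq).1.pos, by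
    have := (hPp q hq).2; omega⟩
  refine le_trans ?_ h4
  rw [← Real.exp_add]
  refine Real.exp_le_exp.2 ?_
  have h5 := sum_inv_sq_le hW fun q hq => (hPp q hq).2
  rw [ss_le_insert P p hp]
  have hW0 : (0 : ℝ) < W := by exact_mod_cast hW
  have h6 : (1 : ℝ) / p ≤ 1 / W := by
    have : (W : ℝ) ≤ p := by exact_mod_cast (hP p hp).2.le
    gcongr
  have h7 : (H.card : ℝ) * (1 / p) ≤ H.card * (1 / W) := by gcongr
  have h8 : (H.card : ℝ) ^ 2 * ∑ q ∈ P.filter (· ≤ p), 1 / (q : ℝ) ^ 2 ≤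
      (H.card : ℝ) ^ 2 * (1 / W) := by gcongr
  have h9 : (H.card : ℝ) / W = H.card * (1 / W) := by ring
  rw [h9]
  linarith

lemma dens' {h y r : ℕ} {Q : Finset ℕ} (hy : 1 ≤ y) (h2h : 2 * h ≤ y + 1)
    (hQ : ∀ q ∈ Q, q.Prime ∧ y < q) (hx : (h : ℝ) * ss Q + h ≤ r / 3000) {H : Finset ℕ}
    (hH : H.card ≤ h) : Real.exp (-(r / 3000)) ≤ pr H Q ∧
      Real.exp (-(6 * r)) ≤ pr H Q * Real.exp (-(5 * r)) := by
  obtain ⟨h1, h2, h3⟩ := Pool.Agent.H532.UN.dens (r := r) hy (by omega : h ≤ y) h2h hQ hx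
  have h4 : rho h Q ≤ pr H Q := rho_le_pr hH fun q hq => ⟨(hQ q hq).1.pos, by
    have := (hQ q hq).2; omega⟩
  refine ⟨h1.trans h4, h3.trans ?_⟩
  gcongr

theorem blk {κ δ : ℝ} (hκ1 : κ ≤ 1 / 1000) (hδ : 0 < δ) (hδ1 : δ ≤ 1)
    {j y h r Z g : ℕ} (B : BOK κ δ j y h r Z) {H : Finset ℕ} (hH : H.card ≤ h) (hg : Sepg H g)
    (hg0 : 0 < g) (hgJ : (g : ℝ) ≤ (j : ℝ) ^ 5) (m U : ℕ)
    (hU : Real.exp (100 * (κ * j)) ≤ U)
    (hmU : ∀ n ≤ m + U, ∀ i ∈ H, n + i < 2 ^ (j + 4))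
    (ν : ℕ → Measure ℕ) [∀ p, IsProbabilityMeasure (ν p)]
    (hν : ∀ p ∈ bigP (Wj j) Z, UnifOn (ν p) p) (x : ℕ → ℕ) :
    lmarginal ν (bigP (Wj j) Z) (fun a => if δ * (U * pr H (primesLe Z)) <
      |((Qs H a (Wj j) Z m U).card : ℝ) - U * pr H (primesLe Z)| then 1 else 0) x ≤
      ENNReal.ofReal (Real.exp (-((j : ℝ) ^ 2 / 2))) := by
  classical
  obtain ⟨J, hJd⟩ : ∃ J : ℝ, J = j := ⟨_, rfl⟩
  obtain ⟨W, hW⟩ : ∃ W, W = Wj j := ⟨_, rfl⟩
  obtain ⟨E, hE⟩ : ∃ E : ℝ, E = Real.exp (κ * J) := ⟨_, rfl⟩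
  obtain ⟨hJ1, hy1, hyW, hhy, hhJ, hpE, hhs, hRE, hr5, hrE, hJE, hWZ, hZE, hVZ, hhE, hδJ⟩ := B
  have hWJ : (W : ℝ) = J ^ 40 := by rw [hW, hJd]; unfold Wj; push_cast; rfl
  have hj1000 : 1000 ≤ j := by exact_mod_cast hJ1
  rw [← hW] at hyW hhs hRE hWZ hν ⊢
  rw [← hJd] at hJ1 hhJ hpE hRE hrE hJE hZE hVZ hhE hδJ hgJ hU ⊢
  rw [← hE] at hpE hRE hJE
  have hJ0 : 0 < J := by linarith
  have hJW : J ≤ W := by
    rw [hWJ]
    calc J = J ^ 1 := (pow_one J).symm
      _ ≤ J ^ 40 := pow_le_pow_right₀ (by linarith) (by norm_num)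
  have hW0' : (0 : ℝ) < W := by linarith
  have hW0 : 0 < W := by exact_mod_cast hW0'
  clear hW
  have hE50 : J ^ 50 ≤ E := hJE
  have hEJ : J ≤ E := by
    refine le_trans ?_ hE50
    calc J = J ^ 1 := (pow_one J).symm
      _ ≤ J ^ 50 := pow_le_pow_right₀ (by linarith) (by norm_num)
  have hE3 : 3 ≤ E := by linarith
  have hE0 : 0 < E := by linarith
  have hE1 : 1 ≤ E := by linarith
  have hEpow : ∀ n : ℕ, E ^ n = Real.exp (n * (κ * J)) := fun n => by
    rw [hE, ← Real.exp_nat_mul]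
  have hU100 : E ^ 100 ≤ U := by
    rw [hEpow]; exact_mod_cast hU
  obtain ⟨P, hP⟩ : ∃ P, P = bigP W Z := ⟨_, rfl⟩
  obtain ⟨Q2, hQ2⟩ : ∃ Q2, Q2 = bigP y W := ⟨_, rfl⟩
  have hPp : ∀ p ∈ P, p.Prime ∧ W < p ∧ p ≤ Z := fun p hp => by
    rw [hP] at hp
    exact ⟨(mem_bigP.1 hp).1.2, (mem_bigP.1 hp).2, (mem_bigP.1 hp).1.1⟩
  have hQp : ∀ q ∈ Q2, q.Prime ∧ y < q := fun q hq => by
    rw [hQ2] at hq
    exact ⟨(mem_bigP.1 hq).1.2, (mem_bigP.1 hq).2⟩
  have hpZ : pr H (primesLe Z) = pr H (primesLe W) * rf (nu H) P := by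
    rw [hP]; exact pr_split hWZ H
  by_cases hz : pr H (primesLe W) = 0
  · have h1 : ∀ a : ℕ → ℕ, (if δ * (U * pr H (primesLe Z)) <
        |((Qs H a W Z m U).card : ℝ) - U * pr H (primesLe Z)| then (1 : ℝ≥0∞) else 0) = 0 := by
      intro a
      have h2 : Qs H a W Z m U = ∅ := by
        unfold Qs
        rw [TT_empty (fun q hq => (mem_primesLe.1 hq).2) hz a m U]
        unfold surv
        simp
      rw [h2, hpZ, hz]
      simp
    have h3 : (fun a : ℕ → ℕ => (if δ * (U * pr H (primesLe Z)) <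
        |((Qs H a W Z m U).card : ℝ) - U * pr H (primesLe Z)| then (1 : ℝ≥0∞) else 0)) =
        fun _ => 0 := funext h1
    rw [h3]
    unfold lmarginal
    rw [lintegral_zero]
    exact zero_le
  have hp1 : pr H (primesLe W) = pr H (primesLe y) * pr H Q2 := by
    rw [hQ2, ← primesLe_union_bigP hyW, pr_union (disj_bigP y W)]
  obtain ⟨p1, hp1d⟩ : ∃ p1, p1 = pr H (primesLe y) := ⟨_, rfl⟩
  obtain ⟨p2, hp2d⟩ : ∃ p2, p2 = pr H Q2 := ⟨_, rfl⟩
  have hp1n : pr H (primesLe y) ≠ 0 := fun h0 => hz (by rw [hp1, h0, zero_mul])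
  have hp1inv := pr_ge_inv hp1n
  have hp1m := pr_mem H (primesLe y) fun q hq => (mem_primesLe.1 hq).2.pos
  have hp2m := pr_mem H Q2 fun q hq => (hQp q hq).1.pos
  obtain ⟨hd1, hd2⟩ := dens' (r := r) hy1 hhy hQp (by rw [hQ2]; exact hhs) hH
  rw [← hp1d, ← hp2d] at hp1
  rw [← hp1d] at hp1inv hp1m
  rw [← hp2d] at hp2m hd1 hd2
  have hpM0 : (0 : ℝ) < primorial y := by exact_mod_cast primorial_pos y
  have hp1E : 1 / E ≤ p1 := by
    refine le_trans ?_ hp1inv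
    gcongr
  have hp2E : 1 / E ≤ p2 := by
    refine le_trans ?_ hd1
    rw [hE, one_div, ← Real.exp_neg]
    refine Real.exp_le_exp.2 ?_
    have hr0 : (0 : ℝ) ≤ r := Nat.cast_nonneg r
    linarith
  obtain ⟨N, hN⟩ : ∃ N : ℝ, N = U * (p1 * p2) := ⟨_, rfl⟩
  have hN98 : E ^ 98 ≤ N := by
    have hp10 := hp1m.1
    have hp20 := hp2m.1
    rw [hN]
    calc E ^ 98 = E ^ 100 * (1 / E * (1 / E)) := by field_simp
      _ ≤ U * (p1 * p2) := by gcongr
  have hN0 : 0 < N := lt_of_lt_of_le (by positivity) hN98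
  have hpowle : ∀ a b : ℕ, a ≤ b → E ^ a ≤ E ^ b := fun a b hab => pow_le_pow_right₀ hE1 hab
  have hN7 : E ^ 7 ≤ N := (hpowle 7 98 (by norm_num)).trans hN98
  have hδJ' : 100 ≤ δ * J := by
    rw [div_le_iff₀ hδ] at hδJ
    linarith
  have hNE : 100 * E ^ 2 ≤ δ * N := by
    have h1 : 100 * E ^ 2 ≤ δ * J * E ^ 2 := by gcongr
    have h2 : δ * J * E ^ 2 ≤ δ * (E * E ^ 2) := by
      have : δ * J * E ^ 2 = δ * (J * E ^ 2) := by ring
      rw [this]; gcongr
    have h3 : E * E ^ 2 ≤ N := by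
      have : E * E ^ 2 = E ^ 3 := by ring
      rw [this]
      exact (hpowle 3 98 (by norm_num)).trans hN98
    have h4 : δ * (E * E ^ 2) ≤ δ * N := by gcongr
    linarith
  have hNE1 : 100 * E ^ 2 ≤ N := by
    refine hNE.trans ?_
    calc δ * N ≤ 1 * N := by gcongr
      _ = N := one_mul N
  -- the errors of the sieve
  have hEEr : EE h (bigP y W) r ≤ p2 * Real.exp (-(5 * r)) := by
    refine le_trans ?_ hd2
    unfold EE
    refine pow_fact_le _ r ?_ ?_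
    · have := ss_nonneg (bigP y W); positivity
    · have : (0 : ℝ) ≤ h := Nat.cast_nonneg h
      linarith
  have hRRE : RR h (bigP y W) r ≤ E := by
    unfold RR; linarith
  have hEE0 := EE_nonneg h (bigP y W) r
  have hRR0 := RR_nonneg h (bigP y W) r
  -- the set `S`
  obtain ⟨S, hS⟩ : ∃ S, S = TT H x (primesLe W) m U := ⟨_, rfl⟩
  have hScard : |(S.card : ℝ) - N| ≤ δ / 4 * N := by
    have h1 := det_count (r := r) hyW hH x m U
    rw [hp1, ← hp1d, ← hS] at h1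
    exact rb_S h1 (Nat.cast_nonneg U) hp1m.1 hp1m.2 hp2m.1 hp2m.2 hpM0.le hpE hRR0 hRRE hEE0 hEEr
      (Real.exp_pos _).le hr5 hδ1 hE3 hN hNE
  have hS54 : (S.card : ℝ) ≤ 5 / 4 * N := by
    have h1 := (abs_le.1 hScard).2
    have h2 : δ / 4 * N ≤ 1 / 4 * N := by gcongr
    linarith
  have hcls : ∀ p ∈ P, ∀ r0, ((S.filter (fun n => n % p = r0)).card : ℝ) ≤
      1.1 * (N / p) + E ^ 3 := by
    intro p hp r0
    have h1 := det_class (r := r) hyW hH x m U p r0 (hPp p hp).1 (hPp p hp).2.1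
    rw [hp1, ← hp1d, ← hS] at h1
    have hp0 : (0 : ℝ) < p := by exact_mod_cast (hPp p hp).1.pos
    exact rb_C h1 (Nat.cast_nonneg U) hp0 hp1m.1 hp1m.2 hp2m.1 hp2m.2 hpM0.le hpE hRR0 hRRE hEE0
      hEEr (Real.exp_pos _).le (hr5.trans (by linarith)) hE3 hN
  -- the parameters
  have hhc : (H.card : ℝ) ≤ h := by exact_mod_cast hH
  have hH0 : (0 : ℝ) ≤ H.card := Nat.cast_nonneg _
  have hHJ : (H.card : ℝ) ≤ J := by linarith
  have hHE : (H.card : ℝ) ≤ E := hHJ.trans hEJ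
  have hVW := V_pos W
  have hVZ0 := V_pos Z
  have hVW1 : V W ≤ 1 := by
    have h1 := V_anti (Nat.zero_le W)
    rwa [V_zero] at h1
  have hsPle : ss P ≤ Real.log J := by
    rw [hP]
    refine (ss_le_log hWZ).trans ?_
    refine Real.log_le_log (by positivity) ?_
    rw [div_le_iff₀ hVZ0]
    rw [div_le_iff₀ hJ0] at hVZ
    linarith
  have hsP0 : 0 ≤ ss P := ss_nonneg P
  have hlJ : Real.log J ≤ J := (Real.log_le_sub_one_of_pos hJ0).trans (by linarith)
  have hexpE : ∀ p : ℕ, 1 / E ≤ Real.exp (-((H.card : ℝ) * ss (P.filter (· < p)))) := by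
    intro p
    rw [hE, one_div, ← Real.exp_neg]
    refine Real.exp_le_exp.2 ?_
    have h1 : ss (P.filter (· < p)) ≤ ss P := by
      unfold ss
      exact sum_le_sum_of_subset_of_nonneg (filter_subset _ _) fun _ _ _ => by positivity
    have h2 : (H.card : ℝ) * ss (P.filter (· < p)) ≤ h * Real.log J := by
      have h3 := ss_nonneg (P.filter (· < p))
      have h4 := h1.trans hsPle
      gcongr
    linarith
  have h4W : 4 * H.card ≤ W := by
    have h1 : (4 * H.card : ℝ) ≤ W := by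
      rw [hWJ]
      calc (4 * H.card : ℝ) ≤ J * J := by
            have : (4 : ℝ) ≤ J := by linarith
            gcongr
        _ = J ^ 2 := by ring
        _ ≤ J ^ 40 := pow_le_pow_right₀ (by linarith) (by norm_num)
    exact_mod_cast h1
  have hrpf : ∀ p ∈ P, 9 / 10 * Real.exp (-((H.card : ℝ) * ss (P.filter (· < p)))) ≤
      rpf (nu H) P p := by
    intro p hp
    have h1 := rpf_ge hW0 (fun q hq => ⟨(hPp q hq).1, (hPp q hq).2.1⟩) hp
      (H := H) (by omega)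
    refine le_trans ?_ h1
    have h2 : (9 / 10 : ℝ) ≤ Real.exp (-((H.card : ℝ) / W + (H.card : ℝ) ^ 2 * (1 / W))) := by
      have h3 := Real.add_one_le_exp (-((H.card : ℝ) / W + (H.card : ℝ) ^ 2 * (1 / W)))
      have h4 : (H.card : ℝ) / W + (H.card : ℝ) ^ 2 * (1 / W) ≤ 1 / 10 := by
        have h5 : (H.card : ℝ) / W + (H.card : ℝ) ^ 2 * (1 / W) =
            (H.card + (H.card : ℝ) ^ 2) / W := by ring
        rw [h5, div_le_iff₀ hW0', hWJ]
        calc (H.card : ℝ) + (H.card : ℝ) ^ 2 ≤ J + J ^ 2 := by gcongr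
          _ ≤ 2 * J ^ 2 := by nlinarith
          _ ≤ 1 / 10 * J * J ^ 2 := by
            have : (2 : ℝ) ≤ 1 / 10 * J := by linarith
            gcongr
          _ = 1 / 10 * J ^ 3 := by ring
          _ ≤ 1 / 10 * J ^ 40 := by
            have : J ^ 3 ≤ J ^ 40 := pow_le_pow_right₀ (by linarith) (by norm_num)
            linarith
      linarith
    have h6 := (Real.exp_pos (-((H.card : ℝ) * ss (P.filter (· < p))))).le
    calc 9 / 10 * Real.exp (-((H.card : ℝ) * ss (P.filter (· < p)))) =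
        Real.exp (-((H.card : ℝ) * ss (P.filter (· < p)))) * (9 / 10) := by ring
      _ ≤ _ := by gcongr
  have hgq : (g : ℝ) * ((j ^ 2 : ℕ) : ℝ) ≤ E := by
    have h1 : ((j ^ 2 : ℕ) : ℝ) = J ^ 2 := by rw [hJd]; push_cast; rfl
    rw [h1]
    calc (g : ℝ) * J ^ 2 ≤ J ^ 5 * J ^ 2 := by gcongr
      _ = J ^ 7 := by ring
      _ ≤ J ^ 50 := pow_le_pow_right₀ (by linarith) (by norm_num)
      _ ≤ E := hE50
  have hNp : ∀ p ∈ P, 0 ≤ N / p := fun p hp => by positivity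
  set α : ℝ := 8 * J ^ 2 / δ with hα
  have hα0 : 0 ≤ α := by positivity
  have hα3 : α ≤ J ^ 3 := by
    rw [hα, div_le_iff₀ hδ]
    have h1 : J ^ 3 * δ = (δ * J) * J ^ 2 := by ring
    rw [h1]
    have : (8 : ℝ) ≤ δ * J := by linarith
    gcongr
  have hP40 : ∀ p ∈ P, (W : ℝ) ≤ p := fun p hp => by exact_mod_cast (hPp p hp).2.1.le
  have hq2 : ((j ^ 2 : ℕ) : ℝ) = J ^ 2 := by rw [hJd]; push_cast; rfl
  have hmain := conc ν (P := P) (H := H) (W := W) (J := j + 4) (g := g) (by rw [hP]; exact hν) hW0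
    (fun p hp => ⟨(hPp p hp).1, (hPp p hp).2.1⟩) h4W hg hg0 S
    (fun n hn i hi => by
      rw [hS] at hn
      exact hmU n (mem_TT.1 hn).1.2 i hi) (j ^ 2)
    (Nat.one_le_pow _ _ (by omega)) 1
    (by
      rw [div_le_one hW0', hWJ, hq2]
      push_cast
      rw [← hJd]
      calc (J ^ 2 * (H.card : ℝ)) ^ 2 * (J + 4) ≤ (J ^ 2 * J) ^ 2 * (J * J) := by
            have h1 : J + 4 ≤ J * J := by nlinarith
            gcongr
        _ = J ^ 8 := by ring
        _ ≤ J ^ 40 := pow_le_pow_right₀ (by linarith) (by norm_num))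
    (fun p => H.card * (1.1 * (N / p) + E ^ 3)) (fun p => 3 * H.card * (N / p) + E ^ 5) (3 * N)
    (by positivity)
    (fun p hp rr => class_sum H p rr S _ (hPp p hp).1.pos (hcls p hp))
    (fun p hp => rb_c hgq hE3 (hexpE p) (hrpf p hp) hH0 hHE (hNp p hp) rfl)
    (fun p hp => rb_B hgq hE3 (hexpE p) (hrpf p hp) hN0.le hS54 hNE1)
    (α / N) (δ / 2 * N) (by positivity)
    (fun p hp => ⟨by have := hNp p hp; positivity,
      rb_th hα3 hJ1 hH0 hHJ hWJ (hP40 p hp) hE50 hN7⟩) x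
  -- comparison of the events
  have hpt : ∀ w : bigP W Z → ℕ, (if δ * (U * pr H (primesLe Z)) <
      |((Qs H (updateFinset x (bigP W Z) w) W Z m U).card : ℝ) - U * pr H (primesLe Z)|
      then (1 : ℝ≥0∞) else 0) ≤
      (if rf (nu H) P * (δ / 2 * N) ≤ |((surv (OmD H) P (updateFinset x (bigP W Z) w) S).card : ℝ) -
      rf (nu H) P * S.card| then (1 : ℝ≥0∞) else 0) := by
    intro w
    have hrf : 0 < rf (nu H) P := rf_pos _ _ fun p hp => ⟨(hPp p hp).1.pos, by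
      have h1 := nu_le H p
      have h2 := (hPp p hp).2.1
      omega⟩
    have e1 : Qs H (updateFinset x (bigP W Z) w) W Z m U =
        surv (OmD H) P (updateFinset x (bigP W Z) w) S := by
      unfold Qs
      rw [TTH_update, hP, hS]
    have e2 : (U : ℝ) * pr H (primesLe Z) = rf (nu H) P * N := by
      rw [hpZ, hp1, hN]; ring
    rw [e1, e2]
    set X : ℝ := ((surv (OmD H) P (updateFinset x (bigP W Z) w) S).card : ℝ) with hX
    by_cases h1 : δ * (rf (nu H) P * N) < |X - rf (nu H) P * N|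
    · have h2 : rf (nu H) P * (δ / 2 * N) ≤ |X - rf (nu H) P * S.card| := by
        have h3 : |X - rf (nu H) P * N| ≤ |X - rf (nu H) P * S.card| +
            rf (nu H) P * |(S.card : ℝ) - N| := by
          have h4 : X - rf (nu H) P * N = (X - rf (nu H) P * S.card) +
              rf (nu H) P * (S.card - N) := by ring
          rw [h4]
          refine (abs_add_le _ _).trans ?_
          rw [abs_mul, abs_of_pos hrf]
        have h5 : rf (nu H) P * |(S.card : ℝ) - N| ≤ rf (nu H) P * (δ / 4 * N) := by gcongr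
        have h6 : 0 ≤ rf (nu H) P * (δ / 4 * N) := by positivity
        have h7 : δ * (rf (nu H) P * N) = 4 * (rf (nu H) P * (δ / 4 * N)) := by ring
        have h8 : rf (nu H) P * (δ / 2 * N) = 2 * (rf (nu H) P * (δ / 4 * N)) := by ring
        rw [h8]
        rw [h7] at h1
        linarith
      rw [if_pos h1, if_pos h2]
    · rw [if_neg h1]
      exact zero_le
  have hle : lmarginal ν (bigP W Z) (fun a => if δ * (U * pr H (primesLe Z)) <
      |((Qs H a W Z m U).card : ℝ) - U * pr H (primesLe Z)| then (1 : ℝ≥0∞) else 0) x ≤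
      lmarginal ν (bigP W Z) (fun a => if rf (nu H) P * (δ / 2 * N) ≤
        |((surv (OmD H) P a S).card : ℝ) - rf (nu H) P * S.card| then (1 : ℝ≥0∞) else 0) x := by
    unfold lmarginal
    exact lintegral_mono hpt
  rw [← hP] at hle ⊢
  refine hle.trans (hmain.trans (ENNReal.ofReal_le_ofReal ?_))
  have hvar := rb_var (α := α) (J := J) (h := (H.card : ℝ)) (W := (W : ℝ)) (E := E) (N := N)
    (P := P) (nu H) hα0 hα3 hJ1 hH0 hHJ hWJ (fun p hp => (hPp p hp).1.pos)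
    (fun p _ => by exact_mod_cast nu_le H p) (sum_inv_sq_le hW0 fun q hq => (hPp q hq).2.1)
    (hsPle.trans hlJ) hE50 hN7
  have hv : -(α / N * (δ / 2 * N)) + (α / N) ^ 2 *
      ∑ p ∈ P, (3 * H.card * (N / p) + E ^ 5) * (nu H p * (3 * N) / p) ≤ -(4 * J ^ 2) + 1 := by
    have h1 : α / N * (δ / 2 * N) = 4 * J ^ 2 := by
      rw [hα]; field_simp; norm_num
    rw [h1]
    linarith
  have hPS : ∑ p ∈ P, ((p : ℝ) + 1) ≤ Real.exp (2 * J) := by
    have h1 : ∑ p ∈ P, ((p : ℝ) + 1) ≤ ∑ p ∈ P, ((Z : ℝ) + 1) := sum_le_sum fun p hp => by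
      have : (p : ℝ) ≤ Z := by exact_mod_cast (hPp p hp).2.2
      linarith
    rw [sum_const, nsmul_eq_mul] at h1
    have h2 : (P.card : ℝ) ≤ Z + 1 := by
      have h3 : P ⊆ range (Z + 1) := fun p hp => mem_range.2 (by
        have := (hPp p hp).2.2
        omega)
      have h4 := card_le_card h3
      rw [card_range] at h4
      exact_mod_cast h4
    calc ∑ p ∈ P, ((p : ℝ) + 1) ≤ P.card * ((Z : ℝ) + 1) := h1
      _ ≤ (Z + 1) * (Z + 1) := by gcongr
      _ ≤ Real.exp J * Real.exp J := by gcongr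
      _ = Real.exp (2 * J) := by rw [← Real.exp_add]; congr 1; ring
  have hgE : (g : ℝ) ≤ Real.exp J := by
    calc (g : ℝ) ≤ J ^ 5 := hgJ
      _ ≤ J ^ 50 := pow_le_pow_right₀ (by linarith) (by norm_num)
      _ ≤ E := hE50
      _ ≤ Real.exp J := by
        rw [hE]
        refine Real.exp_le_exp.2 ?_
        nlinarith
  exact rb_tot hJd hJ1 hv hPS (Nat.cast_nonneg g) hgE

end Pool.Agent.H532.UT
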