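import Mathlib
import Pool.Agent.H532.UT.Blk
import Pool.Agent.H532.UN.Final

/-!
All intervals and all patterns at once, almost surely.
-/

namespace Pool.Agent.H532.UT

open Finset Filter MeasureTheory Function Pool.Agent.H532.RM Pool.Agent.H532.UN
open scoped Topology ENNReal

/-- the patterns -/
def Hs (h M : ℕ) : Finset (Finset ℕ) := (range (h + 1)).biUnion fun i => powersetCard i (range M)

lemma mem_Hs {h M : ℕ} {H : Finset ℕ} : H ∈ Hs h M ↔ H.card ≤ h ∧ ∀ i ∈ H, i < M := by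
  unfold Hs
  simp only [mem_biUnion, mem_range, mem_powersetCard]
  constructor
  · rintro ⟨i, hi, hH, rfl⟩
    exact ⟨by omega, fun a ha => mem_range.1 (hH ha)⟩
  · rintro ⟨h1, h2⟩
    exact ⟨H.card, by omega, fun a ha => mem_range.2 (h2 a ha), rfl⟩

lemma card_Hs_le {h M : ℕ} (hM : 1 ≤ M) : (Hs h M).card ≤ (h + 1) * M ^ h := by
  unfold Hs
  calc ((range (h + 1)).biUnion fun i => powersetCard i (range M)).card ≤
      ∑ i ∈ range (h + 1), (powersetCard i (range M)).card := card_biUnion_le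
    _ ≤ ∑ i ∈ range (h + 1), M ^ h := by
      refine sum_le_sum fun i hi => ?_
      rw [card_powersetCard, card_range]
      exact (Nat.choose_le_pow M i).trans (Nat.pow_le_pow_right hM (by
        have := mem_range.1 hi
        omega))
    _ = (h + 1) * M ^ h := by rw [sum_const, card_range, smul_eq_mul]

lemma dep_Qs (H : Finset ℕ) {W Z : ℕ} (hWZ : W ≤ Z) (m U : ℕ) :
    DepOn (primesLe Z) (fun a => Qs H a W Z m U) := by
  intro a b hab
  show Qs H a W Z m U = Qs H b W Z m U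
  unfold Qs
  have h1 : TT H a (primesLe W) m U = TT H b (primesLe W) m U :=
    TT_congr _ _ _ _ _ _ fun p hp => by rw [hab p (primesLe_mono hWZ hp)]
  rw [h1]
  exact surv_congr _ _ a b _ fun p hp => hab p (mem_primesLe.2 (mem_bigP.1 hp).1)

section
variable {Ω : Type} [MeasurableSpace Ω] {μ : Measure Ω} [IsProbabilityMeasure μ]
  {A : ℕ → Ω → ℕ}

theorem ae_unif (hA : RandomClasses μ A) {κ δ : ℝ} (hκ1 : κ ≤ 1 / 1000)
    (hδ : 0 < δ) (hδ1 : δ ≤ 1) (y h r Z : ℕ → ℕ)
    (hB : ∀ᶠ j : ℕ in atTop, BOK κ δ j (y j) (h j) (r j) (Z j)) :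
    ∀ᵐ ω ∂μ, ∀ᶠ j : ℕ in atTop, ∀ H : Finset ℕ, H.card ≤ h j → (∀ i ∈ H, i < 2 ^ (j + 2)) →
      ∀ m U : ℕ, m + U ≤ 2 ^ (j + 3) → Real.exp (100 * (κ * j)) ≤ U →
      |((TT H (fun p => A p ω) (primesLe (Z j)) m U).card : ℝ) - U * pr H (primesLe (Z j))| ≤
        δ * (U * pr H (primesLe (Z j))) := by
  classical
  set Bd : ℕ → ℕ → ℕ → Finset ℕ → Set Ω := fun j m U H => {ω | δ * (U * pr H (primesLe (Z j))) <
      |((Qs H (fun p => A p ω) (Wj j) (Z j) m U).card : ℝ) - U * pr H (primesLe (Z j))|} with hBd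
  set E : ℕ → Set Ω := fun j => {ω | ∃ m ∈ range (2 ^ (j + 3) + 1), ∃ U ∈ range (2 ^ (j + 3) + 1),
    ∃ H ∈ Hs (h j) (2 ^ (j + 2)), (m + U ≤ 2 ^ (j + 3) ∧ Real.exp (100 * (κ * j)) ≤ U) ∧
      ω ∈ Bd j m U H} with hE
  have hBC : ∀ᶠ j : ℕ in atTop, μ (E j) ≤ ENNReal.ofReal (1 / (j : ℝ) ^ 2) := by
    filter_upwards [hB, sep_exists, pow_le_exp 3 1 one_pos] with j hBj hsep h3
    have hjr : (1000 : ℝ) ≤ j := hBj.J1
    have hone : ∀ (m U : ℕ) (H : Finset ℕ), H ∈ Hs (h j) (2 ^ (j + 2)) →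
        (m + U ≤ 2 ^ (j + 3) ∧ Real.exp (100 * (κ * j)) ≤ U) →
        μ (Bd j m U H) ≤ ENNReal.ofReal (Real.exp (-((j : ℝ) ^ 2 / 2))) := by
      intro m U H hH ⟨hmU, hU⟩
      obtain ⟨hHc, hHi⟩ := mem_Hs.1 hH
      have hprob := fun p => law_prob hA p
      have hhj : H.card ≤ j := by
        have h1 : ((H.card : ℕ) : ℝ) ≤ j := by
          have h2 := hBj.hJ
          have h3 : (H.card : ℝ) ≤ h j := by exact_mod_cast hHc
          linarith
        exact_mod_cast h1
      obtain ⟨g, hg0, hgJ, hg⟩ := hsep H hhj fun i hi => (hHi i hi).trans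
        (Nat.pow_lt_pow_right (by norm_num) (by omega))
      have hmU' : ∀ n ≤ m + U, ∀ i ∈ H, n + i < 2 ^ (j + 4) := by
        intro n hn i hi
        have h1 := hHi i hi
        have h2 : 2 ^ (j + 4) = 2 ^ (j + 3) + 2 * 2 ^ (j + 2) := by ring
        omega
      have hx := blk hκ1 hδ hδ1 hBj hHc hg hg0 hgJ m U hU hmU' (law μ A)
        (fun p hp => law_unif hA (mem_bigP.1 hp).1.2)
      set f : (ℕ → ℕ) → ℝ≥0∞ := fun a => if δ * (U * pr H (primesLe (Z j))) <
        |((Qs H a (Wj j) (Z j) m U).card : ℝ) - U * pr H (primesLe (Z j))| then 1 else 0 with hf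
      have hdep : DepOn (primesLe (Z j)) f := by
        intro a b hab
        have h1 := dep_Qs H hBj.WZ m U a b hab
        simp only at h1
        rw [hf]
        simp only
        rw [h1]
      have h4 := lintegral_le_of_lmarginal hA (primesLe (Z j))
        (bigP (Wj j) (Z j)) (fun p hp => (mem_primesLe.1 hp).2)
        (fun p hp => mem_primesLe.2 (mem_bigP.1 hp).1) f hdep _ hx
      have hmA : Measurable (fun ω (p : ℕ) => A p ω) := measurable_pi_lambda _ fun p => hA.meas p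
      have hms : MeasurableSet (Bd j m U H) := by
        have h5 : Bd j m U H = (fun ω => f (fun p => A p ω)) ⁻¹' {1} := by
          ext ω
          simp only [hBd, Set.mem_setOf_eq, Set.mem_preimage, Set.mem_singleton_iff, hf]
          split_ifs with h6 <;> simp [h6]
        rw [h5]
        exact (hdep.measurable.comp hmA) (measurableSet_singleton 1)
      refine le_trans (le_of_eq ?_) h4
      rw [← lintegral_indicator_one hms]
      refine lintegral_congr fun ω => ?_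
      rw [Set.indicator_apply, hf]
      simp only [hBd, Set.mem_setOf_eq, Pi.one_apply]
    have hEsub : E j ⊆ ⋃ m ∈ range (2 ^ (j + 3) + 1), ⋃ U ∈ range (2 ^ (j + 3) + 1),
        ⋃ H ∈ Hs (h j) (2 ^ (j + 2)),
        {ω | (m + U ≤ 2 ^ (j + 3) ∧ Real.exp (100 * (κ * j)) ≤ U) ∧ ω ∈ Bd j m U H} := by
      rintro ω ⟨m, hm, U, hU, H, hH, h⟩
      exact Set.mem_biUnion hm (Set.mem_biUnion hU (Set.mem_biUnion hH h))
    have hle : ∀ m ∈ range (2 ^ (j + 3) + 1), ∀ U ∈ range (2 ^ (j + 3) + 1),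
        ∀ H ∈ Hs (h j) (2 ^ (j + 2)),
        μ {ω | (m + U ≤ 2 ^ (j + 3) ∧ Real.exp (100 * (κ * j)) ≤ U) ∧ ω ∈ Bd j m U H} ≤
          ENNReal.ofReal (Real.exp (-((j : ℝ) ^ 2 / 2))) := by
      intro m _ U _ H hH
      by_cases h : (m + U ≤ 2 ^ (j + 3) ∧ Real.exp (100 * (κ * j)) ≤ U)
      · exact (measure_mono fun ω hω => hω.2).trans (hone m U H hH h)
      · have h5 : {ω | (m + U ≤ 2 ^ (j + 3) ∧ Real.exp (100 * (κ * j)) ≤ U) ∧
            ω ∈ Bd j m U H} = ∅ := by
          ext ω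
          simp only [Set.mem_setOf_eq, Set.mem_empty_iff_false, iff_false]
          exact fun h6 => h h6.1
        rw [h5, measure_empty]
        exact zero_le
    have hcard : ((Hs (h j) (2 ^ (j + 2))).card : ℝ) ≤ Real.exp ((j : ℝ) ^ 2 / 8) := by
      have h1 := card_Hs_le (h := h j) (M := 2 ^ (j + 2)) Nat.one_le_two_pow
      have h2 : ((Hs (h j) (2 ^ (j + 2))).card : ℝ) ≤ ((h j : ℝ) + 1) * ((2 : ℝ) ^ (j + 2)) ^ (h j) := by
        exact_mod_cast h1
      refine h2.trans ?_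
      have hlogj : 1 ≤ Real.log j := by
        rw [Real.le_log_iff_exp_le (by linarith)]
        have := Real.exp_one_lt_d9
        linarith
      have hh : (h j : ℝ) ≤ 1 / 1000 * j := by
        have h3 := hBj.hE
        have h4 : κ * j ≤ 1 / 1000 * j := by gcongr
        have h5 : (0 : ℝ) ≤ h j := Nat.cast_nonneg _
        nlinarith
      have h6 : (h j : ℝ) + 1 ≤ Real.exp (h j) := by
        have := Real.add_one_le_exp (h j : ℝ); linarith
      have h7 : (2 : ℝ) ≤ Real.exp 1 := by have := Real.exp_one_gt_d9; linarith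
      have h8 : ((2 : ℝ) ^ (j + 2)) ^ (h j) ≤ Real.exp ((j + 2) * h j) := by
        rw [← pow_mul]
        calc (2 : ℝ) ^ ((j + 2) * h j) ≤ Real.exp 1 ^ ((j + 2) * h j) := by gcongr
          _ = Real.exp ((j + 2) * h j) := by
            rw [← Real.exp_nat_mul]; congr 1; push_cast; ring
      calc ((h j : ℝ) + 1) * ((2 : ℝ) ^ (j + 2)) ^ (h j) ≤
          Real.exp (h j) * Real.exp ((j + 2) * h j) := by gcongr
        _ = Real.exp (h j * (j + 3)) := by rw [← Real.exp_add]; congr 1; ring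
        _ ≤ Real.exp ((j : ℝ) ^ 2 / 8) := by
          refine Real.exp_le_exp.2 ?_
          have h9 : (h j : ℝ) * (j + 3) ≤ 1 / 1000 * j * (2 * j) := by
            gcongr
            linarith
          nlinarith
    have hnn : ∀ c : ℕ, ∀ t : ℝ≥0∞, c • t = ENNReal.ofReal c * t := fun c t => by
      rw [nsmul_eq_mul, ENNReal.ofReal_natCast]
    calc μ (E j) ≤ _ := measure_mono hEsub
      _ ≤ ∑ m ∈ range (2 ^ (j + 3) + 1), μ (⋃ U ∈ range (2 ^ (j + 3) + 1),
        ⋃ H ∈ Hs (h j) (2 ^ (j + 2)),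
        {ω | (m + U ≤ 2 ^ (j + 3) ∧ Real.exp (100 * (κ * j)) ≤ U) ∧ ω ∈ Bd j m U H}) :=
          measure_biUnion_finset_le _ _
      _ ≤ ∑ m ∈ range (2 ^ (j + 3) + 1), ∑ U ∈ range (2 ^ (j + 3) + 1),
        μ (⋃ H ∈ Hs (h j) (2 ^ (j + 2)),
        {ω | (m + U ≤ 2 ^ (j + 3) ∧ Real.exp (100 * (κ * j)) ≤ U) ∧ ω ∈ Bd j m U H}) :=
          sum_le_sum fun m _ => measure_biUnion_finset_le _ _
      _ ≤ ∑ m ∈ range (2 ^ (j + 3) + 1), ∑ U ∈ range (2 ^ (j + 3) + 1),
        ∑ H ∈ Hs (h j) (2 ^ (j + 2)), μ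
        {ω | (m + U ≤ 2 ^ (j + 3) ∧ Real.exp (100 * (κ * j)) ≤ U) ∧ ω ∈ Bd j m U H} :=
          sum_le_sum fun m _ => sum_le_sum fun U _ => measure_biUnion_finset_le _ _
      _ ≤ ∑ m ∈ range (2 ^ (j + 3) + 1), ∑ U ∈ range (2 ^ (j + 3) + 1),
        ∑ H ∈ Hs (h j) (2 ^ (j + 2)), ENNReal.ofReal (Real.exp (-((j : ℝ) ^ 2 / 2))) :=
          sum_le_sum fun m hm => sum_le_sum fun U hU => sum_le_sum fun H hH => hle m hm U hU H hH
      _ = ENNReal.ofReal ((2 ^ (j + 3) + 1 : ℕ) * ((2 ^ (j + 3) + 1 : ℕ) *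
          ((Hs (h j) (2 ^ (j + 2))).card * Real.exp (-((j : ℝ) ^ 2 / 2))))) := by
          rw [sum_const, sum_const, sum_const, card_range, hnn, hnn, hnn,
            ENNReal.ofReal_mul (Nat.cast_nonneg _), ENNReal.ofReal_mul (Nat.cast_nonneg _),
            ENNReal.ofReal_mul (Nat.cast_nonneg _)]
      _ ≤ ENNReal.ofReal (1 / (j : ℝ) ^ 2) := by
          refine ENNReal.ofReal_le_ofReal ?_
          have hj0 : (0 : ℝ) < j := by linarith
          rw [le_div_iff₀ (by positivity)]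
          have h7 : (2 : ℝ) ≤ Real.exp 1 := by have := Real.exp_one_gt_d9; linarith
          have h8 : ((2 ^ (j + 3) + 1 : ℕ) : ℝ) ≤ Real.exp (j + 4) := by
            have h9 : 2 ^ (j + 3) + 1 ≤ 2 ^ (j + 4) := by
              have : 2 ^ (j + 4) = 2 ^ (j + 3) + 2 ^ (j + 3) := by ring
              have := Nat.one_le_two_pow (n := j + 3)
              omega
            calc ((2 ^ (j + 3) + 1 : ℕ) : ℝ) ≤ (2 : ℝ) ^ (j + 4) := by exact_mod_cast h9
              _ ≤ Real.exp 1 ^ (j + 4) := by gcongr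
              _ = Real.exp (j + 4) := by rw [← Real.exp_nat_mul]; congr 1; push_cast; ring
          have h10 : (j : ℝ) ^ 2 ≤ Real.exp j := by
            have h11 : (j : ℝ) ^ 2 ≤ (j : ℝ) ^ 3 := by
              have : (j : ℝ) ^ 3 = j * (j : ℝ) ^ 2 := by ring
              rw [this]
              nlinarith [sq_nonneg (j : ℝ)]
            refine h11.trans ?_
            have := h3
            rw [one_mul] at this
            exact this
          calc ((2 ^ (j + 3) + 1 : ℕ) : ℝ) * (((2 ^ (j + 3) + 1 : ℕ) : ℝ) *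
              ((Hs (h j) (2 ^ (j + 2))).card * Real.exp (-((j : ℝ) ^ 2 / 2)))) * (j : ℝ) ^ 2 ≤
              Real.exp (j + 4) * (Real.exp (j + 4) *
              (Real.exp ((j : ℝ) ^ 2 / 8) * Real.exp (-((j : ℝ) ^ 2 / 2)))) * Real.exp j := by
                gcongr
            _ = Real.exp (3 * j + 8 + ((j : ℝ) ^ 2 / 8 - (j : ℝ) ^ 2 / 2)) := by
              rw [← Real.exp_add, ← Real.exp_add, ← Real.exp_add, ← Real.exp_add]
              congr 1; ring
            _ ≤ Real.exp 0 := by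
              refine Real.exp_le_exp.2 ?_
              nlinarith
            _ = 1 := Real.exp_zero
  have h := borel_cantelli_sq μ E hBC
  filter_upwards [h, Pool.Agent.H532.RM.ae_lt hA] with ω hω hlt
  filter_upwards [hω, hB] with j hj hBj H hH hHi m U hmU hU
  by_contra hcon
  push Not at hcon
  refine hj ⟨m, mem_range.2 (by omega), U, mem_range.2 (by omega), H, mem_Hs.2 ⟨hH, hHi⟩,
    ⟨hmU, hU⟩, ?_⟩
  show δ * (U * pr H (primesLe (Z j))) <
      |((Qs H (fun p => A p ω) (Wj j) (Z j) m U).card : ℝ) - U * pr H (primesLe (Z j))|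
  unfold Qs
  rw [surv_TTH hBj.WZ H m U (fun p => A p ω) fun p hp => hlt p (mem_bigP.1 hp).1.2]
  exact hcon

end

end Pool.Agent.H532.UT
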