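import Mathlib
import Pool.Agent.H532.UT.Blk

/-!
The parameters.
-/

namespace Pool.Agent.H532.UT

open Finset Filter MeasureTheory Function Pool.Agent.H532.RM Pool.Agent.H532.UN
open scoped Topology ENNReal

/-- the sum of `1 / p` between `c0 j` and `j ^ 40` is bounded -/
lemma ss_const (c0 : ℝ) (hc0 : 0 < c0) : ∃ C7 : ℝ, 0 ≤ C7 ∧ ∀ᶠ j : ℕ in atTop,
    ⌊c0 * j⌋₊ ≤ Wj j ∧ 1 ≤ ⌊c0 * j⌋₊ ∧ ss (bigP ⌊c0 * j⌋₊ (Wj j)) ≤ C7 := by
  obtain ⟨c, C, hc, hC, hV⟩ := V_two_sided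
  refine ⟨|Real.log (80 * C / c)|, abs_nonneg _, ?_⟩
  have hr : Tendsto (fun j : ℕ => (j : ℝ)) atTop atTop := tendsto_natCast_atTop_atTop
  filter_upwards [hr.eventually_ge_atTop 100, hr.eventually_ge_atTop (9 / c0 ^ 2),
    hr.eventually_ge_atTop c0] with j e1 e2 e3
  have hj0 : (0 : ℝ) < j := by linarith
  set y : ℕ := ⌊c0 * j⌋₊ with hy
  have hs2 : Real.sqrt j ^ 2 = j := Real.sq_sqrt hj0.le
  have hs3 : 10 ≤ Real.sqrt j := by
    rw [show (10 : ℝ) = Real.sqrt 100 by rw [show (100 : ℝ) = 10 ^ 2 by norm_num]; rw [Real.sqrt_sq (by norm_num)]]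
    exact Real.sqrt_le_sqrt e1
  have hcs : 3 ≤ c0 * Real.sqrt j := by
    have h1 : (3 : ℝ) ^ 2 ≤ (c0 * Real.sqrt j) ^ 2 := by
      rw [mul_pow, hs2]
      rw [div_le_iff₀ (by positivity)] at e2
      linarith
    exact (pow_le_pow_iff_left₀ (by norm_num) (by positivity) (by norm_num)).1 h1
  have hyge : Real.sqrt j ≤ y := by
    have h1 := Nat.sub_one_lt_floor (c0 * j)
    rw [← hy] at h1
    have h2 : c0 * j = (c0 * Real.sqrt j) * Real.sqrt j := by
      rw [mul_assoc, ← sq, hs2]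
    nlinarith
  have hy2 : 2 ≤ y := by
    have h1 : (2 : ℝ) ≤ y := by linarith
    exact_mod_cast h1
  have hyle : (y : ℝ) ≤ c0 * j := Nat.floor_le (by positivity)
  have hyW : y ≤ Wj j := by
    have h1 : (y : ℝ) ≤ (Wj j : ℕ) := by
      unfold Wj
      push_cast
      calc (y : ℝ) ≤ c0 * j := hyle
        _ ≤ j * j := by gcongr
        _ = (j : ℝ) ^ 2 := by ring
        _ ≤ (j : ℝ) ^ 40 := pow_le_pow_right₀ (by linarith) (by norm_num)
    exact_mod_cast h1
  refine ⟨hyW, by omega, ?_⟩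
  refine (ss_le_log hyW).trans (le_trans ?_ (le_abs_self _))
  have h1 := (hV y hy2).2
  have h2 := (hV (Wj j) (hy2.trans hyW)).1
  rw [log_Wj] at h2
  have hlj : 0 < Real.log j := Real.log_pos (by linarith)
  have h3 : 1 / 2 * Real.log j ≤ Real.log y := by
    have h4 : Real.log (Real.sqrt j) ≤ Real.log y := Real.log_le_log (by linarith) hyge
    rw [Real.log_sqrt hj0.le] at h4
    linarith
  have hVy := V_pos y
  have hVW := V_pos (Wj j)
  refine Real.log_le_log (by positivity) ?_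
  rw [div_le_div_iff₀ hVW hc]
  have h5 : V y * (1 / 2 * Real.log j) ≤ C := by
    refine le_trans ?_ h1
    gcongr
  have h6 : V y * Real.log j ≤ 2 * C := by linarith
  have h7 : V y * c ≤ V y * (V (Wj j) * (40 * Real.log j)) := by gcongr
  calc V y * c ≤ V y * (V (Wj j) * (40 * Real.log j)) := h7
    _ = 40 * V (Wj j) * (V y * Real.log j) := by ring
    _ ≤ 40 * V (Wj j) * (2 * C) := by gcongr
    _ = 80 * C * V (Wj j) := by ring

/-- the family of parameters -/
lemma bok_exists (κ δ : ℝ) (hκ : 0 < κ) (hκ1 : κ ≤ 1 / 1000) (hδ : 0 < δ) : ∃ c : ℝ, 0 < c ∧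
    ∀ Z : ℕ → ℕ, (∀ᶠ j : ℕ in atTop, Wj j ≤ Z j ∧ (Z j : ℝ) + 1 ≤ Real.exp j ∧
      1 / (j : ℝ) ≤ V (Z j)) →
    ∀ᶠ j : ℕ in atTop, BOK κ δ j ⌊κ / 2 * j⌋₊ ⌊c * j / Real.log j⌋₊
      ⌊κ / 50 * j / Real.log j⌋₊ (Z j) := by
  obtain ⟨C7, hC7, hss⟩ := ss_const (κ / 2) (by positivity)
  set ε1 : ℝ := κ / 50 with hε1
  have hε10 : 0 < ε1 := by positivity
  set c : ℝ := min (ε1 / (6000 * (C7 + 1))) (κ / 8) with hc
  have hc0 : 0 < c := by
    rw [hc]; refine lt_min ?_ ?_ <;> positivity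
  have hca : c ≤ ε1 / (6000 * (C7 + 1)) := min_le_left _ _
  have hcb : c ≤ κ / 8 := min_le_right _ _
  refine ⟨c, hc0, fun Z hZ => ?_⟩
  have hl : Tendsto (fun j : ℕ => Real.log j) atTop atTop :=
    Real.tendsto_log_atTop.comp tendsto_natCast_atTop_atTop
  have hr : Tendsto (fun j : ℕ => (j : ℝ)) atTop atTop := tendsto_natCast_atTop_atTop
  set R0 : ℝ := max 1 (Real.log (100 / δ)) with hR0
  filter_upwards [hss, hZ, hr.eventually_ge_atTop 1000, hl.eventually_ge_atTop 1,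
    logpow_small 1 (ε1 / (2 * R0 + 2)) (by positivity), pow_le_exp 50 κ hκ,
    hr.eventually_ge_atTop (100 / δ)] with j e1 e2 e3 e4 e5 e6 e7
  obtain ⟨hyW, hy1, hsC⟩ := e1
  obtain ⟨hWZ, hZE, hVZ⟩ := e2
  set y : ℕ := ⌊κ / 2 * j⌋₊ with hy
  set h : ℕ := ⌊c * j / Real.log j⌋₊ with hh
  set r : ℕ := ⌊ε1 * j / Real.log j⌋₊ with hrd
  have hj0 : (0 : ℝ) < j := by linarith
  have hl0 : 0 < Real.log j := by linarith
  have hR01 : 1 ≤ R0 := le_max_left _ _
  have hs : Real.sqrt j ≤ j := by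
    rw [Real.sqrt_le_left hj0.le]; nlinarith
  rw [pow_one] at e5
  have h5 : Real.log j ≤ ε1 / (2 * R0 + 2) * j := e5.trans (by gcongr)
  have h7 : 2 * R0 + 2 ≤ ε1 * j / Real.log j := by
    rw [le_div_iff₀ hl0]
    have h8 : (2 * R0 + 2) * (ε1 / (2 * R0 + 2) * j) = ε1 * j := by field_simp
    calc (2 * R0 + 2) * Real.log j ≤ (2 * R0 + 2) * (ε1 / (2 * R0 + 2) * j) := by gcongr
      _ = ε1 * j := h8
  have h8 : ε1 * j / Real.log j - 1 < r := Nat.sub_one_lt_floor _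
  have h9 : (r : ℝ) ≤ ε1 * j / Real.log j := Nat.floor_le (by linarith)
  have hrR : R0 ≤ r := by linarith
  have hr2 : ε1 * j / Real.log j / 2 ≤ r := by linarith
  have hrl : (r : ℝ) * Real.log j ≤ ε1 * j := by
    calc (r : ℝ) * Real.log j ≤ ε1 * j / Real.log j * Real.log j := by gcongr
      _ = ε1 * j := by field_simp
  have hhle : (h : ℝ) ≤ c * j / Real.log j := Nat.floor_le (by positivity)
  have hhl : (h : ℝ) * Real.log j ≤ c * j := by
    calc (h : ℝ) * Real.log j ≤ c * j / Real.log j * Real.log j := by gcongr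
      _ = c * j := by field_simp
  have hhc : (h : ℝ) ≤ c * j := by
    have h0 : (0 : ℝ) ≤ h := Nat.cast_nonneg _
    nlinarith
  have hr0 : (0 : ℝ) ≤ r := Nat.cast_nonneg _
  have hrc : (r : ℝ) ≤ ε1 * j := by nlinarith
  have hyge : κ / 2 * j < y + 1 := Nat.lt_floor_add_one _
  have hyle : (y : ℝ) ≤ κ / 2 * j := Nat.floor_le (by positivity)
  have hhJ : (h : ℝ) + 1 ≤ j := by
    have h1 : c * j ≤ 1 / 8000 * j := by
      have : c ≤ 1 / 8000 := by linarith
      gcongr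
    linarith
  refine ⟨e3, hy1, hyW, ?_, hhJ, ?_, ?_, ?_, ?_, ?_, e6, hWZ, hZE, hVZ, ?_, e7⟩
  · have h1 : (2 * h : ℝ) ≤ y + 1 := by
      have h2 : 2 * (h : ℝ) ≤ 2 * (κ / 8 * j) := by
        have : (h : ℝ) ≤ κ / 8 * j := hhc.trans (by gcongr)
        linarith
      have h3 : 0 < κ * j := by positivity
      linarith
    exact_mod_cast h1
  · have h1 : (primorial y : ℝ) ≤ 4 ^ y := by exact_mod_cast primorial_le_four_pow y
    refine h1.trans ?_
    have h2 : (4 : ℝ) = Real.exp (2 * Real.log 2) := by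
      rw [two_mul, Real.exp_add, Real.exp_log (by norm_num)]; norm_num
    rw [h2, ← Real.exp_nat_mul]
    refine Real.exp_le_exp.2 ?_
    have hL := Real.log_two_lt_d9
    have hL0 : 0 < Real.log 2 := Real.log_pos (by norm_num)
    calc (y : ℝ) * (2 * Real.log 2) ≤ κ / 2 * j * (2 * 1) := by
          gcongr
          linarith
      _ = κ * j := by ring
  · have h1 : (h : ℝ) * ss (bigP y (Wj j)) + h ≤ h * (C7 + 1) := by
      have : (h : ℝ) * ss (bigP y (Wj j)) ≤ h * C7 := by gcongr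
      linarith
    have h2 : (h : ℝ) * (C7 + 1) ≤ c * j / Real.log j * (C7 + 1) := by gcongr
    have h3 : c * j / Real.log j * (C7 + 1) ≤
        ε1 / (6000 * (C7 + 1)) * j / Real.log j * (C7 + 1) := by gcongr
    have h4 : ε1 / (6000 * (C7 + 1)) * j / Real.log j * (C7 + 1) =
        ε1 * j / Real.log j / 2 / 3000 := by field_simp; norm_num
    linarith
  · have hQcard : ((bigP y (Wj j)).card : ℝ) ≤ (j : ℝ) ^ 40 := by
      have h1 : bigP y (Wj j) ⊆ Ioc 0 (Wj j) := fun q hq => by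
        have := mem_bigP.1 hq
        exact mem_Ioc.2 ⟨this.1.2.pos, this.1.1⟩
      have h2 := card_le_card h1
      rw [Nat.card_Ioc, Nat.sub_zero] at h2
      have h3 : ((bigP y (Wj j)).card : ℝ) ≤ ((Wj j : ℕ) : ℝ) := by exact_mod_cast h2
      unfold Wj at h3
      push_cast at h3
      exact h3
    have h1 : 1 + 3 * ((h : ℝ) * (bigP y (Wj j)).card) ≤ (j : ℝ) ^ 42 := by
      have h3 : (h : ℝ) * (bigP y (Wj j)).card ≤ j * (j : ℝ) ^ 40 := by
        have : (h : ℝ) ≤ j := by linarith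
        gcongr
      have h4 : (j : ℝ) ^ 42 = j * (j * (j : ℝ) ^ 40) := by ring
      have h5 : (1 : ℝ) ≤ j * (j : ℝ) ^ 40 := by
        have h6 : (1 : ℝ) ≤ j := by linarith
        have h7 := one_le_pow₀ h6 (n := 40)
        nlinarith
      rw [h4]
      have h8 : 100 * (j * (j : ℝ) ^ 40) ≤ j * (j * (j : ℝ) ^ 40) := by
        have : (100 : ℝ) ≤ j := by linarith
        gcongr
      linarith
    calc (1 + 3 * ((h : ℝ) * (bigP y (Wj j)).card)) ^ r ≤ ((j : ℝ) ^ 42) ^ r := by gcongr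
      _ = Real.exp (42 * (r * Real.log j)) := by
        rw [← pow_mul]
        rw [show (42 : ℝ) * (r * Real.log j) = ((42 * r : ℕ) : ℝ) * Real.log j by push_cast; ring,
          Real.exp_nat_mul, Real.exp_log hj0]
      _ ≤ Real.exp (κ * j) := by
        refine Real.exp_le_exp.2 ?_
        have : 0 < κ * j := by positivity
        rw [hε1] at hrl
        linarith
  · have h1 : Real.exp (-(5 * r)) ≤ Real.exp (-Real.log (100 / δ)) := by
      refine Real.exp_le_exp.2 ?_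
      have := le_max_right 1 (Real.log (100 / δ))
      rw [← hR0] at this
      linarith
    refine h1.trans (le_of_eq ?_)
    rw [Real.exp_neg, Real.exp_log (by positivity), inv_div]
  · have : 0 < κ * j := by positivity
    rw [hε1] at hrc
    linarith
  · have : c * j ≤ κ * j := by
      have : c ≤ κ := by linarith
      gcongr
    linarith

end Pool.Agent.H532.UT
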