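import Mathlib
import Pool.Agent.H532.UT.Sep

/-!
The singular series.
-/

namespace Pool.Agent.H532.UT

open Finset Filter MeasureTheory Function Pool.Agent.H532.RM Pool.Agent.H532.UN
open scoped Topology ENNReal

lemma exp_le_one_sub {x : ℝ} (h0 : 0 ≤ x) (h1 : x ≤ 1 / 2) : Real.exp (-(2 * x)) ≤ 1 - x := by
  have h2 : 0 < 1 - x := by linarith
  have h3 := Real.one_sub_inv_le_log_of_pos h2
  rw [← Real.le_log_iff_exp_le h2]
  refine le_trans ?_ h3
  have h4 : 1 - (1 - x)⁻¹ = -(x / (1 - x)) := by field_simp; ring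
  rw [h4]
  have h5 : x / (1 - x) ≤ 2 * x := by
    rw [div_le_iff₀ h2]; nlinarith
  linarith

/-- the local factor -/
noncomputable def fac (H : Finset ℕ) (p : ℕ) : ℝ := (1 - (nu H p : ℝ) / p) / (1 - 1 / (p : ℝ)) ^ H.card

/-- the partial products of the singular series -/
noncomputable def Sz (H : Finset ℕ) (Z : ℕ) : ℝ := ∏ p ∈ primesLe Z, fac H p

lemma Sz_eq (H : Finset ℕ) (Z : ℕ) : Sz H Z = pr H (primesLe Z) / V Z ^ H.card := by
  unfold Sz fac pr V
  rw [prod_div_distrib, prod_pow]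

lemma pr_eq_Sz (H : Finset ℕ) (Z : ℕ) : pr H (primesLe Z) = Sz H Z * V Z ^ H.card := by
  rw [Sz_eq]
  have := V_pos Z
  field_simp

lemma one_sub_inv_pos {p : ℕ} (hp : p.Prime) : (0 : ℝ) < 1 - 1 / (p : ℝ) := by
  have h1 : (1 : ℝ) < p := by exact_mod_cast hp.one_lt
  rw [sub_pos, div_lt_one (by linarith)]
  exact h1

lemma fac_nonneg (H : Finset ℕ) {p : ℕ} (hp : p.Prime) : 0 ≤ fac H p := by
  unfold fac
  have h0 : (0 : ℝ) < p := by exact_mod_cast hp.pos
  have h1 : (nu H p : ℝ) ≤ p := by exact_mod_cast nu_le_self H hp.pos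
  have h2 : 0 ≤ 1 - (nu H p : ℝ) / p := by rw [sub_nonneg, div_le_one h0]; exact h1
  have := one_sub_inv_pos hp
  positivity

lemma Sz_nonneg (H : Finset ℕ) (Z : ℕ) : 0 ≤ Sz H Z :=
  prod_nonneg fun _ hp => fac_nonneg H (mem_primesLe.1 hp).2

/-- lower bound for the factors -/
lemma fac_ge (H : Finset ℕ) {p : ℕ} (hp : p.Prime) (h : 2 * H.card ≤ p) :
    Real.exp (-(2 * ((H.card : ℝ) ^ 2 * (1 / (p : ℝ) ^ 2)))) ≤ fac H p := by
  have h0 : (0 : ℝ) < p := by exact_mod_cast hp.pos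
  have hk : (2 * (H.card : ℝ)) ≤ p := by exact_mod_cast h
  set x : ℝ := (H.card : ℝ) / p with hx
  have hx0 : 0 ≤ x := by positivity
  have hx1 : x ≤ 1 / 2 := by rw [hx, div_le_iff₀ h0]; linarith
  have h1 : (nu H p : ℝ) / p ≤ x := by
    have : (nu H p : ℝ) ≤ H.card := by exact_mod_cast nu_le H p
    rw [hx]; gcongr
  have hq := one_sub_inv_pos hp
  have h2 : (1 - 1 / (p : ℝ)) ^ H.card ≤ 1 / (1 + x) := by
    have h3 : (1 - 1 / (p : ℝ)) ≤ Real.exp (-(1 / (p : ℝ))) := by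
      have := Real.add_one_le_exp (-(1 / (p : ℝ))); linarith
    calc (1 - 1 / (p : ℝ)) ^ H.card ≤ Real.exp (-(1 / (p : ℝ))) ^ H.card := by gcongr
      _ = Real.exp (-x) := by rw [← Real.exp_nat_mul]; congr 1; rw [hx]; ring
      _ ≤ 1 / (1 + x) := by
        rw [Real.exp_neg, inv_eq_one_div]
        have := Real.add_one_le_exp x
        have : 1 + x ≤ Real.exp x := by linarith
        gcongr
  have h4 : (1 - x) * (1 + x) ≤ fac H p := by
    unfold fac
    rw [le_div_iff₀ (by positivity)]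
    calc (1 - x) * (1 + x) * (1 - 1 / (p : ℝ)) ^ H.card ≤ (1 - x) * (1 + x) * (1 / (1 + x)) := by
          have : 0 ≤ (1 - x) * (1 + x) := by
            have : 0 ≤ 1 - x := by linarith
            positivity
          gcongr
      _ = 1 - x := by field_simp
      _ ≤ 1 - (nu H p : ℝ) / p := by linarith
  refine le_trans ?_ h4
  have h5 : (1 - x) * (1 + x) = 1 - x ^ 2 := by ring
  have h6 : (H.card : ℝ) ^ 2 * (1 / (p : ℝ) ^ 2) = x ^ 2 := by rw [hx]; ring
  rw [h5, h6]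
  exact exp_le_one_sub (by positivity) (by nlinarith)

/-- upper bound for the factors without collisions -/
lemma fac_le_one (H : Finset ℕ) {p : ℕ} (hp : p.Prime) (h : nu H p = H.card) : fac H p ≤ 1 := by
  have h0 : (1 : ℝ) < p := by exact_mod_cast hp.one_lt
  have hq := one_sub_inv_pos hp
  unfold fac
  rw [div_le_one (by positivity), h]
  have h1 : (-2 : ℝ) ≤ -(1 / (p : ℝ)) := by
    have : 1 / (p : ℝ) ≤ 1 := by rw [div_le_one (by linarith)]; exact h0.le
    linarith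
  have h2 := one_add_mul_le_pow h1 H.card
  have e : (1 : ℝ) + -(1 / (p : ℝ)) = 1 - 1 / p := by ring
  rw [e] at h2
  refine le_trans (le_of_eq ?_) h2
  ring

/-- upper bound for the factors -/
lemma fac_le_exp (H : Finset ℕ) {p : ℕ} (hp : p.Prime) :
    fac H p ≤ Real.exp (2 * (H.card : ℝ) * (1 / p)) := by
  have h2 : (2 : ℝ) ≤ p := by exact_mod_cast hp.two_le
  have h0 : (0 : ℝ) < p := by linarith
  have hq := one_sub_inv_pos hp
  unfold fac
  rw [div_le_iff₀ (by positivity)]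
  have h3 : Real.exp (-(2 * (1 / (p : ℝ)))) ≤ 1 - 1 / (p : ℝ) :=
    exp_le_one_sub (by positivity) (by gcongr)
  have h4 : Real.exp (-(2 * (1 / (p : ℝ)))) ^ H.card ≤ (1 - 1 / (p : ℝ)) ^ H.card := by gcongr
  have h5 : (1 : ℝ) = Real.exp (2 * (H.card : ℝ) * (1 / p)) *
      Real.exp (-(2 * (1 / (p : ℝ)))) ^ H.card := by
    rw [← Real.exp_nat_mul, ← Real.exp_add]
    rw [show (2 * (H.card : ℝ) * (1 / p) + H.card * -(2 * (1 / (p : ℝ)))) = 0 by ring, Real.exp_zero]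
  have h6 : 1 - (nu H p : ℝ) / p ≤ 1 := by
    have : (0 : ℝ) ≤ (nu H p : ℝ) / p := by positivity
    linarith
  calc 1 - (nu H p : ℝ) / p ≤ 1 := h6
    _ = Real.exp (2 * (H.card : ℝ) * (1 / p)) * Real.exp (-(2 * (1 / (p : ℝ)))) ^ H.card := h5
    _ ≤ _ := by gcongr

lemma Sz_split (H : Finset ℕ) {Z Z' : ℕ} (h : Z ≤ Z') :
    Sz H Z' = Sz H Z * ∏ p ∈ bigP Z Z', fac H p := by
  unfold Sz
  rw [← primesLe_union_bigP h, prod_union (disj_bigP Z Z')]

/-- the primes with collisions -/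
lemma card_coll (H : Finset ℕ) {J : ℕ} (hH : ∀ i ∈ H, i < 2 ^ J) (P : Finset ℕ)
    (hP : ∀ p ∈ P, p.Prime ∧ nu H p ≠ H.card) : P.card ≤ H.card * H.card * J := by
  classical
  set Bad : Finset ℕ := (H ×ˢ H).biUnion (fun x => (Nat.dist x.1 x.2).primeFactors) with hB
  have hBc : Bad.card ≤ H.card * H.card * J := by
    calc Bad.card ≤ ∑ x ∈ H ×ˢ H, (Nat.dist x.1 x.2).primeFactors.card := card_biUnion_le
      _ ≤ ∑ x ∈ H ×ˢ H, J := by
        refine sum_le_sum fun x hx => ?_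
        obtain ⟨h1, h2⟩ := mem_product.1 hx
        rcases Nat.eq_zero_or_pos (Nat.dist x.1 x.2) with h0 | h0
        · rw [h0]; simp
        · refine (card_primeFactors_lt h0 ?_).le
          have := hH _ h1
          have := hH _ h2
          unfold Nat.dist
          omega
      _ = H.card * H.card * J := by rw [sum_const, card_product, smul_eq_mul]
  refine (card_le_card ?_).trans hBc
  intro p hp
  obtain ⟨h1, h2⟩ := hP p hp
  have h3 : ¬ Set.InjOn (fun i => i % p) (H : Set ℕ) := by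
    intro h4
    exact h2 (card_image_of_injOn h4)
  unfold Set.InjOn at h3
  push Not at h3
  obtain ⟨i, hi, i', hi', h5, h6⟩ := h3
  refine mem_biUnion.2 ⟨(i, i'), mem_product.2 ⟨mem_coe.1 hi, mem_coe.1 hi'⟩,
    Nat.mem_primeFactors.2 ⟨h1, ?_, fun h7 => h6 (Nat.eq_of_dist_eq_zero h7)⟩⟩
  have h7 : i ≡ i' [MOD p] := h5
  show p ∣ Nat.dist i i'
  rcases le_total i i' with h8 | h8
  · rw [Nat.dist_eq_sub_of_le h8]
    exact (Nat.modEq_iff_dvd' h8).1 h7
  · rw [Nat.dist_eq_sub_of_le_right h8]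
    exact (Nat.modEq_iff_dvd' h8).1 h7.symm

lemma tail_ge (H : Finset ℕ) {Z Z' : ℕ} (hZ : 0 < Z) (h : 2 * H.card ≤ Z) :
    Real.exp (-(2 * (H.card : ℝ) ^ 2 / Z)) ≤ ∏ p ∈ bigP Z Z', fac H p := by
  have h1 : ∀ p ∈ bigP Z Z', p.Prime ∧ Z < p := fun p hp => ⟨(mem_bigP.1 hp).1.2, (mem_bigP.1 hp).2⟩
  calc Real.exp (-(2 * (H.card : ℝ) ^ 2 / Z)) ≤
      Real.exp (∑ p ∈ bigP Z Z', (-(2 * ((H.card : ℝ) ^ 2 * (1 / (p : ℝ) ^ 2))))) := by
        refine Real.exp_le_exp.2 ?_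
        have h2 := sum_inv_sq_le hZ fun p hp => (h1 p hp).2
        rw [sum_neg_distrib, ← mul_sum, ← mul_sum]
        have h3 : (H.card : ℝ) ^ 2 * ∑ p ∈ bigP Z Z', 1 / (p : ℝ) ^ 2 ≤
            (H.card : ℝ) ^ 2 * (1 / Z) := by gcongr
        have h4 : 2 * (H.card : ℝ) ^ 2 / Z = 2 * ((H.card : ℝ) ^ 2 * (1 / Z)) := by ring
        rw [h4]
        linarith
    _ = ∏ p ∈ bigP Z Z', Real.exp (-(2 * ((H.card : ℝ) ^ 2 * (1 / (p : ℝ) ^ 2)))) := Real.exp_sum _ _
    _ ≤ _ := prod_le_prod (fun p _ => (Real.exp_pos _).le) fun p hp =>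
        fac_ge H (h1 p hp).1 (by have := (h1 p hp).2; omega)

lemma tail_le (H : Finset ℕ) {Z Z' J : ℕ} (hZ : 0 < Z) (hH : ∀ i ∈ H, i < 2 ^ J) :
    ∏ p ∈ bigP Z Z', fac H p ≤ Real.exp (2 * (H.card : ℝ) ^ 3 * J / Z) := by
  classical
  have h1 : ∀ p ∈ bigP Z Z', p.Prime ∧ Z < p := fun p hp => ⟨(mem_bigP.1 hp).1.2, (mem_bigP.1 hp).2⟩
  have hZ0 : (0 : ℝ) < Z := by exact_mod_cast hZ
  set Bd := (bigP Z Z').filter (fun p => nu H p ≠ H.card) with hBd
  have hBc : Bd.card ≤ H.card * H.card * J := card_coll H hH Bd fun p hp =>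
    ⟨(h1 p (mem_filter.1 hp).1).1, (mem_filter.1 hp).2⟩
  calc ∏ p ∈ bigP Z Z', fac H p ≤
      ∏ p ∈ bigP Z Z', (if nu H p ≠ H.card then Real.exp (2 * (H.card : ℝ) * (1 / Z)) else 1) := by
        refine prod_le_prod (fun p hp => fac_nonneg H (h1 p hp).1) fun p hp => ?_
        split_ifs with h2
        · refine (fac_le_exp H (h1 p hp).1).trans (Real.exp_le_exp.2 ?_)
          have : (Z : ℝ) ≤ p := by exact_mod_cast (h1 p hp).2.le
          gcongr
        · exact fac_le_one H (h1 p hp).1 (not_not.1 h2)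
    _ = Real.exp (2 * (H.card : ℝ) * (1 / Z)) ^ Bd.card := by
        rw [← prod_filter, prod_const, hBd]
    _ = Real.exp (Bd.card * (2 * (H.card : ℝ) * (1 / Z))) := (Real.exp_nat_mul _ _).symm
    _ ≤ _ := by
        refine Real.exp_le_exp.2 ?_
        have h3 : (Bd.card : ℝ) ≤ H.card * H.card * J := by exact_mod_cast hBc
        calc (Bd.card : ℝ) * (2 * (H.card : ℝ) * (1 / Z)) ≤
            (H.card * H.card * J) * (2 * (H.card : ℝ) * (1 / Z)) := by gcongr
          _ = _ := by ring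

/-- the singular series converges -/
lemma Sz_tendsto (H : Finset ℕ) : ∃ S, Tendsto (Sz H) atTop (𝓝 S) := by
  set Z0 : ℕ := H.sup id + 1 with hZ0
  have hnc : ∀ p, Z0 ≤ p → nu H p = H.card := by
    intro p hp
    refine card_image_of_injOn ?_
    intro i hi i' hi' h
    have h1 : i ≤ H.sup id := le_sup (f := id) (mem_coe.1 hi)
    have h2 : i' ≤ H.sup id := le_sup (f := id) (mem_coe.1 hi')
    have h3 : i % p = i' % p := h
    rwa [Nat.mod_eq_of_lt (by omega), Nat.mod_eq_of_lt (by omega)] at h3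
  have hanti : Antitone (fun n => Sz H (n + Z0)) := by
    refine antitone_nat_of_succ_le fun n => ?_
    rw [Sz_split H (show n + Z0 ≤ n + 1 + Z0 by omega)]
    have h1 : ∏ p ∈ bigP (n + Z0) (n + 1 + Z0), fac H p ≤ 1 := by
      refine prod_le_one (fun p hp => fac_nonneg H (mem_bigP.1 hp).1.2) fun p hp => ?_
      have h2 := mem_bigP.1 hp
      exact fac_le_one H h2.1.2 (hnc p (by omega))
    have h2 := Sz_nonneg H (n + Z0)
    calc Sz H (n + Z0) * ∏ p ∈ bigP (n + Z0) (n + 1 + Z0), fac H p ≤ Sz H (n + Z0) * 1 := by gcongr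
      _ = Sz H (n + Z0) := mul_one _
  have hb : BddBelow (Set.range (fun n => Sz H (n + Z0))) := ⟨0, by
    rintro _ ⟨n, rfl⟩
    exact Sz_nonneg H _⟩
  exact ⟨_, (tendsto_add_atTop_iff_nat Z0).1 (tendsto_atTop_ciInf hanti hb)⟩

/-- the singular series -/
noncomputable def SS (H : Finset ℕ) : ℝ := limUnder atTop (Sz H)

lemma SS_tendsto (H : Finset ℕ) : Tendsto (Sz H) atTop (𝓝 (SS H)) :=
  tendsto_nhds_limUnder (Sz_tendsto H)

lemma SS_nonneg (H : Finset ℕ) : 0 ≤ SS H :=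
  ge_of_tendsto (SS_tendsto H) (Eventually.of_forall fun Z => Sz_nonneg H Z)

lemma SS_ge (H : Finset ℕ) {Z : ℕ} (hZ : 0 < Z) (h : 2 * H.card ≤ Z) :
    Sz H Z * Real.exp (-(2 * (H.card : ℝ) ^ 2 / Z)) ≤ SS H := by
  refine ge_of_tendsto (SS_tendsto H) ?_
  filter_upwards [eventually_ge_atTop Z] with Z' hZ'
  rw [Sz_split H hZ']
  have := Sz_nonneg H Z
  have := tail_ge H (Z' := Z') hZ h
  gcongr

lemma SS_le (H : Finset ℕ) {Z J : ℕ} (hZ : 0 < Z) (hH : ∀ i ∈ H, i < 2 ^ J) :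
    SS H ≤ Sz H Z * Real.exp (2 * (H.card : ℝ) ^ 3 * J / Z) := by
  refine le_of_tendsto (SS_tendsto H) ?_
  filter_upwards [eventually_ge_atTop Z] with Z' hZ'
  rw [Sz_split H hZ']
  have := Sz_nonneg H Z
  have := tail_le H (Z' := Z') hZ hH
  gcongr

/-- admissible sets have a positive singular series -/
lemma SS_pos (H : Finset ℕ) (h : ∀ p : ℕ, p.Prime → ∃ c, ∀ i ∈ H, ¬ i ≡ c [MOD p]) : 0 < SS H := by
  have hnu : ∀ p : ℕ, p.Prime → nu H p < p := by
    intro p hp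
    obtain ⟨c, hc⟩ := h p hp
    have h1 : H.image (· % p) ⊆ (range p).erase (c % p) := by
      intro r hr
      obtain ⟨i, hi, rfl⟩ := mem_image.1 hr
      exact mem_erase.2 ⟨hc i hi, mem_range.2 (Nat.mod_lt _ hp.pos)⟩
    have h2 := card_le_card h1
    rw [card_erase_of_mem (mem_range.2 (Nat.mod_lt _ hp.pos)), card_range] at h2
    have := hp.pos
    unfold nu
    omega
  have hfac : ∀ p : ℕ, p.Prime → 0 < fac H p := by
    intro p hp
    unfold fac
    have h0 : (0 : ℝ) < p := by exact_mod_cast hp.pos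
    have h1 : (nu H p : ℝ) < p := by exact_mod_cast hnu p hp
    have h2 : 0 < 1 - (nu H p : ℝ) / p := by rw [sub_pos, div_lt_one h0]; exact h1
    have := one_sub_inv_pos hp
    positivity
  set Z := 2 * H.card + 1 with hZ
  refine lt_of_lt_of_le ?_ (SS_ge H (Z := Z) (by omega) (by omega))
  have : 0 < Sz H Z := prod_pos fun p hp => hfac p (mem_primesLe.1 hp).2
  positivity

end Pool.Agent.H532.UT
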