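import Mathlib
import Pool.Agent.H532.UT.Sing
import Pool.Agent.H532.UT.Par

/-!
Sieving limits with a rate.
-/

namespace Pool.Agent.H532.UT

open Finset Filter MeasureTheory Function Pool.Agent.H532.RM Pool.Agent.H532.UN
open scoped Topology ENNReal

/-- sieving limits -/
structure Rate (z : ℕ → ℕ) : Prop where
  mono : Monotone z
  rate : ∃ K : ℝ, ∀ᶠ n : ℕ in atTop, |V (z n) * Real.log n - 1| ≤ K / Real.log n

lemma log_tendsto : Tendsto (fun n : ℕ => Real.log n) atTop atTop :=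
  Real.tendsto_log_atTop.comp tendsto_natCast_atTop_atTop

lemma Rate.lim {z : ℕ → ℕ} (hz : Rate z) :
    Tendsto (fun n : ℕ => V (z n) * Real.log n) atTop (𝓝 1) := by
  obtain ⟨K, hK⟩ := hz.rate
  rw [tendsto_iff_norm_sub_tendsto_zero]
  have h1 : Tendsto (fun n : ℕ => K / Real.log n) atTop (𝓝 0) := log_tendsto.const_div_atTop K
  refine squeeze_zero' (Eventually.of_forall fun n => norm_nonneg _) ?_ h1
  filter_upwards [hK] with n hn
  rwa [Real.norm_eq_abs]

/-- the sieving limit of Banks, Ford and Tao -/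
lemma rate_zBFT : Rate zBFT := by
  refine ⟨zBFT_mono, 1, ?_⟩
  obtain ⟨c, C, hc, hC, hV⟩ := V_two_sided
  have h1 : Tendsto (fun n : ℕ => 2 * Real.log n) atTop atTop := log_tendsto.const_mul_atTop (by norm_num)
  have h2 := (Real.isLittleO_log_id_atTop.comp_tendsto h1).bound (show 0 < c / 2 by positivity)
  filter_upwards [h2, log_tendsto.eventually_ge_atTop 2, eventually_ge_atTop 3,
    zBFT_tendsto.eventually_ge_atTop 1] with n e1 e2 e3 e4
  simp only [Function.comp, id, Real.norm_eq_abs] at e1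
  rw [abs_of_nonneg (Real.log_nonneg (by linarith)), abs_of_nonneg (by linarith)] at e1
  have hl0 : 0 < Real.log n := by linarith
  -- `log n ≤ z n`
  have h3 : Real.log n ≤ zBFT n := by
    set Z := ⌈Real.log n⌉₊ with hZ
    have hZ1 : Real.log n ≤ Z := Nat.le_ceil _
    have hZ2 : (Z : ℝ) < Real.log n + 1 := Nat.ceil_lt_add_one hl0.le
    have hZ3 : 2 ≤ Z := by
      have : (2 : ℝ) ≤ Z := by linarith
      exact_mod_cast this
    have h4 := (hV Z hZ3).1
    have h5 : Real.log Z ≤ c * Real.log n := by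
      have h6 : Real.log Z ≤ Real.log (2 * Real.log n) := Real.log_le_log (by
        have : (2 : ℝ) ≤ Z := by exact_mod_cast hZ3
        linarith) (by linarith)
      linarith
    have hVZ := V_pos Z
    have h6 : Z ∈ {z : ℕ | 1 / Real.log n ≤ V z} := by
      show 1 / Real.log n ≤ V Z
      rw [div_le_iff₀ hl0]
      have h7 : c ≤ V Z * (c * Real.log n) := h4.trans (by gcongr)
      have h8 : V Z * (c * Real.log n) = c * (V Z * Real.log n) := by ring
      rw [h8] at h7
      by_contra hcon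
      push Not at hcon
      have : c * (V Z * Real.log n) < c * 1 := by gcongr
      linarith
    have h7 : Z ≤ zBFT n := le_csSup (bdd_of_three e3) h6
    have h8 : (Z : ℝ) ≤ zBFT n := by exact_mod_cast h7
    linarith
  -- two bounds
  have h4 : 1 ≤ V (zBFT n) * Real.log n := by
    have hmem : zBFT n ∈ {z : ℕ | 1 / Real.log n ≤ V z} :=
      Nat.sSup_mem ⟨0, zero_mem e3⟩ (bdd_of_three e3)
    have h2 : 1 / Real.log n ≤ V (zBFT n) := hmem
    rwa [div_le_iff₀ (by linarith)] at h2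
  have h5 : V (zBFT n) * Real.log n ≤ 1 + 1 / (zBFT n : ℝ) := by
    have h3 := one_le_log_three e3
    have hz' : (1 : ℝ) ≤ zBFT n := by exact_mod_cast e4
    have hnm : ¬ (zBFT n + 1 ∈ {z : ℕ | 1 / Real.log n ≤ V z}) := by
      intro h
      have := le_csSup (bdd_of_three e3) h
      unfold zBFT at this
      omega
    have h4 : V (zBFT n + 1) < 1 / Real.log n := not_le.1 hnm
    have h5 := V_succ (zBFT n)
    rw [lt_div_iff₀ (by linarith)] at h4
    have h6 : (1 - 1 / ((zBFT n : ℝ) + 1)) * V (zBFT n) * Real.log n < 1 := by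
      calc (1 - 1 / ((zBFT n : ℝ) + 1)) * V (zBFT n) * Real.log n ≤
          V (zBFT n + 1) * Real.log n := by gcongr
        _ < 1 := h4
    have e : 1 - 1 / ((zBFT n : ℝ) + 1) = zBFT n / (zBFT n + 1) := by
      field_simp; ring
    rw [e] at h6
    have h7 : V (zBFT n) * Real.log n * (zBFT n / (zBFT n + 1)) < 1 := by linarith
    rw [← lt_div_iff₀ (by positivity), one_div_div] at h7
    have e2 : ((zBFT n : ℝ) + 1) / zBFT n = 1 + 1 / zBFT n := by
      field_simp
    rw [e2] at h7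
    exact h7.le
  rw [abs_of_nonneg (by linarith)]
  have h6 : 1 / (zBFT n : ℝ) ≤ 1 / Real.log n := by gcongr
  linarith

lemma zz_aux1 {L J l Z : ℝ} (hL2 : L < 0.6931471808) (hL0 : 0 < L) (hJ : 100 ≤ J) (hZ : 0 < Z)
    (hl : l = Real.log Z) (h3 : l ≤ 0.63 * L * (J + 2)) : Z + 1 ≤ Real.exp J := by
  have h5 : Z ≤ Real.exp (0.9 * J) := by
    rw [← Real.exp_log hZ, ← hl]
    refine Real.exp_le_exp.2 (h3.trans ?_)
    have h1 : 0.63 * L * (J + 2) ≤ 0.63 * 0.6931471808 * (J + 2) := by gcongr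
    norm_num at h1 ⊢
    linarith
  have h6 : (1 : ℝ) ≤ Real.exp (0.9 * J) := Real.one_le_exp (by positivity)
  have h7 : Real.exp J = Real.exp (0.9 * J) * Real.exp (0.1 * J) := by
    rw [← Real.exp_add]; congr 1; ring
  have h8 : (2 : ℝ) ≤ Real.exp (0.1 * J) := by
    have := Real.add_one_le_exp (0.1 * J)
    norm_num at this ⊢
    linarith
  rw [h7]
  have h9 : Real.exp (0.9 * J) * 2 ≤ Real.exp (0.9 * J) * Real.exp (0.1 * J) := by gcongr
  linarith

lemma zz_aux2 {L J v : ℝ} (hL2 : L < 0.6931471808) (hL0 : 0 < L) (hJ : 100 ≤ J) (hv : 0 < v)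
    (h3 : 0.99 ≤ v * ((J + 2) * L)) : 1 / J ≤ v := by
  rw [div_le_iff₀ (by linarith)]
  have h4 : (J + 2) * L ≤ (J + 2) * 0.6931471808 := by gcongr
  have h6 : (J + 2) * L ≤ 0.75 * J := by
    norm_num at h4 ⊢
    linarith
  have h5 : v * ((J + 2) * L) ≤ v * (0.75 * J) := by gcongr
  norm_num at h3 h5 ⊢
  linarith

/-- the sizes of the sieving limits -/
lemma zz {z : ℕ → ℕ} (hz : Rate z) : ∀ᶠ j : ℕ in atTop, Wj j ≤ z (2 ^ j) ∧
    z (2 ^ j) ≤ z (2 ^ (j + 3)) ∧ (z (2 ^ (j + 3)) : ℝ) + 1 ≤ Real.exp j ∧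
    1 / (j : ℝ) ≤ V (z (2 ^ (j + 3))) := by
  have h1 := zfacts z hz.mono hz.lim
  have h2 := (tendsto_add_atTop_nat 2).eventually h1
  filter_upwards [h1, h2, eventually_ge_atTop 100] with j e1 e2 e3
  have hL0 : 0 < Real.log 2 := Real.log_pos (by norm_num)
  have hj : (100 : ℝ) ≤ j := by exact_mod_cast e3
  have hW1 : 0 < Wj (j + 2) := Nat.pos_of_ne_zero (pow_ne_zero _ (by omega))
  have hcast : ((j + 2 : ℕ) : ℝ) = (j : ℝ) + 2 := by push_cast; ring
  refine ⟨e1.WZ, hz.mono (Nat.pow_le_pow_right (by norm_num) (by omega)), ?_, ?_⟩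
  · have h3 := e2.lZ
    have h4 := lt_of_lt_of_le hW1 (e2.WZ.trans e2.ZZ)
    rw [hcast] at h3
    exact zz_aux1 Real.log_two_lt_d9 hL0 hj (Nat.cast_pos.2 h4) rfl h3
  · have h3 := e2.V1
    rw [hcast] at h3
    exact zz_aux2 Real.log_two_lt_d9 hL0 hj (V_pos _) h3

/-- the densities for the `x` of a dyadic block -/
lemma VV {z : ℕ → ℕ} (hz : Rate z) : ∃ C : ℝ, 0 < C ∧ ∀ᶠ j : ℕ in atTop, ∀ x : ℕ, 2 ^ j ≤ x →
    x < 2 ^ (j + 1) → V (z (2 ^ j)) * Real.log x ≤ Real.exp (C / j) ∧
      Real.exp (-(C / j)) ≤ V (z (2 ^ (j + 3))) * Real.log x := by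
  obtain ⟨K0, hK0⟩ := hz.rate
  set K : ℝ := max K0 1 with hKd
  have hK1 : 1 ≤ K := le_max_right _ _
  have hp : Tendsto (fun j : ℕ => 2 ^ j) atTop (atTop : Filter ℕ) :=
    tendsto_pow_atTop_atTop_of_one_lt (by norm_num)
  have h1 := hp.eventually hK0
  have h2 := (hp.comp (tendsto_add_atTop_nat 3)).eventually hK0
  have hr : Tendsto (fun j : ℕ => (j : ℝ)) atTop atTop := tendsto_natCast_atTop_atTop
  refine ⟨4 * K + 6, by linarith, ?_⟩
  filter_upwards [h1, h2, hr.eventually_ge_atTop 100, hr.eventually_ge_atTop (4 * K)] with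
    j e1 e2 e3 e4 x hx1 hx2
  simp only [Function.comp] at e2
  have hL1 := Real.log_two_gt_d9
  have hL2 := Real.log_two_lt_d9
  have hL0 : 0 < Real.log 2 := by linarith
  have hj0 : (0 : ℝ) < j := by linarith
  have hlog1 : Real.log ((2 ^ j : ℕ) : ℝ) = j * Real.log 2 := by push_cast; rw [Real.log_pow]
  have hlog3 : Real.log ((2 ^ (j + 3) : ℕ) : ℝ) = (j + 3) * Real.log 2 := by
    push_cast; rw [Real.log_pow]; push_cast; ring
  rw [hlog1] at e1
  rw [hlog3] at e2
  have hx0 : (0 : ℝ) < x := by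
    have : 0 < x := lt_of_lt_of_le (by positivity) hx1
    exact_mod_cast this
  have hlx1 : j * Real.log 2 ≤ Real.log x := by
    rw [← hlog1]
    exact Real.log_le_log (by positivity) (by exact_mod_cast hx1)
  have hlx2 : Real.log x ≤ (j + 1) * Real.log 2 := by
    have h3 : Real.log ((2 ^ (j + 1) : ℕ) : ℝ) = (j + 1) * Real.log 2 := by
      push_cast; rw [Real.log_pow]; push_cast; ring
    rw [← h3]
    exact Real.log_le_log hx0 (by exact_mod_cast hx2.le)
  have hV1 := V_pos (z (2 ^ j))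
  have hV3 := V_pos (z (2 ^ (j + 3)))
  have hKj : K0 / (j * Real.log 2) ≤ 2 * K / j := by
    rw [div_le_div_iff₀ (by positivity) hj0]
    have h3 : K0 ≤ K := le_max_left _ _
    have h4 : K0 * j ≤ K * j := by gcongr
    have h5 : 2 * K * (j * Real.log 2) = K * j * (2 * Real.log 2) := by ring
    rw [h5]
    have h6 : (1 : ℝ) ≤ 2 * Real.log 2 := by linarith
    have h7 : 0 < K * j := by positivity
    nlinarith
  have hKj3 : K0 / ((j + 3) * Real.log 2) ≤ 2 * K / j := by
    rcases le_or_gt K0 0 with h0 | h0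
    · have h3 : K0 / ((j + 3) * Real.log 2) ≤ 0 := div_nonpos_of_nonpos_of_nonneg h0 (by positivity)
      have h4 : 0 ≤ 2 * K / j := by positivity
      linarith
    · refine le_trans ?_ hKj
      gcongr
      linarith
  constructor
  · have h3 : V (z (2 ^ j)) * (j * Real.log 2) ≤ 1 + 2 * K / j := by
      have := (abs_le.1 e1).2
      linarith
    have h4 : V (z (2 ^ j)) * Real.log x ≤ (1 + 2 * K / j) * (1 + 1 / j) := by
      calc V (z (2 ^ j)) * Real.log x ≤ V (z (2 ^ j)) * ((j + 1) * Real.log 2) := by gcongr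
        _ = V (z (2 ^ j)) * (j * Real.log 2) * (1 + 1 / j) := by field_simp
        _ ≤ _ := by gcongr
    refine h4.trans ?_
    have h5 := Real.add_one_le_exp (2 * K / (j : ℝ))
    have h6 := Real.add_one_le_exp (1 / (j : ℝ))
    have h7 : 1 + 2 * K / (j : ℝ) ≤ Real.exp (2 * K / j) := by linarith
    have h8 : 1 + 1 / (j : ℝ) ≤ Real.exp (1 / j) := by linarith
    calc (1 + 2 * K / j) * (1 + 1 / j) ≤ Real.exp (2 * K / j) * Real.exp (1 / j) := by
          gcongr
      _ = Real.exp ((2 * K + 1) / j) := by rw [← Real.exp_add]; congr 1; ring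
      _ ≤ _ := by
        refine Real.exp_le_exp.2 ?_
        have h9 : 2 * K + 1 ≤ 4 * K + 6 := by linarith
        exact div_le_div_of_nonneg_right h9 hj0.le
  · have h3 : 1 - 2 * K / j ≤ V (z (2 ^ (j + 3))) * ((j + 3) * Real.log 2) := by
      have := (abs_le.1 e2).1
      linarith
    have h4 : 2 * K / j ≤ 1 / 2 := by rw [div_le_iff₀ hj0]; linarith
    have h5 : (3 : ℝ) / (j + 3) ≤ 3 / j := by gcongr; linarith
    have h6 : (3 : ℝ) / j ≤ 1 / 2 := by rw [div_le_iff₀ hj0]; linarith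
    have h7 : Real.exp (-(2 * (2 * K / j))) ≤ 1 - 2 * K / j := exp_le_one_sub (by positivity) h4
    have h8 : Real.exp (-(2 * (3 / (j : ℝ)))) ≤ 1 - 3 / j := exp_le_one_sub (by positivity) h6
    have h9 : (1 - 3 / (j : ℝ)) ≤ j / (j + 3) := by
      have : (j : ℝ) / (j + 3) = 1 - 3 / (j + 3) := by field_simp; ring
      rw [this]; linarith
    calc Real.exp (-((4 * K + 6) / j)) = Real.exp (-(2 * (2 * K / j))) * Real.exp (-(2 * (3 / (j : ℝ)))) := by
          rw [← Real.exp_add]; congr 1; ring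
      _ ≤ (1 - 2 * K / j) * (j / (j + 3)) := by
          have h10 : Real.exp (-(2 * (3 / (j : ℝ)))) ≤ j / (j + 3) := h8.trans h9
          have h11 : 0 ≤ 1 - 2 * K / j := by linarith
          gcongr
      _ ≤ V (z (2 ^ (j + 3))) * ((j + 3) * Real.log 2) * (j / (j + 3)) := by gcongr
      _ = V (z (2 ^ (j + 3))) * (j * Real.log 2) := by field_simp
      _ ≤ _ := by gcongr

/-- the bound for the number of elements in the dyadic block -/
lemma card_scale (c : ℝ) (hc : 0 < c) : ∀ᶠ j : ℕ in atTop, ∀ x : ℕ, 2 ^ j ≤ x → x < 2 ^ (j + 1) →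
    ∀ k : ℕ, (k : ℝ) ≤ c * Real.log x / Real.log (Real.log x) → k ≤ ⌊c * j / Real.log j⌋₊ := by
  filter_upwards [eventually_ge_atTop 1000] with j e3 x hx1 hx2 k hk
  have hL1 := Real.log_two_gt_d9
  have hL2 := Real.log_two_lt_d9
  have hL0 : 0 < Real.log 2 := by linarith
  have hj : (1000 : ℝ) ≤ j := by exact_mod_cast e3
  have hj0 : (0 : ℝ) < j := by linarith
  have hlog1 : Real.log ((2 ^ j : ℕ) : ℝ) = j * Real.log 2 := by push_cast; rw [Real.log_pow]
  have hx0 : (0 : ℝ) < x := by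
    have : 0 < x := lt_of_lt_of_le (by positivity) hx1
    exact_mod_cast this
  have hlx1 : j * Real.log 2 ≤ Real.log x := by
    rw [← hlog1]
    exact Real.log_le_log (by positivity) (by exact_mod_cast hx1)
  have hlx2 : Real.log x ≤ 0.7 * j := by
    have h3 : Real.log ((2 ^ (j + 1) : ℕ) : ℝ) = (j + 1) * Real.log 2 := by
      push_cast; rw [Real.log_pow]; push_cast; ring
    have h4 : Real.log x ≤ (j + 1) * Real.log 2 := by
      rw [← h3]
      exact Real.log_le_log hx0 (by exact_mod_cast hx2.le)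
    norm_num at hL2 ⊢
    nlinarith
  have hlj : 4 ≤ Real.log j := by
    rw [Real.le_log_iff_exp_le hj0]
    have h5 := Real.exp_one_lt_d9
    have h6 : Real.exp 4 = Real.exp 1 ^ 4 := by rw [← Real.exp_nat_mul]; norm_num
    rw [h6]
    calc Real.exp 1 ^ 4 ≤ 2.7182818286 ^ 4 := by gcongr
      _ ≤ 1000 := by norm_num
      _ ≤ j := hj
  have hll : 0.7 * Real.log j ≤ Real.log (Real.log x) := by
    have h4 : Real.log (j * Real.log 2) ≤ Real.log (Real.log x) :=
      Real.log_le_log (by positivity) hlx1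
    rw [Real.log_mul hj0.ne' hL0.ne'] at h4
    have h5 : -0.5 ≤ Real.log (Real.log 2) := by
      have h6 := Real.one_sub_inv_le_log_of_pos hL0
      have h7 : (Real.log 2)⁻¹ ≤ 1.5 := by
        rw [inv_le_comm₀ hL0 (by norm_num)]
        norm_num at hL1 ⊢
        linarith
      norm_num at h7 ⊢
      linarith
    norm_num at h5 ⊢
    linarith
  have hll0 : 0 < Real.log (Real.log x) := lt_of_lt_of_le (by positivity) hll
  refine Nat.le_floor (hk.trans ?_)
  rw [div_le_div_iff₀ hll0 (by linarith)]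
  calc c * Real.log x * Real.log j ≤ c * (0.7 * j) * Real.log j := by gcongr
    _ = c * j * (0.7 * Real.log j) := by ring
    _ ≤ _ := by gcongr

end Pool.Agent.H532.UT
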