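import Mathlib
import Pool.Agent.H532.UT.Lim
import Pool.Agent.H532.UT.Fam

/-!
The asymptotic formula.
-/

namespace Pool.Agent.H532.UT

open Finset Filter MeasureTheory Function Pool.Agent.H532.RM Pool.Agent.H532.UN
open scoped Topology ENNReal

/-- the number of the positions of the pattern `H` in `(x, x + y]` -/
noncomputable def cH (R : Set ℕ) (H : Finset ℕ) (x y : ℕ) : ℕ :=
  {n : ℕ | x < n ∧ n ≤ x + y ∧ ∀ i ∈ H, n + i ∈ R}.ncard

lemma cH_le {z : ℕ → ℕ} (hz : Monotone z) (a : ℕ → ℕ) (H : Finset ℕ) {x y j : ℕ}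
    (hx : 2 ^ j ≤ x) : cH (RB z a) H x y ≤ (TT H a (primesLe (z (2 ^ j))) x y).card := by
  unfold cH
  rw [← Set.ncard_coe_finset]
  refine Set.ncard_le_ncard (fun n hn => ?_) (Finset.finite_toSet _)
  obtain ⟨h1, h2, h3⟩ := hn
  refine mem_coe.2 (mem_TT.2 ⟨⟨h1, h2⟩, fun i hi p hp h4 => ?_⟩)
  have hp' := mem_primesLe.1 hp
  exact h3 i hi p hp'.2 (hp'.1.trans (hz (by omega))) h4

lemma le_cH {z : ℕ → ℕ} (hz : Monotone z) (a : ℕ → ℕ) (H : Finset ℕ) {x y j : ℕ}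
    (hx : x < 2 ^ (j + 1)) (hy : y ≤ x) (hH : ∀ i ∈ H, i ≤ x) :
    (TT H a (primesLe (z (2 ^ (j + 3)))) x y).card ≤ cH (RB z a) H x y := by
  unfold cH
  rw [← Set.ncard_coe_finset]
  refine Set.ncard_le_ncard (fun n hn => ?_) ((Set.finite_Icc x (x + y)).subset
    fun n hn => ⟨hn.1.le, hn.2.1⟩)
  obtain ⟨h1, h2⟩ := mem_TT.1 (mem_coe.1 hn)
  refine ⟨h1.1, h1.2, fun i hi p hp hpz h4 => ?_⟩
  have h5 := hH i hi
  have h6 : 2 ^ (j + 3) = 4 * 2 ^ (j + 1) := by ring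
  exact h2 i hi p (mem_primesLe.2 ⟨hpz.trans (hz (by omega)), hp⟩) h4

lemma rc_up {cnt T y pr1 Sz1 V1 S lx a b δ : ℝ} {k : ℕ} (h1 : cnt ≤ T)
    (h2 : |T - y * pr1| ≤ δ / 4 * (y * pr1)) (h3 : pr1 = Sz1 * V1 ^ k) (hV : 0 < V1)
    (hlx : 0 < lx) (h4 : Sz1 * Real.exp (-a) ≤ S) (hy : 0 ≤ y) (hS : 0 ≤ S)
    (hV1 : V1 * lx ≤ Real.exp (b / k)) (hk : k ≠ 0) (hδ : 0 < δ) (hδ1 : δ ≤ 1)
    (hab : Real.exp (a + b) ≤ 1 + δ / 4) : cnt ≤ (1 + δ) * (S * y / lx ^ k) := by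
  have hk' : (k : ℝ) ≠ 0 := by exact_mod_cast hk
  have e1 : V1 ^ k * lx ^ k ≤ Real.exp b := by
    rw [← mul_pow]
    calc (V1 * lx) ^ k ≤ Real.exp (b / k) ^ k := by gcongr
      _ = Real.exp b := by rw [← Real.exp_nat_mul]; congr 1; field_simp
  have e2 : Sz1 ≤ S * Real.exp a := by
    have h5 : Real.exp (-a) * Real.exp a = 1 := by rw [← Real.exp_add]; simp
    calc Sz1 = Sz1 * Real.exp (-a) * Real.exp a := by rw [mul_assoc, h5, mul_one]
      _ ≤ S * Real.exp a := by gcongr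
  have e3 : pr1 * lx ^ k ≤ S * (1 + δ / 4) := by
    calc pr1 * lx ^ k = Sz1 * (V1 ^ k * lx ^ k) := by rw [h3]; ring
      _ ≤ (S * Real.exp a) * (V1 ^ k * lx ^ k) := by gcongr
      _ ≤ (S * Real.exp a) * Real.exp b := by gcongr
      _ = S * Real.exp (a + b) := by rw [Real.exp_add]; ring
      _ ≤ _ := by gcongr
  have e4 : T ≤ (1 + δ / 4) * (y * pr1) := by
    have := (abs_le.1 h2).2
    linarith
  have e5 : pr1 ≤ S * (1 + δ / 4) / lx ^ k := by
    rw [le_div_iff₀ (by positivity)]; exact e3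
  have e6 : (1 + δ / 4) * (y * pr1) ≤ (1 + δ / 4) * (y * (S * (1 + δ / 4) / lx ^ k)) := by gcongr
  have e7 : (1 + δ / 4) * (y * (S * (1 + δ / 4) / lx ^ k)) =
      (1 + δ / 4) ^ 2 * (S * y / lx ^ k) := by ring
  have e8 : (1 + δ / 4) ^ 2 ≤ 1 + δ := by nlinarith
  have e9 : 0 ≤ S * y / lx ^ k := by positivity
  calc cnt ≤ T := h1
    _ ≤ _ := e4
    _ ≤ _ := e6
    _ = _ := e7
    _ ≤ _ := by gcongr

lemma rc_low {cnt T y pr2 Sz2 V2 S lx a b δ : ℝ} {k : ℕ} (h1 : T ≤ cnt)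
    (h2 : |T - y * pr2| ≤ δ / 4 * (y * pr2)) (h3 : pr2 = Sz2 * V2 ^ k) (hV : 0 < V2)
    (hlx : 0 < lx) (h4 : S ≤ Sz2 * Real.exp a) (hy : 0 ≤ y) (hS : 0 ≤ S)
    (hV2 : Real.exp (-(b / k)) ≤ V2 * lx) (hk : k ≠ 0) (hδ : 0 < δ) (hδ1 : δ ≤ 1)
    (hab : 1 - δ / 4 ≤ Real.exp (-(a + b))) : (1 - δ) * (S * y / lx ^ k) ≤ cnt := by
  have hk' : (k : ℝ) ≠ 0 := by exact_mod_cast hk
  have e1 : Real.exp (-b) ≤ V2 ^ k * lx ^ k := by
    rw [← mul_pow]
    calc Real.exp (-b) = Real.exp (-(b / k)) ^ k := by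
          rw [← Real.exp_nat_mul]; congr 1; field_simp
      _ ≤ (V2 * lx) ^ k := by gcongr
  have e2 : S * Real.exp (-a) ≤ Sz2 := by
    have h5 : Real.exp a * Real.exp (-a) = 1 := by rw [← Real.exp_add]; simp
    calc S * Real.exp (-a) ≤ Sz2 * Real.exp a * Real.exp (-a) := by gcongr
      _ = Sz2 := by rw [mul_assoc, h5, mul_one]
  have hSz : 0 ≤ Sz2 := le_trans (by positivity) e2
  have e3 : S * (1 - δ / 4) ≤ pr2 * lx ^ k := by
    calc S * (1 - δ / 4) ≤ S * Real.exp (-(a + b)) := by gcongr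
      _ = S * Real.exp (-a) * Real.exp (-b) := by
        rw [mul_assoc, ← Real.exp_add]; congr 2; ring
      _ ≤ Sz2 * (V2 ^ k * lx ^ k) := by gcongr
      _ = pr2 * lx ^ k := by rw [h3]; ring
  have e4 : (1 - δ / 4) * (y * pr2) ≤ T := by
    have := (abs_le.1 h2).1
    linarith
  have e5 : S * (1 - δ / 4) / lx ^ k ≤ pr2 := by
    rw [div_le_iff₀ (by positivity)]; exact e3
  have h0 : 0 ≤ 1 - δ / 4 := by linarith
  have e6 : (1 - δ / 4) * (y * (S * (1 - δ / 4) / lx ^ k)) ≤ (1 - δ / 4) * (y * pr2) := by gcongr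
  have e7 : (1 - δ / 4) * (y * (S * (1 - δ / 4) / lx ^ k)) =
      (1 - δ / 4) ^ 2 * (S * y / lx ^ k) := by ring
  have e8 : 1 - δ ≤ (1 - δ / 4) ^ 2 := by nlinarith
  have e9 : 0 ≤ S * y / lx ^ k := by positivity
  calc (1 - δ) * (S * y / lx ^ k) ≤ (1 - δ / 4) ^ 2 * (S * y / lx ^ k) := by gcongr
    _ = _ := e7.symm
    _ ≤ _ := e6
    _ ≤ _ := e4
    _ ≤ _ := h1

lemma Sz_empty (Z : ℕ) : Sz ∅ Z = 1 := by
  unfold Sz fac nu
  simp

lemma SS_empty : SS ∅ = 1 := by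
  have h : Tendsto (Sz ∅) atTop (𝓝 1) := by
    have : Sz ∅ = fun _ => 1 := funext Sz_empty
    rw [this]; exact tendsto_const_nhds
  exact tendsto_nhds_unique (SS_tendsto ∅) h

lemma cH_empty (R : Set ℕ) (x y : ℕ) : cH R ∅ x y = y := by
  unfold cH
  have : {n : ℕ | x < n ∧ n ≤ x + y ∧ ∀ i ∈ (∅ : Finset ℕ), n + i ∈ R} = (Ioc x (x + y) : Finset ℕ) := by
    ext n
    simp
  rw [this, Set.ncard_coe_finset, Nat.card_Ioc]
  omega

/-- the Hardy-Littlewood asymptotic formula, uniformly -/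
theorem hl_unif (ε δ : ℝ) (hε : 0 < ε) (hδ : 0 < δ) (hδ1 : δ ≤ 1) : ∃ c : ℝ, 0 < c ∧
    ∀ z : ℕ → ℕ, Rate z → ∀ {Ω : Type} [MeasurableSpace Ω] {μ : Measure Ω}
      [IsProbabilityMeasure μ] {A : ℕ → Ω → ℕ}, RandomClasses μ A → ∀ᵐ ω ∂μ, ∀ᶠ x : ℕ in atTop,
      ∀ H : Finset ℕ, (H.card : ℝ) ≤ c * Real.log x / Real.log (Real.log x) → (∀ i ∈ H, i ≤ x) →
      ∀ y : ℕ, (x : ℝ) ^ ε ≤ y → y ≤ x →
        |(cH (RB z (fun p => A p ω)) H x y : ℝ) - SS H * y / Real.log x ^ H.card| ≤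
          δ * (SS H * y / Real.log x ^ H.card) := by
  classical
  set κ : ℝ := min (ε / 200) (1 / 1000) with hκ
  have hκ0 : 0 < κ := by rw [hκ]; refine lt_min ?_ ?_ <;> positivity
  have hκε : κ ≤ ε / 200 := min_le_left _ _
  have hκ1 : κ ≤ 1 / 1000 := min_le_right _ _
  obtain ⟨c, hc, hbok⟩ := bok_exists κ (δ / 4) hκ0 hκ1 (by positivity)
  refine ⟨c, hc, fun z hz Ω _ μ _ A hA => ?_⟩
  have hzz := zz hz
  have hB1 := hbok (fun j => z (2 ^ j)) (by
    filter_upwards [hzz] with j hj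
    refine ⟨hj.1, ?_, hj.2.2.2.trans (V_anti hj.2.1)⟩
    have h1 : (z (2 ^ j) : ℝ) ≤ z (2 ^ (j + 3)) := by exact_mod_cast hj.2.1
    have h2 := hj.2.2.1
    linarith)
  have hB2 := hbok (fun j => z (2 ^ (j + 3))) (by
    filter_upwards [hzz] with j hj
    exact ⟨hj.1.trans hj.2.1, hj.2.2.1, hj.2.2.2⟩)
  obtain ⟨C, hC, hVV⟩ := VV hz
  have h1 := ae_unif hA hκ1 (show 0 < δ / 4 by positivity) (by linarith) _ _ _ _ hB1
  have h2 := ae_unif hA hκ1 (show 0 < δ / 4 by positivity) (by linarith) _ _ _ _ hB2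
  filter_upwards [h1, h2] with ω hω1 hω2
  have hr : Tendsto (fun j : ℕ => (j : ℝ)) atTop atTop := tendsto_natCast_atTop_atTop
  have hev : ∀ᶠ j : ℕ in atTop, ∀ x : ℕ, 2 ^ j ≤ x → x < 2 ^ (j + 1) →
      ∀ H : Finset ℕ, (H.card : ℝ) ≤ c * Real.log x / Real.log (Real.log x) → (∀ i ∈ H, i ≤ x) →
      ∀ y : ℕ, (x : ℝ) ^ ε ≤ y → y ≤ x →
        |(cH (RB z (fun p => A p ω)) H x y : ℝ) - SS H * y / Real.log x ^ H.card| ≤
          δ * (SS H * y / Real.log x ^ H.card) := by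
    filter_upwards [hω1, hω2, hzz, hVV, card_scale c hc, hB1, hr.eventually_ge_atTop 1000,
      hr.eventually_ge_atTop (128 / δ), log_tendsto.eventually_ge_atTop 1,
      log_tendsto.eventually_ge_atTop (16 * c * C / δ)] with j u1 u2 u3 u4 u5 u6 u7 u8 u9 u10
    intro x hx1 hx2 H hH hHx y hy1 hy2
    obtain ⟨hWZ1, hZ12, -, -⟩ := u3
    obtain ⟨hV1, hV2⟩ := u4 x hx1 hx2
    have hcard := u5 x hx1 hx2 H.card hH
    have hj0 : (0 : ℝ) < j := by linarith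
    have hL1 := Real.log_two_gt_d9
    have hL0 : 0 < Real.log 2 := by linarith
    have hx0 : (0 : ℝ) < x := by
      have : 0 < x := lt_of_lt_of_le (by positivity) hx1
      exact_mod_cast this
    have hlx1 : j * Real.log 2 ≤ Real.log x := by
      have hlog1 : Real.log ((2 ^ j : ℕ) : ℝ) = j * Real.log 2 := by push_cast; rw [Real.log_pow]
      rw [← hlog1]
      exact Real.log_le_log (by positivity) (by exact_mod_cast hx1)
    have hlx : 0 < Real.log x := lt_of_lt_of_le (by positivity) hlx1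
    rcases Finset.eq_empty_or_nonempty H with rfl | hne
    · rw [cH_empty, SS_empty]
      simp only [card_empty, pow_zero, one_mul, div_one, sub_self, abs_zero]
      have : (0 : ℝ) ≤ y := Nat.cast_nonneg _
      positivity
    have hk0 : H.card ≠ 0 := (card_pos.2 hne).ne'
    have hU : Real.exp (100 * (κ * j)) ≤ y := by
      refine le_trans ?_ hy1
      rw [Real.rpow_def_of_pos hx0]
      refine Real.exp_le_exp.2 ?_
      have h3 : 100 * (κ * j) ≤ 100 * (ε / 200 * j) := by gcongr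
      have h4 : j * Real.log 2 * ε ≤ Real.log x * ε := by gcongr
      have h5 : 0 < ε * j := by positivity
      nlinarith
    have hHi : ∀ i ∈ H, i < 2 ^ (j + 2) := fun i hi => by
      have h3 := hHx i hi
      have h4 : 2 ^ (j + 2) = 2 * 2 ^ (j + 1) := by ring
      omega
    have hmU : x + y ≤ 2 ^ (j + 3) := by
      have h4 : 2 ^ (j + 3) = 4 * 2 ^ (j + 1) := by ring
      omega
    have a1 := u1 H hcard hHi x y hmU hU
    have a2 := u2 H hcard hHi x y hmU hU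
    -- the numbers
    have hkh : (H.card : ℝ) ≤ c * j / Real.log j := by
      have h3 : (H.card : ℝ) ≤ (⌊c * j / Real.log j⌋₊ : ℝ) := by exact_mod_cast hcard
      exact h3.trans (Nat.floor_le (by positivity))
    have hkj : (H.card : ℝ) ≤ j := by
      have h3 := u6.hJ
      have h4 : (H.card : ℝ) ≤ (⌊c * j / Real.log j⌋₊ : ℝ) := by exact_mod_cast hcard
      linarith
    have hb : (H.card : ℝ) * C / j ≤ δ / 16 := by
      have h3 : (H.card : ℝ) * C / j ≤ c * j / Real.log j * C / j := by gcongr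
      have h4 : c * j / Real.log j * C / j = c * C / Real.log j := by field_simp
      have h5 : c * C / Real.log j ≤ δ / 16 := by
        rw [div_le_iff₀ (by linarith)]
        rw [div_le_iff₀ hδ] at u10
        linarith
      linarith
    have hb0 : 0 ≤ (H.card : ℝ) * C / j := by positivity
    have hWj : ((Wj j : ℕ) : ℝ) = (j : ℝ) ^ 40 := by unfold Wj; push_cast; rfl
    have hZ1 : (j : ℝ) ^ 40 ≤ z (2 ^ j) := by rw [← hWj]; exact_mod_cast hWZ1
    have hZ2 : (j : ℝ) ^ 40 ≤ z (2 ^ (j + 3)) := by rw [← hWj]; exact_mod_cast hWZ1.trans hZ12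
    have hj1 : (1 : ℝ) ≤ j := by linarith
    have hj5 : (j : ℝ) ^ 5 ≤ (j : ℝ) ^ 40 := pow_le_pow_right₀ hj1 (by norm_num)
    have hδj : 128 ≤ δ * j := by rw [div_le_iff₀ hδ] at u8; linarith
    have hj50 : 0 < (j : ℝ) ^ 5 := by positivity
    have hZ1p : (0 : ℝ) < z (2 ^ j) := by linarith
    have hZ2p : (0 : ℝ) < z (2 ^ (j + 3)) := by linarith
    have ha1 : 2 * (H.card : ℝ) ^ 2 / z (2 ^ j) ≤ δ / 16 := by
      rw [div_le_iff₀ hZ1p]
      calc 2 * (H.card : ℝ) ^ 2 ≤ 2 * (j : ℝ) ^ 2 := by gcongr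
        _ ≤ 2 * (j : ℝ) ^ 4 := by
          have : (j : ℝ) ^ 2 ≤ (j : ℝ) ^ 4 := pow_le_pow_right₀ hj1 (by norm_num)
          linarith
        _ ≤ δ * j / 64 * (j : ℝ) ^ 4 := by
          have : (2 : ℝ) ≤ δ * j / 64 := by linarith
          gcongr
        _ = δ / 64 * (j : ℝ) ^ 5 := by ring
        _ ≤ δ / 16 * z (2 ^ j) := by
          have h6 : (j : ℝ) ^ 5 ≤ z (2 ^ j) := hj5.trans hZ1
          have h7 : δ / 64 ≤ δ / 16 := by linarith
          gcongr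
    have ha2 : 2 * (H.card : ℝ) ^ 3 * ((j + 1 : ℕ) : ℝ) / z (2 ^ (j + 3)) ≤ δ / 16 := by
      rw [div_le_iff₀ hZ2p]
      calc 2 * (H.card : ℝ) ^ 3 * ((j + 1 : ℕ) : ℝ) ≤ 2 * (j : ℝ) ^ 3 * (2 * j) := by
            push_cast
            gcongr
            linarith
        _ = 4 * (j : ℝ) ^ 4 := by ring
        _ ≤ δ * j / 32 * (j : ℝ) ^ 4 := by
          have : (4 : ℝ) ≤ δ * j / 32 := by linarith
          gcongr
        _ = δ / 32 * (j : ℝ) ^ 5 := by ring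
        _ ≤ δ / 16 * z (2 ^ (j + 3)) := by
          have h6 : (j : ℝ) ^ 5 ≤ z (2 ^ (j + 3)) := hj5.trans hZ2
          have h7 : δ / 32 ≤ δ / 16 := by linarith
          gcongr
    have ha10 : 0 ≤ 2 * (H.card : ℝ) ^ 2 / z (2 ^ j) := by positivity
    have ha20 : 0 ≤ 2 * (H.card : ℝ) ^ 3 * ((j + 1 : ℕ) : ℝ) / z (2 ^ (j + 3)) := by positivity
    have h2k : 2 * H.card ≤ z (2 ^ j) := by
      have h3 : (2 * H.card : ℝ) ≤ z (2 ^ j) := by
        calc (2 * H.card : ℝ) ≤ j * j := by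
              have : (2 : ℝ) ≤ j := by linarith
              gcongr
          _ = (j : ℝ) ^ 2 := by ring
          _ ≤ (j : ℝ) ^ 40 := pow_le_pow_right₀ hj1 (by norm_num)
          _ ≤ _ := hZ1
      exact_mod_cast h3
    have hk' : (H.card : ℝ) ≠ 0 := by exact_mod_cast hk0
    have ebk : (H.card : ℝ) * C / j / H.card = C / j := by field_simp
    have b1 := rc_up (cnt := (cH (RB z (fun p => A p ω)) H x y : ℝ)) (k := H.card)
      (by exact_mod_cast cH_le hz.mono (fun p => A p ω) H hx1) a1 (pr_eq_Sz H _) (V_pos _) hlx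
      (SS_ge H (by exact_mod_cast hZ1p) h2k) (Nat.cast_nonneg y) (SS_nonneg H)
      (b := (H.card : ℝ) * C / j) (by rw [ebk]; exact hV1) hk0 hδ hδ1 (by
        have h3 : 2 * (H.card : ℝ) ^ 2 / z (2 ^ j) + (H.card : ℝ) * C / j ≤ δ / 8 := by linarith
        have h4 := exp_le_one_add_two_mul (by positivity : 0 ≤ 2 * (H.card : ℝ) ^ 2 / z (2 ^ j) +
          (H.card : ℝ) * C / j) (by linarith)
        linarith)
    have b2 := rc_low (cnt := (cH (RB z (fun p => A p ω)) H x y : ℝ)) (k := H.card)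
      (by exact_mod_cast le_cH hz.mono (fun p => A p ω) H hx2 hy2 hHx) a2 (pr_eq_Sz H _)
      (V_pos _) hlx
      (SS_le H (J := j + 1) (by exact_mod_cast hZ2p) fun i hi => (hHx i hi).trans_lt hx2)
      (Nat.cast_nonneg y) (SS_nonneg H)
      (b := (H.card : ℝ) * C / j) (by rw [ebk]; exact hV2) hk0 hδ hδ1 (by
        have h4 := Real.add_one_le_exp (-(2 * (H.card : ℝ) ^ 3 * ((j + 1 : ℕ) : ℝ) /
          z (2 ^ (j + 3)) + (H.card : ℝ) * C / j))
        linarith)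
    rw [abs_le]
    constructor <;> linarith
  obtain ⟨j0, hj0⟩ := eventually_atTop.1 hev
  filter_upwards [eventually_ge_atTop (2 ^ j0)] with x hx
  have hxpos : x ≠ 0 := by
    have : 0 < 2 ^ j0 := by positivity
    omega
  have h3 : 2 ^ (Nat.log 2 x) ≤ x := Nat.pow_log_le_self 2 hxpos
  have h4 : x < 2 ^ (Nat.log 2 x + 1) := Nat.lt_pow_succ_log_self (by norm_num) x
  have h5 : j0 ≤ Nat.log 2 x := by
    by_contra hcon
    push Not at hcon
    have : 2 ^ (Nat.log 2 x + 1) ≤ 2 ^ j0 := Nat.pow_le_pow_right (by norm_num) (by omega)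
    omega
  exact hj0 _ h5 x h3 h4

end Pool.Agent.H532.UT
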