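import Mathlib
import Pool.Agent.H532.UT.Asy
import Pool.Agent.H532.UN.Strict2

/-!
The order of the range is optimal.
-/

namespace Pool.Agent.H532.UT

open Finset Filter MeasureTheory Function Pool.Agent.H532.RM Pool.Agent.H532.UN
open scoped Topology ENNReal

/-- arithmetic progressions -/
def APr (s M k : ℕ) : Finset ℕ := (range k).image (fun i => s + i * M)

lemma APr_card {s M k : ℕ} (hM : 0 < M) : (APr s M k).card = k := by
  unfold APr
  rw [card_image_of_injective, card_range]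
  intro i i' h
  have h1 : i * M = i' * M := by
    have : s + i * M = s + i' * M := h
    omega
  exact Nat.eq_of_mul_eq_mul_right hM h1

lemma nu_APr {s M k p : ℕ} (hp : p.Prime) (hkp : k < p) (hpM : ¬ p ∣ M) :
    nu (APr s M k) p = k := by
  unfold nu APr
  rw [image_image, card_image_of_injOn, card_range]
  intro i hi i' hi' h
  have hi0 := mem_range.1 (mem_coe.1 hi)
  have hi0' := mem_range.1 (mem_coe.1 hi')
  have h1 : s + i * M ≡ s + i' * M [MOD p] := h
  have h2 : i * M ≡ i' * M [MOD p] := Nat.ModEq.add_left_cancel' s h1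
  have h3 : i ≡ i' [MOD p] :=
    Nat.ModEq.cancel_right_of_coprime ((Nat.Prime.coprime_iff_not_dvd hp).2 hpM) h2
  exact Nat.ModEq.eq_of_lt_of_lt h3 (by omega) (by omega)

lemma adm_APr (s k : ℕ) (p : ℕ) (hp : p.Prime) :
    ∃ c, ∀ i ∈ APr s (primorial k) k, ¬ i ≡ c [MOD p] := by
  rcases le_or_gt p k with h | h
  · refine ⟨s + 1, fun i hi h1 => ?_⟩
    obtain ⟨t, _, rfl⟩ := mem_image.1 hi
    have h2 : p ∣ primorial k := (Nat.Prime.dvd_primorial_iff hp).2 h
    have h3 : s + t * primorial k ≡ s + 0 [MOD p] := by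
      refine Nat.ModEq.add_left s ?_
      exact (Nat.modEq_zero_iff_dvd).2 (h2.mul_left t)
    have h4 : s + 0 ≡ s + 1 [MOD p] := h3.symm.trans h1
    have h5 : 0 ≡ 1 [MOD p] := Nat.ModEq.add_left_cancel' s h4
    have h6 := Nat.ModEq.eq_of_lt_of_lt h5 hp.pos hp.one_lt
    omega
  · by_contra hcon
    push Not at hcon
    have h1 : range p ⊆ (APr s (primorial k) k).image (· % p) := by
      intro r hr
      obtain ⟨i, hi, h2⟩ := hcon r
      refine mem_image.2 ⟨i, hi, ?_⟩
      have h3 : i % p = r % p := h2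
      rw [h3, Nat.mod_eq_of_lt (mem_range.1 hr)]
    have h2 := card_le_card h1
    rw [card_range] at h2
    have h3 : ((APr s (primorial k) k).image (· % p)).card ≤ k := by
      refine card_image_le.trans ?_
      rw [APr_card (primorial_pos k)]
    omega

section
variable {Ω : Type} [MeasurableSpace Ω] {μ : Measure Ω} [IsProbabilityMeasure μ]
  {A : ℕ → Ω → ℕ}

theorem miss_prob (hA : RandomClasses μ A) (H : Finset ℕ) (w Z n : ℕ) :
    μ {ω | ∀ p ∈ bigP w Z, A p ω ∉ OmD H n p} ≤
      ENNReal.ofReal (Real.exp (-∑ p ∈ bigP w Z, (nu H p : ℝ) / p)) := by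
  classical
  have := fun p => law_prob hA p
  set P := bigP w Z with hP
  have hpos : ∀ p ∈ P, 0 < p := fun p hp => (mem_bigP.1 hp).1.2.pos
  set f : (ℕ → ℕ) → ℝ≥0∞ := fun a => if ∀ p ∈ P, a p ∉ OmD H n p then 1 else 0 with hf
  have hdep : DepOn (primesLe Z) f := by
    intro a a' h
    rw [hf]
    simp only
    have h1 : (∀ p ∈ P, a p ∉ OmD H n p) ↔ ∀ p ∈ P, a' p ∉ OmD H n p :=
      forall₂_congr fun p hp => by rw [h p (mem_primesLe.2 (mem_bigP.1 hp).1)]
    simp only [h1]
  have hle := lintegral_le_of_lmarginal hA (primesLe Z) P (fun p hp => (mem_primesLe.1 hp).2)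
    (filter_subset _ _) f hdep
    (ENNReal.ofReal (Real.exp (-∑ p ∈ P, (nu H p : ℝ) / p))) (fun x => by
      have hb := box_bound (law μ A) (fun p => OmD H n p) P
        (fun p hp => law_unif hA (mem_bigP.1 hp).1.2) hpos
        (fun p hp => OmD_subset H n p (hpos p hp)) x
      refine hb.trans (le_of_eq ?_)
      congr 3
      exact sum_congr rfl fun p _ => by rw [OmD_card'])
  have hA' : Measurable (fun ω (p : ℕ) => A p ω) := measurable_pi_lambda _ hA.meas
  have hset : {ω | ∀ p ∈ P, A p ω ∉ OmD H n p} = (fun ω => f (fun p => A p ω)) ⁻¹' {1} := by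
    ext ω
    simp only [Set.mem_setOf_eq, Set.mem_preimage, Set.mem_singleton_iff, hf]
    split_ifs with h6
    · exact ⟨fun _ => rfl, fun _ => h6⟩
    · exact ⟨fun h7 => absurd h7 h6, fun h7 => absurd h7 zero_ne_one⟩
  have hms : MeasurableSet {ω | ∀ p ∈ P, A p ω ∉ OmD H n p} := by
    rw [hset]
    exact (hdep.measurable.comp hA') (measurableSet_singleton 1)
  refine le_trans (le_of_eq ?_) hle
  rw [← lintegral_indicator_one hms]
  refine lintegral_congr fun ω => ?_
  rw [Set.indicator_apply, hf]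
  simp only [Set.mem_setOf_eq, Pi.one_apply]

end

lemma miss_of_RB {z : ℕ → ℕ} (hz : Monotone z) (a : ℕ → ℕ) {H : Finset ℕ} {s n w : ℕ}
    (hs : ∀ i ∈ H, s ≤ i) (h : ∀ i ∈ H, n + i ∈ RB z a) :
    ∀ p ∈ bigP w (z s), a p ∉ OmD H n p := by
  intro p hp h1
  obtain ⟨i, hi, h2⟩ := mem_image.1 h1
  have hp' := mem_bigP.1 hp
  refine h i hi p hp'.1.2 (hp'.1.1.trans (hz (by have := hs i hi; omega))) ?_
  show (n + i) % p = a p % p
  rw [← h2, Nat.mod_mod]

/-- the numbers of elements -/
noncomputable def kk (ε : ℝ) (j : ℕ) : ℕ := ⌊(1 + ε / 2) * (Real.log 2 * j) / Real.log j⌋₊ + 1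

lemma kk_facts (ε : ℝ) (hε : 0 < ε) (hε1 : ε ≤ 1) : ∀ᶠ j : ℕ in atTop,
    (1 + ε / 2) * (Real.log 2 * j) / Real.log j ≤ kk ε j ∧ 8 * kk ε j ≤ j ∧
    (kk ε j : ℝ) ≤ (1 + ε) * (Real.log 2 * j / Real.log j) := by
  have hL1 := Real.log_two_gt_d9
  have hL2 := Real.log_two_lt_d9
  have hL0 : 0 < Real.log 2 := by linarith
  filter_upwards [log_tendsto.eventually_ge_atTop 20, eventually_ge_atTop 1000,
    logpow_small 1 (ε / 2 * Real.log 2) (by positivity)] with j e1 e2 e3
  have hj : (1000 : ℝ) ≤ j := by exact_mod_cast e2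
  have hj0 : (0 : ℝ) < j := by linarith
  have hlj : 0 < Real.log j := by linarith
  have h1 : (1 + ε / 2) * (Real.log 2 * j) / Real.log j < kk ε j := by
    unfold kk; push_cast; exact Nat.lt_floor_add_one _
  have h2 : (kk ε j : ℝ) ≤ (1 + ε / 2) * (Real.log 2 * j) / Real.log j + 1 := by
    unfold kk; push_cast
    have := Nat.floor_le (show 0 ≤ (1 + ε / 2) * (Real.log 2 * j) / Real.log j by positivity)
    linarith
  refine ⟨h1.le, ?_, ?_⟩
  · have h3 : (1 + ε / 2) * (Real.log 2 * j) / Real.log j ≤ 3 / 2 * (0.7 * j) / 20 := by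
      have h4 : (1 + ε / 2) * (Real.log 2 * j) ≤ 3 / 2 * (0.7 * j) := by
        have h5 : Real.log 2 ≤ 0.7 := by norm_num; linarith
        have h6 : 1 + ε / 2 ≤ 3 / 2 := by linarith
        gcongr
      gcongr
    have h4 : (8 * kk ε j : ℝ) ≤ j := by
      norm_num at h3
      linarith
    exact_mod_cast h4
  · refine h2.trans ?_
    have h3 : 1 ≤ ε / 2 * (Real.log 2 * j / Real.log j) := by
      rw [mul_div_assoc', le_div_iff₀ hlj, one_mul]
      rw [pow_one] at e3
      have hs : Real.sqrt j ≤ j := by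
        rw [Real.sqrt_le_left hj0.le]; nlinarith
      calc Real.log j ≤ ε / 2 * Real.log 2 * Real.sqrt j := e3
        _ ≤ ε / 2 * Real.log 2 * j := by gcongr
        _ = _ := by ring
    have h4 : (1 + ε / 2) * (Real.log 2 * j) / Real.log j =
        (1 + ε / 2) * (Real.log 2 * j / Real.log j) := by ring
    rw [h4]
    linarith

lemma kk_tendsto (ε : ℝ) (hε : 0 < ε) : Tendsto (kk ε) atTop atTop := by
  have h1 : Tendsto (fun j : ℕ => (kk ε j : ℝ)) atTop atTop := by
    have h2 : Tendsto (fun j : ℕ => Real.sqrt j) atTop atTop :=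
      Real.tendsto_sqrt_atTop.comp tendsto_natCast_atTop_atTop
    refine tendsto_atTop_mono' atTop ?_ h2
    filter_upwards [logpow_small 1 (1 / 2) (by norm_num), log_tendsto.eventually_ge_atTop 1] with j e1 e2
    rw [pow_one] at e1
    have hL1 := Real.log_two_gt_d9
    have hj0 : (0 : ℝ) ≤ j := Nat.cast_nonneg j
    have hs := Real.mul_self_sqrt hj0
    have hs0 := Real.sqrt_nonneg (j : ℝ)
    have h3 : Real.sqrt j ≤ (1 + ε / 2) * (Real.log 2 * j) / Real.log j := by
      rw [le_div_iff₀ (by linarith)]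
      calc Real.sqrt j * Real.log j ≤ Real.sqrt j * (1 / 2 * Real.sqrt j) := by gcongr
        _ = 1 / 2 * j := by linarith
        _ ≤ 1 * (Real.log 2 * j) := by nlinarith
        _ ≤ (1 + ε / 2) * (Real.log 2 * j) := by gcongr; linarith
    refine h3.trans ?_
    unfold kk; push_cast; exact (Nat.lt_floor_add_one _).le
  exact tendsto_natCast_atTop_iff.1 h1

/-- the exponent -/
lemma expo2 (ε : ℝ) (hε : 0 < ε) (hε1 : ε ≤ 1) : ∀ᶠ j : ℕ in atTop,
    (1 + ε / 4) * (Real.log 2 * j) ≤
      kk ε j * Real.log (((j / 2 : ℕ) : ℝ) * Real.log 2 / (2.42 * Real.log (kk ε j))) := by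
  have hL1 := Real.log_two_gt_d9
  have hL2 := Real.log_two_lt_d9
  have hL0 : 0 < Real.log 2 := by linarith
  set δ : ℝ := ε / 8 with hδ
  have hδ0 : 0 < δ := by positivity
  have hll : ∀ᶠ j : ℕ in atTop, Real.log (12 * Real.log j) ≤ δ * Real.log j := by
    have h1 : Tendsto (fun j : ℕ => 12 * Real.log j) atTop atTop :=
      log_tendsto.const_mul_atTop (by norm_num)
    have h2 := (Real.isLittleO_log_id_atTop).comp_tendsto h1
    have h3 := h2.bound (show 0 < δ / 12 by positivity)
    filter_upwards [h3, h1.eventually_ge_atTop 1] with j h4 h5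
    simp only [Function.comp, id, Real.norm_eq_abs] at h4
    rw [abs_of_nonneg (Real.log_nonneg h5), abs_of_nonneg (by linarith)] at h4
    refine h4.trans (le_of_eq ?_)
    ring
  filter_upwards [kk_facts ε hε hε1, hll, log_tendsto.eventually_ge_atTop 1,
    eventually_ge_atTop 1000, (kk_tendsto ε hε).eventually_ge_atTop 2] with j f e1 e2 e3 e4
  obtain ⟨f1, f2, f3⟩ := f
  have hj : (1000 : ℝ) ≤ j := by exact_mod_cast e3
  have hj0 : (0 : ℝ) < j := by linarith
  have hlj : 0 < Real.log j := by linarith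
  have hk2 : (2 : ℝ) ≤ kk ε j := by exact_mod_cast e4
  have hkj : (kk ε j : ℝ) ≤ j := by exact_mod_cast (by omega : kk ε j ≤ j)
  have hlk0 : 0 < Real.log (kk ε j) := Real.log_pos (by linarith)
  have hlk : Real.log (kk ε j) ≤ Real.log j := Real.log_le_log (by linarith) hkj
  have hj3 : (j : ℝ) / 3 ≤ ((j / 2 : ℕ) : ℝ) := by
    have h1 : j ≤ 3 * (j / 2) := by omega
    have h2 : (j : ℝ) ≤ 3 * ((j / 2 : ℕ) : ℝ) := by exact_mod_cast h1
    linarith
  have h1 : (j : ℝ) / (12 * Real.log j) ≤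
      ((j / 2 : ℕ) : ℝ) * Real.log 2 / (2.42 * Real.log (kk ε j)) := by
    rw [div_le_div_iff₀ (by positivity) (by positivity)]
    calc (j : ℝ) * (2.42 * Real.log (kk ε j)) ≤ j * (2.42 * Real.log j) := by gcongr
      _ ≤ j / 3 * 0.69 * (12 * Real.log j) := by
        have : 0 < (j : ℝ) * Real.log j := by positivity
        norm_num
        nlinarith
      _ ≤ ((j / 2 : ℕ) : ℝ) * Real.log 2 * (12 * Real.log j) := by
        have : (0.69 : ℝ) ≤ Real.log 2 := by norm_num; linarith
        gcongr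
  have h2 : (1 - δ) * Real.log j ≤
      Real.log (((j / 2 : ℕ) : ℝ) * Real.log 2 / (2.42 * Real.log (kk ε j))) := by
    have h3 : Real.log ((j : ℝ) / (12 * Real.log j)) ≤
        Real.log (((j / 2 : ℕ) : ℝ) * Real.log 2 / (2.42 * Real.log (kk ε j))) :=
      Real.log_le_log (by positivity) h1
    rw [Real.log_div hj0.ne' (by positivity)] at h3
    linarith
  have hδ1 : 0 ≤ 1 - δ := by linarith
  calc (1 + ε / 4) * (Real.log 2 * j) ≤ (1 + ε / 2) * (1 - δ) * (Real.log 2 * j) := by
        have h3 : 1 + ε / 4 ≤ (1 + ε / 2) * (1 - δ) := by rw [hδ]; nlinarith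
        gcongr
    _ = (1 + ε / 2) * (Real.log 2 * j) / Real.log j * ((1 - δ) * Real.log j) := by
        field_simp
    _ ≤ kk ε j * Real.log (((j / 2 : ℕ) : ℝ) * Real.log 2 / (2.42 * Real.log (kk ε j))) := by
        gcongr

/-- the elements are small -/
lemma APr_small {j k : ℕ} (hk : 8 * k ≤ j) (hj : 8 ≤ j) :
    ∀ i ∈ APr (2 ^ (j / 2)) (primorial k) k, i ^ 3 ≤ (2 ^ j) ^ 2 := by
  intro i hi
  obtain ⟨t, ht, rfl⟩ := mem_image.1 hi
  have ht0 := mem_range.1 ht
  have h1 : t * primorial k ≤ 2 ^ (j / 2) := by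
    calc t * primorial k ≤ 2 ^ k * 4 ^ k := by
          refine Nat.mul_le_mul ?_ (primorial_le_four_pow k)
          exact ht0.le.trans Nat.lt_two_pow_self.le
      _ = 2 ^ (3 * k) := by
        rw [show (4 : ℕ) = 2 ^ 2 by norm_num, ← pow_mul, ← pow_add]; congr 1; ring
      _ ≤ 2 ^ (j / 2) := Nat.pow_le_pow_right (by norm_num) (by omega)
  calc (2 ^ (j / 2) + t * primorial k) ^ 3 ≤ (2 ^ (j / 2 + 1)) ^ 3 := by
        refine Nat.pow_le_pow_left ?_ 3
        rw [pow_succ]; omega
    _ = 2 ^ (3 * (j / 2 + 1)) := by rw [← pow_mul]; congr 1; ring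
    _ ≤ 2 ^ (j * 2) := Nat.pow_le_pow_right (by norm_num) (by omega)
    _ = (2 ^ j) ^ 2 := by rw [← pow_mul]

section
variable {Ω : Type} [MeasurableSpace Ω] {μ : Measure Ω} [IsProbabilityMeasure μ]
  {A : ℕ → Ω → ℕ}

theorem opt (ε : ℝ) (hε : 0 < ε) (hA : RandomClasses μ A) (z : ℕ → ℕ) (hz : Monotone z)
    (hzl : Tendsto (fun n : ℕ => V (z n) * Real.log n) atTop (𝓝 1)) :
    ∀ᵐ ω ∂μ, ∀ᶠ x : ℕ in atTop, ∃ H : Finset ℕ,
      (∀ p : ℕ, p.Prime → ∃ c, ∀ i ∈ H, ¬ i ≡ c [MOD p]) ∧
      (H.card : ℝ) ≤ (1 + ε) * Real.log x / Real.log (Real.log x) ∧ (∀ i ∈ H, i ^ 3 ≤ x ^ 2) ∧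
      ∀ n ≤ x, ¬ ∀ i ∈ H, n + i ∈ RB z (fun p => A p ω) := by
  classical
  set e : ℝ := min ε 1 with he
  have he0 : 0 < e := lt_min hε one_pos
  have he1 : e ≤ 1 := min_le_right _ _
  have heε : e ≤ ε := min_le_left _ _
  have hL1 := Real.log_two_gt_d9
  have hL2 := Real.log_two_lt_d9
  have hL0 : 0 < Real.log 2 := by linarith
  set Hj : ℕ → Finset ℕ := fun j => APr (2 ^ (j / 2)) (primorial (kk e j)) (kk e j) with hHj
  set E : ℕ → Set Ω := fun j => {ω | ∃ n ∈ range (2 ^ (j + 1)),
    ∀ p ∈ bigP (kk e j) (z (2 ^ (j / 2))), A p ω ∉ OmD (Hj j) n p} with hE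
  have hdiv : Tendsto (fun j : ℕ => j / 2) atTop atTop := by
    refine tendsto_atTop.2 fun b => ?_
    filter_upwards [eventually_ge_atTop (2 * b)] with j hj
    omega
  have hzf := hdiv.eventually (zfacts z hz hzl)
  have hkf := (kk_tendsto e he0).eventually (kfacts 1 one_pos)
  have hBC : ∀ᶠ j : ℕ in atTop, μ (E j) ≤ ENNReal.ofReal (1 / (j : ℝ) ^ 2) := by
    filter_upwards [hzf, hkf, kk_facts e he0 he1, expo2 e he0 he1, pow_le_exp 3 (e / 8) (by positivity),
      eventually_ge_atTop 1000] with j g1 g2 g3 g4 g5 g6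
    have hj : (1000 : ℝ) ≤ j := by exact_mod_cast g6
    have hj0 : (0 : ℝ) < j := by linarith
    set k := kk e j with hk
    have hkZ : k ≤ z (2 ^ (j / 2)) := by
      refine le_trans ?_ g1.WZ
      have h1 : j / 2 ≤ Wj (j / 2) := Nat.le_self_pow (by norm_num) _
      omega
    have hsum : ∑ p ∈ bigP k (z (2 ^ (j / 2))), (nu (Hj j) p : ℝ) / p =
        k * ss (bigP k (z (2 ^ (j / 2)))) := by
      rw [← sum_div_eq]
      refine sum_congr rfl fun p hp => ?_
      have hp' := mem_bigP.1 hp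
      rw [hHj]
      simp only
      rw [nu_APr hp'.1.2 hp'.2]
      intro h1
      have := (Nat.Prime.dvd_primorial_iff hp'.1.2).1 h1
      omega
    have hone : ∀ n, μ {ω | ∀ p ∈ bigP k (z (2 ^ (j / 2))), A p ω ∉ OmD (Hj j) n p} ≤
        ENNReal.ofReal (Real.exp (-((1 + e / 4) * (Real.log 2 * j)))) := by
      intro n
      refine (miss_prob hA (Hj j) k _ n).trans (ENNReal.ofReal_le_ofReal ?_)
      rw [hsum]
      have h1 := one_window (j / 2) k (z (2 ^ (j / 2))) k (by omega) (by
        have := g2.2.2.2.2.1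
        omega) hkZ g1.V2 g2.1 g2.2.1
      refine h1.trans (Real.exp_le_exp.2 ?_)
      linarith
    have hEsub : E j ⊆ ⋃ n ∈ range (2 ^ (j + 1)),
        {ω | ∀ p ∈ bigP k (z (2 ^ (j / 2))), A p ω ∉ OmD (Hj j) n p} := by
      rintro ω ⟨n, hn, h⟩
      exact Set.mem_biUnion hn h
    calc μ (E j) ≤ _ := measure_mono hEsub
      _ ≤ ∑ n ∈ range (2 ^ (j + 1)),
        μ {ω | ∀ p ∈ bigP k (z (2 ^ (j / 2))), A p ω ∉ OmD (Hj j) n p} :=
          measure_biUnion_finset_le _ _
      _ ≤ ∑ n ∈ range (2 ^ (j + 1)),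
        ENNReal.ofReal (Real.exp (-((1 + e / 4) * (Real.log 2 * j)))) :=
          sum_le_sum fun n _ => hone n
      _ = ENNReal.ofReal ((2 ^ (j + 1) : ℕ) * Real.exp (-((1 + e / 4) * (Real.log 2 * j)))) := by
          rw [sum_const, card_range, nsmul_eq_mul, ENNReal.ofReal_mul (Nat.cast_nonneg _),
            ENNReal.ofReal_natCast]
      _ ≤ ENNReal.ofReal (1 / (j : ℝ) ^ 2) := by
          refine ENNReal.ofReal_le_ofReal ?_
          rw [le_div_iff₀ (by positivity)]
          have h1 : ((2 ^ (j + 1) : ℕ) : ℝ) = 2 * Real.exp (Real.log 2 * j) := by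
            have h2 : Real.exp (Real.log 2 * j) = 2 ^ j := by
              rw [mul_comm, Real.exp_nat_mul, Real.exp_log (by norm_num)]
            rw [h2]; push_cast; ring
          rw [h1]
          have h3 : (j : ℝ) ^ 2 * 2 ≤ (j : ℝ) ^ 3 := by
            have : (j : ℝ) ^ 3 = (j : ℝ) ^ 2 * j := by ring
            rw [this]
            have : (2 : ℝ) ≤ j := by linarith
            gcongr
          calc 2 * Real.exp (Real.log 2 * j) * Real.exp (-((1 + e / 4) * (Real.log 2 * j))) *
              (j : ℝ) ^ 2 = ((j : ℝ) ^ 2 * 2) * Real.exp (-(e / 4 * (Real.log 2 * j))) := by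
                have : Real.exp (Real.log 2 * j) * Real.exp (-((1 + e / 4) * (Real.log 2 * j))) =
                    Real.exp (-(e / 4 * (Real.log 2 * j))) := by
                  rw [← Real.exp_add]; congr 1; ring
                rw [← this]; ring
            _ ≤ Real.exp (e / 8 * j) * Real.exp (-(e / 4 * (Real.log 2 * j))) := by
                have := h3.trans g5
                gcongr
            _ = Real.exp (e / 8 * j - e / 4 * (Real.log 2 * j)) := by
                rw [← Real.exp_add]; congr 1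
            _ ≤ Real.exp 0 := by
                refine Real.exp_le_exp.2 ?_
                have : 0 < e * j := by positivity
                nlinarith
            _ = 1 := Real.exp_zero
  have h := borel_cantelli_sq μ E hBC
  filter_upwards [h] with ω hω
  have hev : ∀ᶠ j : ℕ in atTop, ∀ x : ℕ, 2 ^ j ≤ x → x < 2 ^ (j + 1) → ∃ H : Finset ℕ,
      (∀ p : ℕ, p.Prime → ∃ c, ∀ i ∈ H, ¬ i ≡ c [MOD p]) ∧
      (H.card : ℝ) ≤ (1 + ε) * Real.log x / Real.log (Real.log x) ∧ (∀ i ∈ H, i ^ 3 ≤ x ^ 2) ∧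
      ∀ n ≤ x, ¬ ∀ i ∈ H, n + i ∈ RB z (fun p => A p ω) := by
    filter_upwards [hω, kk_facts e he0 he1, eventually_ge_atTop 1000] with j hj g3 g6 x hx1 hx2
    have hjr : (1000 : ℝ) ≤ j := by exact_mod_cast g6
    have hj0 : (0 : ℝ) < j := by linarith
    refine ⟨Hj j, fun p hp => adm_APr _ _ p hp, ?_, ?_, ?_⟩
    · rw [hHj]
      simp only
      rw [APr_card (primorial_pos _)]
      have hx0 : (0 : ℝ) < x := by
        have : 0 < x := lt_of_lt_of_le (by positivity) hx1
        exact_mod_cast this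
      have hlx1 : Real.log 2 * j ≤ Real.log x := by
        have hlog1 : Real.log ((2 ^ j : ℕ) : ℝ) = Real.log 2 * j := by
          push_cast; rw [Real.log_pow]; ring
        rw [← hlog1]
        exact Real.log_le_log (by positivity) (by exact_mod_cast hx1)
      have hLj : Real.exp 1 ≤ Real.log 2 * j := by
        have h1 := Real.exp_one_lt_d9
        have h2 : (0.69 : ℝ) * 1000 ≤ Real.log 2 * j := by
          have : (0.69 : ℝ) ≤ Real.log 2 := by norm_num; linarith
          gcongr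
        norm_num at h2
        linarith
      have hLj0 : 0 < Real.log 2 * j := by positivity
      have h1 : Real.log (Real.log x) / Real.log x ≤ Real.log (Real.log 2 * j) / (Real.log 2 * j) :=
        Real.log_div_self_antitoneOn (show Real.exp 1 ≤ Real.log 2 * j from hLj)
          (show Real.exp 1 ≤ Real.log x from hLj.trans hlx1) hlx1
      have h2 : Real.log (Real.log 2 * j) ≤ Real.log j := by
        refine Real.log_le_log hLj0 ?_
        nlinarith
      have hlj : 0 < Real.log j := Real.log_pos (by linarith)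
      have hlx : 0 < Real.log x := hLj0.trans_le hlx1
      have h3 : Real.log (Real.log x) / Real.log x ≤ Real.log j / (Real.log 2 * j) :=
        h1.trans (by gcongr)
      have hllx : 0 < Real.log (Real.log x) := by
        refine Real.log_pos ?_
        have := Real.exp_one_gt_d9
        linarith
      have h4 : Real.log 2 * j / Real.log j ≤ Real.log x / Real.log (Real.log x) := by
        rw [div_le_div_iff₀ hlx hLj0] at h3
        rw [div_le_div_iff₀ hlj hllx]
        linarith
      calc (kk e j : ℝ) ≤ (1 + e) * (Real.log 2 * j / Real.log j) := g3.2.2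
        _ ≤ (1 + ε) * (Real.log x / Real.log (Real.log x)) := by
          have : 0 ≤ Real.log 2 * j / Real.log j := by positivity
          gcongr
        _ = _ := by ring
    · intro i hi
      refine (APr_small g3.2.1 (by omega) i hi).trans ?_
      exact Nat.pow_le_pow_left hx1 2
    · intro n hn hcon
      refine hj ⟨n, mem_range.2 (by omega), ?_⟩
      refine miss_of_RB hz (fun p => A p ω) (s := 2 ^ (j / 2)) (fun i hi => ?_) hcon
      obtain ⟨t, _, rfl⟩ := mem_image.1 hi
      omega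
  obtain ⟨j0, hj0⟩ := eventually_atTop.1 hev
  filter_upwards [eventually_ge_atTop (2 ^ j0)] with x hx
  have hxpos : x ≠ 0 := by
    have : 0 < 2 ^ j0 := by positivity
    omega
  have h3 : 2 ^ (Nat.log 2 x) ≤ x := Nat.pow_log_le_self 2 hxpos
  have h4 : x < 2 ^ (Nat.log 2 x + 1) := Nat.lt_pow_succ_log_self (by norm_num) x
  have h5 : j0 ≤ Nat.log 2 x := by
    by_contra hcon
    push Not at hcon
    have : 2 ^ (Nat.log 2 x + 1) ≤ 2 ^ j0 := Nat.pow_le_pow_right (by norm_num) (by omega)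
    omega
  exact hj0 _ h5 x h3 h4

end

end Pool.Agent.H532.UT
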