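import Mathlib
import Pool.Agent.H532.UT.Opt

/-!
The existence of one position below `x`.
-/

namespace Pool.Agent.H532.UT

open Finset Filter MeasureTheory Function Pool.Agent.H532.RM Pool.Agent.H532.UN
open scoped Topology ENNReal

/-- `log x / log log x` is increasing -/
lemma div_log_mono {s t : ℝ} (hs : Real.exp 1 ≤ s) (hst : s ≤ t) (h1 : 1 < s) :
    s / Real.log s ≤ t / Real.log t := by
  have h2 : Real.log t / t ≤ Real.log s / s :=
    Real.log_div_self_antitoneOn (show Real.exp 1 ≤ s from hs)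
      (show Real.exp 1 ≤ t from hs.trans hst) hst
  have h3 : 0 < s := by linarith
  have h4 : 0 < t := by linarith
  have h5 : 0 < Real.log s := Real.log_pos h1
  have h6 : 0 < Real.log t := Real.log_pos (by linarith)
  rw [div_le_div_iff₀ h4 h3] at h2
  rw [div_le_div_iff₀ h5 h6]
  linarith

/-- the range of the page is contained in the range of the theorem -/
lemma range_half (c δ : ℝ) (hc : 0 < c) (hδ : 0 < δ) : ∀ᶠ x : ℕ in atTop,
    Real.log x ^ (1 - δ) ≤ c * Real.log ((x / 2 : ℕ) : ℝ) / Real.log (Real.log ((x / 2 : ℕ) : ℝ)) ∧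
      (x : ℝ) ^ (1 - δ) ≤ ((x / 2 : ℕ) : ℝ) := by
  have h1 : ∀ᶠ t : ℝ in atTop, Real.log t ≤ c / 4 * t ^ δ := by
    have h2 := (isLittleO_log_rpow_atTop hδ).bound (show 0 < c / 4 by positivity)
    filter_upwards [h2, eventually_ge_atTop 1] with t e1 e2
    rw [Real.norm_eq_abs, Real.norm_eq_abs, abs_of_nonneg (Real.log_nonneg e2),
      abs_of_nonneg (Real.rpow_nonneg (by linarith) _)] at e1
    exact e1
  have h4 : ∀ᶠ x : ℕ in atTop, (4 : ℝ) ≤ (x : ℝ) ^ δ :=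
    ((tendsto_rpow_atTop hδ).comp tendsto_natCast_atTop_atTop).eventually_ge_atTop 4
  filter_upwards [log_tendsto.eventually h1, h4, log_tendsto.eventually_ge_atTop 100,
    eventually_ge_atTop 100] with x e1 e2 e3 e4
  have hx : (100 : ℝ) ≤ x := by exact_mod_cast e4
  have hx0 : (0 : ℝ) < x := by linarith
  have hX : (x : ℝ) / 4 ≤ ((x / 2 : ℕ) : ℝ) := by
    have : x ≤ 4 * (x / 2) := by omega
    have h : (x : ℝ) ≤ 4 * ((x / 2 : ℕ) : ℝ) := by exact_mod_cast this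
    linarith
  have hX2 : ((x / 2 : ℕ) : ℝ) ≤ x := by
    have : x / 2 ≤ x := Nat.div_le_self x 2
    exact_mod_cast this
  have hX0 : (0 : ℝ) < ((x / 2 : ℕ) : ℝ) := by linarith
  have hlX : Real.log x / 2 ≤ Real.log ((x / 2 : ℕ) : ℝ) := by
    have h5 : Real.log ((x : ℝ) / 4) ≤ Real.log ((x / 2 : ℕ) : ℝ) := Real.log_le_log (by linarith) hX
    rw [Real.log_div hx0.ne' (by norm_num)] at h5
    have h6 : Real.log 4 ≤ 4 := (Real.log_le_sub_one_of_pos (by norm_num)).trans (by norm_num)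
    linarith
  have hlX2 : Real.log ((x / 2 : ℕ) : ℝ) ≤ Real.log x := Real.log_le_log hX0 hX2
  have hlx0 : 0 < Real.log x := by linarith
  have hll : 0 < Real.log (Real.log ((x / 2 : ℕ) : ℝ)) := Real.log_pos (by linarith)
  have hll2 : Real.log (Real.log ((x / 2 : ℕ) : ℝ)) ≤ Real.log (Real.log x) :=
    Real.log_le_log (by linarith) hlX2
  constructor
  · rw [le_div_iff₀ hll]
    have h5 : Real.log x ^ (1 - δ) * Real.log x ^ δ = Real.log x := by
      rw [← Real.rpow_add hlx0]; simp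
    have h6 : 0 < Real.log x ^ (1 - δ) := Real.rpow_pos_of_pos hlx0 _
    calc Real.log x ^ (1 - δ) * Real.log (Real.log ((x / 2 : ℕ) : ℝ)) ≤
        Real.log x ^ (1 - δ) * (c / 4 * Real.log x ^ δ) := by
          have := hll2.trans e1
          gcongr
      _ = c / 4 * Real.log x := by
          rw [show Real.log x ^ (1 - δ) * (c / 4 * Real.log x ^ δ) =
            c / 4 * (Real.log x ^ (1 - δ) * Real.log x ^ δ) by ring, h5]
      _ ≤ c * Real.log ((x / 2 : ℕ) : ℝ) := by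
          have : c * (Real.log x / 2) ≤ c * Real.log ((x / 2 : ℕ) : ℝ) := by gcongr
          have h7 : 0 < c * Real.log x := by positivity
          linarith
  · have h5 : (x : ℝ) ^ (1 - δ) * (x : ℝ) ^ δ = x := by
      rw [← Real.rpow_add hx0]; simp
    have h6 : 0 < (x : ℝ) ^ (1 - δ) := Real.rpow_pos_of_pos hx0 _
    have h7 : (x : ℝ) ^ (1 - δ) * 4 ≤ x := by
      calc (x : ℝ) ^ (1 - δ) * 4 ≤ (x : ℝ) ^ (1 - δ) * (x : ℝ) ^ δ := by gcongr
        _ = x := h5
    linarith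

/-- the analogue of Q1 -/
theorem q1 (δ : ℝ) (hδ : 0 < δ) (z : ℕ → ℕ) (hz : Rate z) {Ω : Type} [MeasurableSpace Ω]
    {μ : Measure Ω} [IsProbabilityMeasure μ] {A : ℕ → Ω → ℕ} (hA : RandomClasses μ A) :
    ∀ᵐ ω ∂μ, ∀ᶠ x : ℕ in atTop, ∀ H : Finset ℕ,
      (∀ p : ℕ, p.Prime → ∃ c, ∀ i ∈ H, ¬ i ≡ c [MOD p]) →
      (H.card : ℝ) ≤ Real.log x ^ (1 - δ) → (∀ i ∈ H, (i : ℝ) ≤ (x : ℝ) ^ (1 - δ)) →
      ∃ n, 0 < n ∧ n ≤ x ∧ ∀ i ∈ H, n + i ∈ RB z (fun p => A p ω) := by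
  obtain ⟨c, hc, hcc⟩ := hl_unif (1 / 2) (1 / 2) (by norm_num) (by norm_num) (by norm_num)
  have hdiv : Tendsto (fun x : ℕ => x / 2) atTop atTop := by
    refine tendsto_atTop.2 fun b => ?_
    filter_upwards [eventually_ge_atTop (2 * b)] with j hj
    omega
  filter_upwards [hcc z hz hA] with ω hω
  filter_upwards [hdiv.eventually hω, range_half c δ hc hδ, eventually_ge_atTop 100] with x e1 e2 e3
    H hadm hH hHx
  have hXr : (1 : ℝ) ≤ ((x / 2 : ℕ) : ℝ) := by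
    have : 1 ≤ x / 2 := by omega
    exact_mod_cast this
  have h1 := e1 H (hH.trans e2.1) (fun i hi => by
    have := (hHx i hi).trans e2.2
    exact_mod_cast this) (x / 2) (by
      calc ((x / 2 : ℕ) : ℝ) ^ (1 / 2 : ℝ) ≤ ((x / 2 : ℕ) : ℝ) ^ (1 : ℝ) :=
            Real.rpow_le_rpow_of_exponent_le hXr (by norm_num)
        _ = _ := Real.rpow_one _) le_rfl
  have hS := SS_pos H hadm
  have hx50 : (50 : ℝ) ≤ ((x / 2 : ℕ) : ℝ) := by
    have : 50 ≤ x / 2 := by omega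
    exact_mod_cast this
  have hl : 0 < Real.log ((x / 2 : ℕ) : ℝ) := Real.log_pos (by linarith)
  have hM : 0 < SS H * ((x / 2 : ℕ) : ℝ) / Real.log ((x / 2 : ℕ) : ℝ) ^ H.card := by positivity
  have h2 := (abs_le.1 h1).1
  have h3 : (0 : ℝ) < cH (RB z (fun p => A p ω)) H (x / 2) (x / 2) := by linarith
  have h4 : 0 < cH (RB z (fun p => A p ω)) H (x / 2) (x / 2) := by exact_mod_cast h3
  unfold cH at h4
  obtain ⟨n, hn1, hn2, hn3⟩ := Set.nonempty_of_ncard_ne_zero h4.ne'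
  exact ⟨n, by omega, by omega, hn3⟩

end Pool.Agent.H532.UT
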